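import Mathlib

/-!
# Counting: random functions have no consistent partial labelling
-/

set_option autoImplicit false

namespace Q151.XI

open Finset

variable {G : Type} [Group G] [Fintype G] [DecidableEq G]

/-- The sample space: `D` random functions `[N] → [N]` with labels in `G`. -/
abbrev Om (G : Type) (D N : ℕ) : Type := Fin D × Fin N → Fin N × G

/-- The values allowed at `x`. -/
def allowed {N M : ℕ} (κ : Fin N → Option (Fin M × G)) (x : Fin N) : Finset (Fin N × G) :=
  univ.filter fun q => ∀ c h, κ x = some (c, h) → ∀ h', κ q.1 = some (c, h') → h = q.2 * h'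

/-- The colour. -/
def col {N M : ℕ} (κ : Fin N → Option (Fin M × G)) (x : Fin N) : Option (Fin M) :=
  (κ x).map Prod.fst

/-- the class of `x` -/
def cls {N M : ℕ} (κ : Fin N → Option (Fin M × G)) (x : Fin N) : Finset (Fin N) :=
  univ.filter fun y => ∃ c, col κ x = some c ∧ col κ y = some c

lemma col_some {N M : ℕ} {κ : Fin N → Option (Fin M × G)} {x : Fin N} {c : Fin M}
    (h : col κ x = some c) : ∃ g, κ x = some (c, g) := by
  unfold col at h
  rw [Option.map_eq_some_iff] at h
  obtain ⟨⟨c', g⟩, h1, h2⟩ := h
  simp only at h2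
  exact ⟨g, by rw [h1, h2]⟩

lemma card_allowed (hG : 2 ≤ Fintype.card G) {N M : ℕ} (κ : Fin N → Option (Fin M × G))
    (x : Fin N) : 2 * (allowed κ x).card + Fintype.card G * (cls κ x).card
      ≤ 2 * (N * Fintype.card G) := by
  classical
  have h1 : (allowed κ x).card = ∑ y : Fin N, (univ.filter fun g : G => (y, g) ∈ allowed κ x).card := by
    simp only [card_filter]
    rw [← Fintype.sum_prod_type (f := fun q : Fin N × G => if q ∈ allowed κ x then 1 else 0)]
    rw [← card_filter]
    congr 1
    ext q
    simp
  have h2 : (cls κ x).card = ∑ y : Fin N, if y ∈ cls κ x then 1 else 0 := by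
    rw [← card_filter]
    congr 1
    ext q
    simp
  rw [h1, h2, mul_sum, mul_sum, ← sum_add_distrib]
  calc ∑ y : Fin N, (2 * (univ.filter fun g : G => (y, g) ∈ allowed κ x).card +
        Fintype.card G * (if y ∈ cls κ x then 1 else 0))
      ≤ ∑ _y : Fin N, 2 * Fintype.card G := by
        apply sum_le_sum
        intro y _
        by_cases hy : y ∈ cls κ x
        · rw [if_pos hy]
          have : (univ.filter fun g : G => (y, g) ∈ allowed κ x).card ≤ 1 := by
            simp only [cls, mem_filter, mem_univ, true_and] at hy
            obtain ⟨c, hc1, hc2⟩ := hy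
            obtain ⟨g1, hg1⟩ := col_some hc1
            obtain ⟨g2, hg2⟩ := col_some hc2
            rw [card_le_one]
            intro a ha b hb
            simp only [allowed, mem_filter, mem_univ, true_and] at ha hb
            have e1 := ha c g1 hg1 g2 hg2
            have e2 := hb c g1 hg1 g2 hg2
            exact mul_right_cancel (e1.symm.trans e2)
          omega
        · rw [if_neg hy]
          have : (univ.filter fun g : G => (y, g) ∈ allowed κ x).card ≤ Fintype.card G :=
            card_filter_le _ _
          omega
    _ = 2 * (N * Fintype.card G) := by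
        rw [sum_const, card_univ, Fintype.card_fin, smul_eq_mul]
        ring

/-- number of points of colour `c` -/
def nc {N M : ℕ} (κ : Fin N → Option (Fin M × G)) (c : Fin M) : ℕ :=
  (univ.filter fun x => col κ x = some c).card

lemma sum_cls {N M : ℕ} (κ : Fin N → Option (Fin M × G)) :
    ∑ x, (cls κ x).card = ∑ c, nc κ c ^ 2 := by
  classical
  have h1 : ∀ x, (cls κ x).card = ∑ c, if col κ x = some c then nc κ c else 0 := by
    intro x
    rcases h : col κ x with _ | c
    · have : cls κ x = ∅ := by
        ext y
        simp [cls, h]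
      rw [this]
      simp
    · have : cls κ x = univ.filter fun y => col κ y = some c := by
        ext y
        simp [cls, h]
      rw [this]
      rw [sum_eq_single c]
      · simp [nc]
      · intro b _ hb
        rw [if_neg]
        intro h2
        exact hb (Option.some.inj h2).symm
      · intro h
        exact absurd (mem_univ _) h
  simp only [h1]
  rw [sum_comm]
  apply sum_congr rfl
  intro c _
  rw [← sum_filter, sum_const, smul_eq_mul, sq]
  rfl

lemma sum_nc {N M : ℕ} (κ : Fin N → Option (Fin M × G)) :
    ∑ c, nc κ c = (univ.filter fun x => κ x ≠ none).card := by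
  classical
  unfold nc
  rw [← card_biUnion]
  · congr 1
    ext x
    simp only [mem_biUnion, mem_univ, true_and, mem_filter]
    constructor
    · rintro ⟨c, hc⟩
      obtain ⟨g, hg⟩ := col_some hc
      rw [hg]
      simp
    · intro h
      obtain ⟨⟨c, g⟩, hcg⟩ := Option.ne_none_iff_exists'.1 h
      exact ⟨c, by simp [col, hcg]⟩
  · intro a _ b _ hab
    rw [Function.onFun, disjoint_left]
    intro x hx hx'
    rw [mem_filter] at hx hx'
    rw [hx.2] at hx'
    exact hab (Option.some.inj hx'.2)

lemma card_compat (hG : 2 ≤ Fintype.card G) {D N M : ℕ} (hN : 0 < N) (hM : 0 < M)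
    (κ : Fin N → Option (Fin M × G)) (hκ : N ≤ 2 * (univ.filter fun x => κ x ≠ none).card) :
    ((univ.filter fun ω : Om G D N => ∀ k, ω k ∈ allowed κ k.2).card : ℝ) ≤
      (Fintype.card (Om G D N) : ℝ) * Real.exp (-((D : ℝ) * N / (8 * M))) := by
  classical
  have hN' : (0 : ℝ) < N := by exact_mod_cast hN
  have hM' : (0 : ℝ) < M := by exact_mod_cast hM
  have hGp : (0 : ℝ) < Fintype.card G := by
    have : 0 < Fintype.card G := by omega
    exact_mod_cast this
  have h1 : (univ.filter fun ω : Om G D N => ∀ k, ω k ∈ allowed κ k.2) =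
      Fintype.piFinset (fun k : Fin D × Fin N => allowed κ k.2) := by
    ext ω
    simp
  rw [h1, Fintype.card_piFinset]
  push_cast
  have h2 : ∀ x : Fin N, ((allowed κ x).card : ℝ) ≤
      ((N : ℝ) * Fintype.card G) * Real.exp (-(((cls κ x).card : ℝ) / (2 * N))) := by
    intro x
    have h := card_allowed hG κ x
    have h' : 2 * ((allowed κ x).card : ℝ) + Fintype.card G * ((cls κ x).card : ℝ) ≤
        2 * (N * Fintype.card G) := by exact_mod_cast h
    have h3 : 1 - ((cls κ x).card : ℝ) / (2 * N) ≤
        Real.exp (-(((cls κ x).card : ℝ) / (2 * N))) := by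
      have := Real.add_one_le_exp (-(((cls κ x).card : ℝ) / (2 * N)))
      linarith
    calc ((allowed κ x).card : ℝ) ≤
        ((N : ℝ) * Fintype.card G) * (1 - ((cls κ x).card : ℝ) / (2 * N)) := by
          have : ((N : ℝ) * Fintype.card G) * (1 - ((cls κ x).card : ℝ) / (2 * N)) =
            N * Fintype.card G - Fintype.card G * (cls κ x).card / 2 := by
            field_simp
          rw [this]
          linarith
      _ ≤ _ := by
          apply mul_le_mul_of_nonneg_left h3
          positivity
  calc ∏ k : Fin D × Fin N, ((allowed κ k.2).card : ℝ)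
      ≤ ∏ k : Fin D × Fin N, (((N : ℝ) * Fintype.card G) *
          Real.exp (-(((cls κ k.2).card : ℝ) / (2 * N)))) := by
        apply prod_le_prod
        · intro k _
          positivity
        · intro k _
          exact h2 k.2
    _ = ((N : ℝ) * Fintype.card G) ^ (D * N) *
          Real.exp (-((D : ℝ) / (2 * N) * ∑ x, ((cls κ x).card : ℝ))) := by
        rw [prod_mul_distrib, prod_const, ← Real.exp_sum, card_univ, Fintype.card_prod,
          Fintype.card_fin, Fintype.card_fin]
        congr 2
        rw [Fintype.sum_prod_type]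
        simp only [sum_neg_distrib]
        rw [sum_const, card_univ, Fintype.card_fin, nsmul_eq_mul, ← sum_div]
        ring
    _ ≤ ((N : ℝ) * Fintype.card G) ^ (D * N) * Real.exp (-((D : ℝ) * N / (8 * M))) := by
        apply mul_le_mul_of_nonneg_left _ (by positivity)
        apply Real.exp_le_exp.2
        apply neg_le_neg
        have e1 : (∑ x, ((cls κ x).card : ℝ)) = ∑ c, (nc κ c : ℝ) ^ 2 := by
          exact_mod_cast sum_cls κ
        have e2 : (∑ c, (nc κ c : ℝ)) = ((univ.filter fun x => κ x ≠ none).card : ℝ) := by
          exact_mod_cast sum_nc κ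
        have e3 : (∑ c, (nc κ c : ℝ)) ^ 2 ≤ M * ∑ c, (nc κ c : ℝ) ^ 2 := by
          have := sq_sum_le_card_mul_sum_sq (s := (univ : Finset (Fin M)))
            (f := fun c => (nc κ c : ℝ))
          rwa [card_univ, Fintype.card_fin] at this
        have e4 : (N : ℝ) / 2 ≤ ∑ c, (nc κ c : ℝ) := by
          rw [e2]
          have : (N : ℝ) ≤ 2 * ((univ.filter fun x => κ x ≠ none).card : ℝ) := by
            exact_mod_cast hκ
          linarith
        have e5 : ((N : ℝ) / 2) ^ 2 ≤ (∑ c, (nc κ c : ℝ)) ^ 2 := by gcongr
        rw [e1]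
        have e6 : (N : ℝ) ^ 2 / (4 * M) ≤ ∑ c, (nc κ c : ℝ) ^ 2 := by
          rw [div_le_iff₀ (by positivity)]
          nlinarith
        calc (D : ℝ) * N / (8 * M) = D / (2 * N) * (N ^ 2 / (4 * M)) := by
              field_simp
              ring
          _ ≤ D / (2 * N) * ∑ c, (nc κ c : ℝ) ^ 2 := by
              apply mul_le_mul_of_nonneg_left e6
              positivity
    _ = _ := by
        congr 1
        rw [Fintype.card_fun, Fintype.card_prod, Fintype.card_prod, Fintype.card_fin,
          Fintype.card_fin]
        push_cast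
        rfl

end Q151.XI
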