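import Mathlib
import Pool.Agent.Q151.XI.Count

/-!
# Choosing functions with few short loops and no consistent partial labelling
-/

set_option autoImplicit false

namespace Q151.XI

open Finset

section Loops

variable {G : Type} [Group G] [Fintype G] [DecidableEq G]

/-- the argument used by the `j`-th arc of a closed sequence -/
def key {D N m : ℕ} (x : Fin (m + 1) → Fin N) (k : Fin (m + 1) → Fin D × Bool)
    (j : Fin (m + 1)) : Fin D × Fin N :=
  ((k j).1, if (k j).2 then x j else x (j + 1))

/-- the value prescribed for the `j`-th arc of a closed sequence -/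
def hd {D N m : ℕ} (x : Fin (m + 1) → Fin N) (k : Fin (m + 1) → Fin D × Bool)
    (j : Fin (m + 1)) : Fin N :=
  if (k j).2 then x (j + 1) else x j

/-- a closed sequence of arcs, all different -/
def IsLoop {D N m : ℕ} (ω : Om G D N) (x : Fin (m + 1) → Fin N)
    (k : Fin (m + 1) → Fin D × Bool) : Prop :=
  Function.Injective (key x k) ∧ ∀ j, (ω (key x k j)).1 = hd x k j

lemma card_loop_fixed {D N m : ℕ} (x : Fin (m + 1) → Fin N)
    (k : Fin (m + 1) → Fin D × Bool) (hinj : Function.Injective (key x k)) :
    N ^ (m + 1) * (univ.filter fun ω : Om G D N => ∀ j, (ω (key x k j)).1 = hd x k j).card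
      ≤ Fintype.card (Om G D N) := by
  classical
  let A : Fin D × Fin N → Finset (Fin N × G) := fun q =>
    univ.filter fun v => ∀ j, key x k j = q → v.1 = hd x k j
  have h1 : (univ.filter fun ω : Om G D N => ∀ j, (ω (key x k j)).1 = hd x k j) =
      Fintype.piFinset A := by
    ext ω
    simp only [mem_filter, mem_univ, true_and, Fintype.mem_piFinset, A]
    constructor
    · rintro h q j rfl
      exact h j
    · intro h j
      exact h _ j rfl
  have h2 : N ^ (m + 1) = ∏ q : Fin D × Fin N, if q ∈ univ.image (key x k) then N else 1 := by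
    rw [prod_ite_mem, univ_inter, prod_const, card_image_of_injective _ hinj, card_univ,
      Fintype.card_fin]
  rw [h1, Fintype.card_piFinset, h2, ← prod_mul_distrib, Fintype.card_fun]
  rw [← card_univ (α := Fin D × Fin N), ← prod_const]
  apply prod_le_prod'
  intro q _
  by_cases hq : q ∈ univ.image (key x k)
  · rw [if_pos hq, Fintype.card_prod, Fintype.card_fin]
    apply Nat.mul_le_mul_left
    obtain ⟨j, -, hj⟩ := mem_image.1 hq
    calc (A q).card ≤ (({hd x k j} : Finset (Fin N)) ×ˢ (univ : Finset G)).card := by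
          apply card_le_card
          intro v hv
          rw [mem_product, mem_singleton]
          rw [mem_filter] at hv
          exact ⟨hv.2 j hj, mem_univ _⟩
      _ = Fintype.card G := by
          rw [card_product, card_singleton, one_mul, card_univ]
  · rw [if_neg hq, one_mul]
    exact card_le_univ _

lemma sum_loops (D N m : ℕ) (hN : 0 < N) :
    ∑ ω : Om G D N, (by classical exact (univ.filter fun q : (Fin (m + 1) → Fin N) ×
      (Fin (m + 1) → Fin D × Bool) => IsLoop ω q.1 q.2).card) ≤
      (2 * D) ^ (m + 1) * Fintype.card (Om G D N) := by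
  classical
  have hpos : 0 < N ^ (m + 1) := pow_pos hN _
  refine Nat.le_of_mul_le_mul_left ?_ hpos
  have h1 : ∑ ω : Om G D N, (univ.filter fun q : (Fin (m + 1) → Fin N) ×
      (Fin (m + 1) → Fin D × Bool) => IsLoop ω q.1 q.2).card =
      ∑ q : (Fin (m + 1) → Fin N) × (Fin (m + 1) → Fin D × Bool),
        (univ.filter fun ω : Om G D N => IsLoop ω q.1 q.2).card := by
    simp only [card_filter]
    rw [sum_comm]
  rw [h1, mul_sum]
  calc ∑ q : (Fin (m + 1) → Fin N) × (Fin (m + 1) → Fin D × Bool),
        N ^ (m + 1) * (univ.filter fun ω : Om G D N => IsLoop ω q.1 q.2).card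
      ≤ ∑ _q : (Fin (m + 1) → Fin N) × (Fin (m + 1) → Fin D × Bool),
          Fintype.card (Om G D N) := by
        apply sum_le_sum
        rintro ⟨x, k⟩ -
        by_cases hinj : Function.Injective (key x k)
        · refine le_trans ?_ (card_loop_fixed (G := G) x k hinj)
          apply Nat.mul_le_mul_left
          apply card_le_card
          intro ω hω
          rw [mem_filter] at hω ⊢
          exact ⟨mem_univ _, hω.2.2⟩
        · have : (univ.filter fun ω : Om G D N => IsLoop ω x k) = ∅ := by
            rw [filter_eq_empty_iff]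
            intro ω _ h
            exact hinj h.1
          rw [this]
          simp
    _ = N ^ (m + 1) * ((2 * D) ^ (m + 1) * Fintype.card (Om G D N)) := by
        rw [sum_const, smul_eq_mul, card_univ, Fintype.card_prod, Fintype.card_fun,
          Fintype.card_fun, Fintype.card_prod, Fintype.card_fin, Fintype.card_fin,
          Fintype.card_fin, Fintype.card_bool]
        ring

open Classical in
/-- starting points of short loops -/
noncomputable def badSet {D N : ℕ} (L : ℕ) (ω : Om G D N) : Finset (Fin N) :=
  univ.filter fun v => ∃ m < L, ∃ (x : Fin (m + 1) → Fin N) (k : Fin (m + 1) → Fin D × Bool),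
    IsLoop ω x k ∧ x 0 = v

lemma card_badSet {D N : ℕ} (L : ℕ) (ω : Om G D N) :
    (badSet L ω).card ≤ ∑ m ∈ range L, (by classical exact
      (univ.filter fun q : (Fin (m + 1) → Fin N) ×
        (Fin (m + 1) → Fin D × Bool) => IsLoop ω q.1 q.2).card) := by
  classical
  calc (badSet L ω).card ≤ ((range L).biUnion fun m =>
        (univ.filter fun q : (Fin (m + 1) → Fin N) ×
          (Fin (m + 1) → Fin D × Bool) => IsLoop ω q.1 q.2).image fun q => q.1 0).card := by
        apply card_le_card
        intro v hv
        simp only [badSet, mem_filter, mem_univ, true_and] at hv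
        obtain ⟨m, hm, x, k, h, hx⟩ := hv
        rw [mem_biUnion]
        refine ⟨m, mem_range.2 hm, mem_image.2 ⟨(x, k), ?_, hx⟩⟩
        rw [mem_filter]
        exact ⟨mem_univ _, h⟩
    _ ≤ ∑ m ∈ range L, ((univ.filter fun q : (Fin (m + 1) → Fin N) ×
          (Fin (m + 1) → Fin D × Bool) => IsLoop ω q.1 q.2).image fun q => q.1 0).card :=
        card_biUnion_le
    _ ≤ _ := by
        apply sum_le_sum
        intro m _
        exact card_image_le

lemma sum_badSet (D N L : ℕ) (hN : 0 < N) :
    ∑ ω : Om G D N, (badSet L ω).card ≤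
      (∑ m ∈ range L, (2 * D) ^ (m + 1)) * Fintype.card (Om G D N) := by
  classical
  calc ∑ ω : Om G D N, (badSet L ω).card
      ≤ ∑ ω : Om G D N, ∑ m ∈ range L, (univ.filter fun q : (Fin (m + 1) → Fin N) ×
          (Fin (m + 1) → Fin D × Bool) => IsLoop ω q.1 q.2).card := by
        apply sum_le_sum
        intro ω _
        convert card_badSet L ω
    _ = ∑ m ∈ range L, ∑ ω : Om G D N, (univ.filter fun q : (Fin (m + 1) → Fin N) ×
          (Fin (m + 1) → Fin D × Bool) => IsLoop ω q.1 q.2).card := sum_comm
    _ ≤ ∑ m ∈ range L, (2 * D) ^ (m + 1) * Fintype.card (Om G D N) := by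
        apply sum_le_sum
        intro m _
        convert sum_loops (G := G) D N m hN
    _ = _ := by rw [sum_mul]

theorem exists_good (hG : 2 ≤ Fintype.card G) (M : ℕ) (hM : 0 < M) :
    ∃ D : ℕ, 0 < D ∧ ∀ L : ℕ, ∃ C : ℕ, ∀ N : ℕ, 0 < N → ∃ ω : Om G D N,
      (badSet L ω).card < C ∧
      ∀ κ : Fin N → Option (Fin M × G), N ≤ 2 * (univ.filter fun x => κ x ≠ none).card →
        ∃ k, ω k ∉ allowed κ k.2 := by
  classical
  -- the number of functions
  have hM' : (0 : ℝ) < M := by exact_mod_cast hM
  obtain ⟨D, hD⟩ := exists_nat_gt (8 * M * Real.log (4 * (M * Fintype.card G + 1)))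
  have hlog : 0 < Real.log (4 * ((M : ℝ) * Fintype.card G + 1)) := by
    apply Real.log_pos
    have : (0 : ℝ) ≤ (M : ℝ) * Fintype.card G := by positivity
    linarith
  have hD0 : 0 < D := by
    have : (0 : ℝ) < D := lt_trans (by positivity) hD
    exact_mod_cast this
  refine ⟨D, hD0, fun L => ?_⟩
  set S := ∑ m ∈ range L, (2 * D) ^ (m + 1) with hS
  refine ⟨4 * S + 1, fun N hN => ?_⟩
  have hNR : (0 : ℝ) < N := by exact_mod_cast hN
  set T : ℝ := (Fintype.card (Om G D N) : ℝ) with hT
  have hTpos : 0 < T := by
    have : 0 < Fintype.card (Om G D N) := by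
      rw [Fintype.card_pos_iff]
      exact ⟨fun _ => (⟨0, hN⟩, 1)⟩
    rw [hT]
    exact_mod_cast this
  -- first bad event
  set B1 : Finset (Om G D N) := univ.filter fun ω => 4 * S + 1 ≤ (badSet L ω).card with hB1
  have hb1 : (B1.card : ℝ) ≤ T / 4 := by
    have h1 : B1.card * (4 * S + 1) ≤ S * Fintype.card (Om G D N) := by
      calc B1.card * (4 * S + 1) = ∑ _ω ∈ B1, (4 * S + 1) := by rw [sum_const, smul_eq_mul]
        _ ≤ ∑ ω ∈ B1, (badSet L ω).card := by
            apply sum_le_sum
            intro ω hω
            exact (mem_filter.1 hω).2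
        _ ≤ ∑ ω : Om G D N, (badSet L ω).card := by
            apply sum_le_sum_of_subset
            exact subset_univ _
        _ ≤ _ := sum_badSet D N L hN
    have h2 : (B1.card : ℝ) * (4 * S + 1) ≤ S * T := by
      rw [hT]
      exact_mod_cast h1
    have h3 : (0 : ℝ) ≤ S := Nat.cast_nonneg _
    by_contra hcon
    push Not at hcon
    nlinarith
  -- second bad event
  set Kp : Finset (Fin N → Option (Fin M × G)) :=
    univ.filter fun κ => N ≤ 2 * (univ.filter fun x => κ x ≠ none).card with hKp
  set B2 : Finset (Om G D N) := Kp.biUnion fun κ =>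
    univ.filter fun ω : Om G D N => ∀ k, ω k ∈ allowed κ k.2 with hB2
  have hb2 : (B2.card : ℝ) ≤ T / 4 := by
    have h1 : (B2.card : ℝ) ≤ ∑ _κ ∈ Kp, T * Real.exp (-((D : ℝ) * N / (8 * M))) := by
      calc (B2.card : ℝ) ≤ ∑ κ ∈ Kp,
            ((univ.filter fun ω : Om G D N => ∀ k, ω k ∈ allowed κ k.2).card : ℝ) := by
            exact_mod_cast card_biUnion_le
        _ ≤ _ := by
            apply sum_le_sum
            intro κ hκ
            exact card_compat hG hN hM κ (mem_filter.1 hκ).2
    rw [sum_const, nsmul_eq_mul] at h1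
    have h2 : (Kp.card : ℝ) ≤ ((M : ℝ) * Fintype.card G + 1) ^ N := by
      have : Kp.card ≤ (M * Fintype.card G + 1) ^ N := by
        calc Kp.card ≤ Fintype.card (Fin N → Option (Fin M × G)) := card_le_univ _
          _ = (M * Fintype.card G + 1) ^ N := by
              rw [Fintype.card_fun, Fintype.card_option, Fintype.card_prod, Fintype.card_fin,
                Fintype.card_fin]
      exact_mod_cast this
    have h3 : Real.exp (-((D : ℝ) * N / (8 * M))) ≤
        (1 / (4 * ((M : ℝ) * Fintype.card G + 1))) ^ N := by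
      have e1 : -((D : ℝ) * N / (8 * M)) = N * (-(D / (8 * M))) := by ring
      rw [e1, Real.exp_nat_mul]
      apply pow_le_pow_left₀ (Real.exp_pos _).le
      rw [one_div, ← Real.exp_log (show 0 < 4 * ((M : ℝ) * Fintype.card G + 1) by positivity),
        ← Real.exp_neg]
      apply Real.exp_le_exp.2
      apply neg_le_neg
      rw [le_div_iff₀ (by positivity)]
      linarith
    have h4 : (0 : ℝ) < (M : ℝ) * Fintype.card G + 1 := by positivity
    calc (B2.card : ℝ) ≤ Kp.card * (T * Real.exp (-((D : ℝ) * N / (8 * M)))) := h1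
      _ ≤ ((M : ℝ) * Fintype.card G + 1) ^ N *
          (T * (1 / (4 * ((M : ℝ) * Fintype.card G + 1))) ^ N) := by gcongr
      _ = T * (1 / 4) ^ N := by
          rw [mul_left_comm, ← mul_pow]
          congr 2
          field_simp
      _ ≤ T * (1 / 4) ^ 1 := by
          apply mul_le_mul_of_nonneg_left _ hTpos.le
          exact pow_le_pow_of_le_one (by norm_num) (by norm_num) hN
      _ = T / 4 := by ring
  have hex : ∃ ω : Om G D N, ω ∉ B1 ∪ B2 := by
    by_contra hcon
    push Not at hcon
    have h1 : (univ : Finset (Om G D N)) ⊆ B1 ∪ B2 := fun ω _ => hcon ω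
    have h2 := card_le_card h1
    have h3 := card_union_le B1 B2
    rw [card_univ] at h2
    have h4 : T ≤ B1.card + B2.card := by
      rw [hT]
      exact_mod_cast h2.trans h3
    linarith
  obtain ⟨ω, hω⟩ := hex
  rw [mem_union, not_or] at hω
  refine ⟨ω, ?_, ?_⟩
  · by_contra hcon
    push Not at hcon
    exact hω.1 (mem_filter.2 ⟨mem_univ _, hcon⟩)
  · intro κ hκ
    by_contra hcon
    push Not at hcon
    exact hω.2 (mem_biUnion.2 ⟨κ, mem_filter.2 ⟨mem_univ _, hκ⟩, mem_filter.2 ⟨mem_univ _, hcon⟩⟩)

end Loops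

end Q151.XI
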