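import Mathlib
import Pool.Agent.Q151.XI.Choose

/-!
# Free `G`-graphs of bounded degree, locally tree-like, without consistent labellings
-/

set_option autoImplicit false

namespace Q151.XI

open Finset

variable {G : Type} [Group G]

/-- the action on `B × G` -/
def gs {B : Type} (g : G) (v : B × G) : B × G := (v.1, g * v.2)

lemma gs_one {B : Type} (v : B × G) : gs (1 : G) v = v := by
  simp [gs]

lemma gs_mul {B : Type} (g h : G) (v : B × G) : gs (g * h) v = gs g (gs h v) := by
  simp [gs, mul_assoc]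

/-- Non-backtracking walks of length at most `L` never return to the orbit of the start. -/
def NB {B : Type} (adj : B × G → B × G → Prop) (L : ℕ) : Prop :=
  ∀ l, 1 ≤ l → l ≤ L → ∀ z : ℕ → B × G, (∀ i < l, adj (z i) (z (i + 1))) →
    (∀ i, i + 2 ≤ l → z i ≠ z (i + 2)) → (z l).1 ≠ (z 0).1

/-- No consistent labelling with `M` colours. -/
def NoLab {B : Type} (adj : B × G → B × G → Prop) (M : ℕ) : Prop :=
  ∀ (c : B × G → Fin M) (h : B × G → G), (∀ g v, c (gs g v) = c v) →
    (∀ g v, h (gs g v) = g * h v) → ∃ u v, adj u v ∧ c u = c v ∧ h u ≠ h v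

section Build

variable [Fintype G] [DecidableEq G] {D N : ℕ} (L : ℕ) (ω : Om G D N)

/-- number of arcs into a vertex -/
def indeg (v : Fin N) : ℕ := (univ.filter fun k : Fin D × Fin N => (ω k).1 = v).card

/-- the good vertices -/
def Good : Type := {v : Fin N // v ∉ badSet L ω ∧ indeg ω v ≤ 8 * D}

/-- adjacency -/
def adjG (u v : Good L ω × G) : Prop :=
  (∃ i, ω (i, u.1.1) = (v.1.1, u.2⁻¹ * v.2)) ∨ (∃ i, ω (i, v.1.1) = (u.1.1, v.2⁻¹ * u.2))

lemma adjG_symm (u v : Good L ω × G) (h : adjG L ω u v) : adjG L ω v u := Or.symm h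

lemma adjG_gs (g : G) (u v : Good L ω × G) (h : adjG L ω u v) :
    adjG L ω (gs g u) (gs g v) := by
  rcases h with ⟨i, hi⟩ | ⟨i, hi⟩
  · left
    refine ⟨i, ?_⟩
    simp only [gs]
    rw [hi]
    congr 1
    group
  · right
    refine ⟨i, ?_⟩
    simp only [gs]
    rw [hi]
    congr 1
    group

lemma adjG_NB : NB (adjG L ω) L := by
  classical
  intro l hl1 hlL z hz hnb heq
  have hex : ∃ d, ∃ i, i + (d + 1) ≤ l ∧ (z i).1 = (z (i + (d + 1))).1 :=
    ⟨l - 1, 0, by omega, by rw [show 0 + (l - 1 + 1) = l by omega]; exact heq.symm⟩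
  set m := Nat.find hex with hm
  obtain ⟨i, hil, hi⟩ := Nat.find_spec hex
  rw [← hm] at hil hi
  have hmin : ∀ d, d < m → ∀ j, j + (d + 1) ≤ l → (z j).1 ≠ (z (j + (d + 1))).1 := by
    intro d hd j hj h
    exact Nat.find_min hex hd ⟨j, hj, h⟩
  let x : Fin (m + 1) → Fin N := fun t => (z (i + t.1)).1.1
  have hxinj : Function.Injective x := by
    intro s t hst
    have hst' : (z (i + s.1)).1 = (z (i + t.1)).1 := Subtype.ext hst
    by_contra hne
    rcases lt_or_gt_of_ne (fun h => hne (Fin.ext h) : s.1 ≠ t.1) with h | h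
    · have ht := t.2
      apply hmin (t.1 - s.1 - 1) (by omega) (i + s.1) (by omega)
      rw [hst']
      congr 2
      omega
    · have hs := s.2
      apply hmin (s.1 - t.1 - 1) (by omega) (i + t.1) (by omega)
      rw [← hst']
      congr 2
      omega
  have hnext : ∀ t : Fin (m + 1), (z (i + t.1 + 1)).1.1 = x (t + 1) := by
    intro t
    by_cases ht : t.1 = m
    · have h1 : t + 1 = 0 := by
        apply Fin.ext
        rw [Fin.val_add_one]
        rw [if_pos (Fin.ext ht)]
        rfl
      rw [h1]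
      simp only [x]
      rw [ht]
      have : (z (i + (m + 1))).1 = (z i).1 := hi.symm
      rw [show i + m + 1 = i + (m + 1) by ring, this]
      rfl
    · have h1 : (t + 1 : Fin (m + 1)).1 = t.1 + 1 := by
        rw [Fin.val_add_one, if_neg]
        intro h
        exact ht (by rw [h]; rfl)
      simp only [x, h1]
      rfl
  -- choose the arcs
  have hadj : ∀ t : Fin (m + 1), ∃ q : Fin D × Bool,
      (q.2 = true ∧ ω (q.1, (z (i + t.1)).1.1) =
        ((z (i + t.1 + 1)).1.1, (z (i + t.1)).2⁻¹ * (z (i + t.1 + 1)).2)) ∨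
      (q.2 = false ∧ ω (q.1, (z (i + t.1 + 1)).1.1) =
        ((z (i + t.1)).1.1, (z (i + t.1 + 1)).2⁻¹ * (z (i + t.1)).2)) := by
    intro t
    have ht := t.2
    rcases hz (i + t.1) (by omega) with ⟨q, hq⟩ | ⟨q, hq⟩
    · exact ⟨(q, true), Or.inl ⟨rfl, hq⟩⟩
    · exact ⟨(q, false), Or.inr ⟨rfl, hq⟩⟩
  choose k hk using hadj
  have hval : ∀ t, (ω (key x k t)).1 = hd x k t := by
    intro t
    rcases hk t with ⟨h1, h2⟩ | ⟨h1, h2⟩
    · simp only [key, hd, h1, if_true]
      change (ω ((k t).1, (z (i + t.1)).1.1)).1 = _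
      rw [h2, hnext]
    · simp only [key, hd, h1, Bool.false_eq_true, if_false]
      rw [← hnext, h2]
  have hloop : IsLoop ω x k := by
    refine ⟨?_, hval⟩
    intro s t hst
    by_contra hne
    have hhd : hd x k s = hd x k t := by rw [← hval, ← hval, hst]
    have hst1 : (k s).1 = (k t).1 := by
      have h := congrArg Prod.fst hst
      exact h
    have hst2 := congrArg Prod.snd hst
    -- the main case
    have main : ∀ s t : Fin (m + 1), s ≠ t → (k s).1 = (k t).1 → (k s).2 = true →
        (k t).2 = false → x s = x (t + 1) → x (s + 1) = x t → False := by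
      intro s t hne hst1 hs ht h1 h2
      have e1 : s = t + 1 := hxinj h1
      have e2 : s + 1 = t := hxinj h2
      have hm1 : m = 1 := by
        rw [e1] at e2
        have h3 : (1 : Fin (m + 1)) + 1 = 0 := by
          have : t + (1 + 1) = t + 0 := by rw [← add_assoc, e2, add_zero]
          exact add_left_cancel this
        by_contra hm1
        have hm0 : m ≠ 0 := by
          intro h0
          apply hne
          apply Fin.ext
          have a1 := s.2
          have a2 := t.2
          omega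
        have h4 : ((1 : Fin (m + 1)) + 1).1 = 2 % (m + 1) := by
          rw [Fin.val_add]
          have : (1 : Fin (m + 1)).1 = 1 := by
            have h6 : (1 : Fin (m + 1)).1 = 1 % (m + 1) := rfl
            rw [h6]
            exact Nat.mod_eq_of_lt (by omega)
          rw [this]
        rw [h3] at h4
        have h5 : 2 % (m + 1) = 2 := Nat.mod_eq_of_lt (by omega)
        rw [h5] at h4
        simp at h4
      have hcase : (s.1 = 0 ∧ t.1 = 1) ∨ (s.1 = 1 ∧ t.1 = 0) := by
        have a1 := s.2
        have a2 := t.2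
        have : s.1 ≠ t.1 := fun h => hne (Fin.ext h)
        omega
      have hks : ω ((k s).1, (z (i + s.1)).1.1) =
          ((z (i + s.1 + 1)).1.1, (z (i + s.1)).2⁻¹ * (z (i + s.1 + 1)).2) := by
        rcases hk s with ⟨_, h⟩ | ⟨h, _⟩
        · exact h
        · rw [hs] at h
          exact absurd h (by decide)
      have hkt : ω ((k t).1, (z (i + t.1 + 1)).1.1) =
          ((z (i + t.1)).1.1, (z (i + t.1 + 1)).2⁻¹ * (z (i + t.1)).2) := by
        rcases hk t with ⟨h, _⟩ | ⟨_, h⟩
        · rw [ht] at h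
          exact absurd h (by decide)
        · exact h
      have hend : (z i).1 = (z (i + 2)).1 := by
        rw [hm1] at hi
        exact hi
      have harg : (z (i + s.1)).1.1 = (z (i + t.1 + 1)).1.1 := by
        rw [hnext t]
        exact h1
      rw [hst1, harg, hkt] at hks
      have h3 := congrArg Prod.snd hks
      simp only at h3
      have hne2 := hnb i (by omega)
      apply hne2
      rcases hcase with ⟨hs0, ht1⟩ | ⟨hs1, ht0⟩
      · rw [hs0, ht1] at h3
        simp only [add_zero] at h3
        have h4 : (z (i + 1 + 1)).2⁻¹ = (z i).2⁻¹ := mul_right_cancel h3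
        have h5 : (z (i + 2)).2 = (z i).2 := inv_injective h4
        exact Prod.ext hend h5.symm
      · rw [hs1, ht0] at h3
        simp only [add_zero] at h3
        have h4 := mul_left_cancel h3
        exact Prod.ext hend h4
    rcases hs : (k s).2 with _ | _ <;> rcases ht : (k t).2 with _ | _
    · simp only [key, hs, ht, Bool.false_eq_true, if_false] at hst2
      exact hne (add_right_cancel (hxinj hst2))
    · simp only [key, hs, ht, Bool.false_eq_true, if_false, if_true] at hst2
      simp only [hd, hs, ht, Bool.false_eq_true, if_false, if_true] at hhd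
      exact main t s (Ne.symm hne) hst1.symm ht hs hst2.symm hhd.symm
    · simp only [key, hs, ht, Bool.false_eq_true, if_false, if_true] at hst2
      simp only [hd, hs, ht, Bool.false_eq_true, if_false, if_true] at hhd
      exact main s t hne hst1 hs ht hst2 hhd
    · simp only [key, hs, ht, if_true] at hst2
      exact hne (hxinj hst2)
  have hbad : x 0 ∈ badSet L ω := by
    unfold badSet
    rw [mem_filter]
    exact ⟨mem_univ _, m, by omega, x, k, hloop, rfl⟩
  exact (z (i + (0 : Fin (m + 1)).1)).1.2.1 hbad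

lemma adjG_noLab {M : ℕ} (hω : ∀ κ : Fin N → Option (Fin M × G),
    N ≤ 2 * (univ.filter fun x => κ x ≠ none).card → ∃ k, ω k ∉ allowed κ k.2)
    (hcard : N ≤ 2 * (univ.filter fun v : Fin N => v ∉ badSet L ω ∧ indeg ω v ≤ 8 * D).card) :
    NoLab (adjG L ω) M := by
  classical
  intro c h hc hh
  let κ : Fin N → Option (Fin M × G) := fun x =>
    if hx : x ∉ badSet L ω ∧ indeg ω x ≤ 8 * D then
      some (c (⟨x, hx⟩, 1), h (⟨x, hx⟩, 1)) else none
  have hκ : ∀ x, κ x ≠ none ↔ (x ∉ badSet L ω ∧ indeg ω x ≤ 8 * D) := by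
    intro x
    by_cases hx : x ∉ badSet L ω ∧ indeg ω x ≤ 8 * D
    · simp only [κ, dif_pos hx]
      exact ⟨fun _ => hx, fun _ => Option.some_ne_none _⟩
    · simp only [κ, dif_neg hx]
      exact ⟨fun h => absurd rfl h, fun h => absurd h hx⟩
  have e0 : (univ.filter fun x => κ x ≠ none) =
      univ.filter fun v : Fin N => v ∉ badSet L ω ∧ indeg ω v ≤ 8 * D := by
    ext x
    rw [mem_filter, mem_filter, hκ x]
  obtain ⟨⟨i, x⟩, hk⟩ := hω κ (by convert hcard using 3)
  simp only [allowed, mem_filter, mem_univ, true_and, not_forall] at hk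
  obtain ⟨c0, h0, hx0, h1, hy0, hne⟩ := hk
  have hxg : x ∉ badSet L ω ∧ indeg ω x ≤ 8 * D := (hκ x).1 (by rw [hx0]; exact Option.some_ne_none _)
  have hyg : (ω (i, x)).1 ∉ badSet L ω ∧ indeg ω (ω (i, x)).1 ≤ 8 * D :=
    (hκ _).1 (by rw [hy0]; exact Option.some_ne_none _)
  have ex : κ x = some (c (⟨x, hxg⟩, 1), h (⟨x, hxg⟩, 1)) := dif_pos hxg
  have ey : κ (ω (i, x)).1 = some (c (⟨(ω (i, x)).1, hyg⟩, 1), h (⟨(ω (i, x)).1, hyg⟩, 1)) :=
    dif_pos hyg
  rw [ex, Option.some.injEq, Prod.mk.injEq] at hx0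
  rw [ey, Option.some.injEq, Prod.mk.injEq] at hy0
  refine ⟨(⟨x, hxg⟩, 1), gs (ω (i, x)).2 (⟨(ω (i, x)).1, hyg⟩, 1), ?_, ?_, ?_⟩
  · left
    refine ⟨i, ?_⟩
    simp only [gs]
    rw [inv_one, one_mul, mul_one]
  · rw [hc, hx0.1, hy0.1]
  · rw [hh, hx0.2, hy0.2]
    exact hne

omit [Fintype G] [DecidableEq G] in
lemma adjG_deg [Finite G] (hD : 0 < D) (u : Good L ω × G) :
    ∃ S : Finset (Good L ω × G), S.card ≤ 9 * D ∧ ∀ v, adjG L ω u v → v ∈ S := by
  classical
  have : Finite (Good L ω) := Subtype.finite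
  have : Nonempty (Fin D) := ⟨⟨0, hD⟩⟩
  letI : Fintype (Good L ω × G) := Fintype.ofFinite _
  refine ⟨univ.filter fun v => adjG L ω u v, ?_, fun v hv => by
    rw [mem_filter]; exact ⟨mem_univ _, hv⟩⟩
  set S1 : Finset (Good L ω × G) := univ.filter fun v =>
    ∃ i, ω (i, u.1.1) = (v.1.1, u.2⁻¹ * v.2) with hS1
  set S2 : Finset (Good L ω × G) := univ.filter fun v =>
    ∃ i, ω (i, v.1.1) = (u.1.1, v.2⁻¹ * u.2) with hS2
  have h0 : (univ.filter fun v => adjG L ω u v) = S1 ∪ S2 := by
    ext v
    rw [mem_union, hS1, hS2, mem_filter, mem_filter, mem_filter]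
    simp only [mem_univ, true_and]
    rfl
  have h1 : S1.card ≤ D := by
    have hex : ∀ v ∈ S1, ∃ i, ω (i, u.1.1) = (v.1.1, u.2⁻¹ * v.2) := fun v hv =>
      (mem_filter.1 hv).2
    choose! f hf using hex
    calc S1.card ≤ (univ : Finset (Fin D)).card := by
          apply card_le_card_of_injOn f (fun v _ => mem_coe.2 (mem_univ _))
          intro v hv w hw hvw
          have e1 := hf v hv
          have e2 := hf w hw
          rw [hvw, e2] at e1
          simp only [Prod.mk.injEq] at e1
          exact Prod.ext (Subtype.ext e1.1.symm) (mul_left_cancel e1.2).symm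
      _ = D := by rw [card_univ, Fintype.card_fin]
  have h2 : S2.card ≤ 8 * D := by
    have hex : ∀ v ∈ S2, ∃ i, ω (i, v.1.1) = (u.1.1, v.2⁻¹ * u.2) := fun v hv =>
      (mem_filter.1 hv).2
    choose! f hf using hex
    calc S2.card ≤ (univ.filter fun k : Fin D × Fin N => (ω k).1 = u.1.1).card := by
          apply card_le_card_of_injOn (fun v => (f v, v.1.1))
          · intro v hv
            rw [mem_coe, mem_filter]
            refine ⟨mem_univ _, ?_⟩
            rw [hf v hv]
          · intro v hv w hw hvw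
            simp only [Prod.mk.injEq] at hvw
            have e1 := hf v hv
            have e2 := hf w hw
            rw [hvw.1, hvw.2, e2] at e1
            simp only [Prod.mk.injEq] at e1
            have e3 := mul_right_cancel e1.2
            exact Prod.ext (Subtype.ext hvw.2) (inv_injective e3).symm
      _ ≤ 8 * D := u.1.2.2
  rw [h0]
  calc (S1 ∪ S2).card ≤ S1.card + S2.card := card_union_le _ _
    _ ≤ 9 * D := by omega

lemma card_indeg (hD : 0 < D) :
    8 * (univ.filter fun v : Fin N => ¬ indeg ω v ≤ 8 * D).card ≤ N := by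
  classical
  have h1 : ∑ v : Fin N, indeg ω v = D * N := by
    unfold indeg
    have := card_eq_sum_card_fiberwise (s := (univ : Finset (Fin D × Fin N)))
      (t := (univ : Finset (Fin N))) (f := fun k => (ω k).1) (fun k _ => mem_coe.2 (mem_univ _))
    rw [← this, card_univ, Fintype.card_prod, Fintype.card_fin, Fintype.card_fin]
  have h2 : (univ.filter fun v : Fin N => ¬ indeg ω v ≤ 8 * D).card * (8 * D) ≤ D * N := by
    calc (univ.filter fun v : Fin N => ¬ indeg ω v ≤ 8 * D).card * (8 * D)
        = ∑ _v ∈ univ.filter (fun v : Fin N => ¬ indeg ω v ≤ 8 * D), (8 * D) := by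
          rw [sum_const, smul_eq_mul]
      _ ≤ ∑ v ∈ univ.filter (fun v : Fin N => ¬ indeg ω v ≤ 8 * D), indeg ω v := by
          apply sum_le_sum
          intro v hv
          have := (mem_filter.1 hv).2
          omega
      _ ≤ ∑ v : Fin N, indeg ω v := sum_le_sum_of_subset (subset_univ _)
      _ = D * N := h1
  have h3 : D * (8 * (univ.filter fun v : Fin N => ¬ indeg ω v ≤ 8 * D).card) ≤ D * N := by
    calc _ = (univ.filter fun v : Fin N => ¬ indeg ω v ≤ 8 * D).card * (8 * D) := by ring
      _ ≤ D * N := h2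
  exact Nat.le_of_mul_le_mul_left h3 hD

end Build

/-- The existence theorem: for every number `M` of colours there is a degree bound `Δ` such that for
every `L` there is a finite free `G`-graph of degree at most `Δ` on `B × G` in which non-backtracking
walks of length at most `L` do not return to their orbit, and in which there is no consistent
labelling with `M` colours. -/
theorem exists_cover (G : Type) [Group G] [Finite G] (hG : 2 ≤ Nat.card G) (M : ℕ) (hM : 0 < M) :
    ∃ Δ : ℕ, ∀ L : ℕ, ∃ (B : Type) (_ : Finite B) (adj : B × G → B × G → Prop),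
      Nonempty B ∧
      (∀ u v, adj u v → adj v u) ∧ (∀ g u v, adj u v → adj (gs g u) (gs g v)) ∧
      NB adj L ∧ NoLab adj M ∧
      ∀ u, ∃ S : Finset (B × G), S.card ≤ Δ ∧ ∀ v, adj u v → v ∈ S := by
  classical
  haveI : Fintype G := Fintype.ofFinite G
  rw [Nat.card_eq_fintype_card] at hG
  obtain ⟨D, hD, h⟩ := exists_good (G := G) hG M hM
  refine ⟨9 * D, fun L => ?_⟩
  obtain ⟨C, hC⟩ := h L
  obtain ⟨ω, hω1, hω2⟩ := hC (8 * C + 8) (by omega)
  have hcard : 8 * C + 8 ≤ 2 * (univ.filter fun v : Fin (8 * C + 8) =>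
      v ∉ badSet L ω ∧ indeg ω v ≤ 8 * D).card := by
    have h1 := card_indeg ω hD
    have h2 : (univ : Finset (Fin (8 * C + 8))) ⊆ (univ.filter fun v : Fin (8 * C + 8) =>
        v ∉ badSet L ω ∧ indeg ω v ≤ 8 * D) ∪ (badSet L ω ∪
          (univ.filter fun v : Fin (8 * C + 8) => ¬ indeg ω v ≤ 8 * D)) := by
      intro v _
      rw [mem_union, mem_union, mem_filter, mem_filter]
      by_cases a : v ∈ badSet L ω
      · exact Or.inr (Or.inl a)
      · by_cases b : indeg ω v ≤ 8 * D
        · exact Or.inl ⟨mem_univ _, a, b⟩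
        · exact Or.inr (Or.inr ⟨mem_univ _, b⟩)
    have h3 := card_le_card h2
    have h4 := card_union_le (univ.filter fun v : Fin (8 * C + 8) =>
        v ∉ badSet L ω ∧ indeg ω v ≤ 8 * D) (badSet L ω ∪
          (univ.filter fun v : Fin (8 * C + 8) => ¬ indeg ω v ≤ 8 * D))
    have h5 := card_union_le (badSet L ω)
          (univ.filter fun v : Fin (8 * C + 8) => ¬ indeg ω v ≤ 8 * D)
    rw [card_univ, Fintype.card_fin] at h3
    omega
  refine ⟨Good L ω, Subtype.finite, adjG L ω, ?_, adjG_symm L ω, adjG_gs L ω, adjG_NB L ω,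
    adjG_noLab L ω hω2 hcard, fun u => adjG_deg L ω hD u⟩
  have hpos : 0 < (univ.filter fun v : Fin (8 * C + 8) =>
      v ∉ badSet L ω ∧ indeg ω v ≤ 8 * D).card := by omega
  obtain ⟨v, hv⟩ := card_pos.1 hpos
  exact ⟨⟨v, (mem_filter.1 hv).2⟩⟩

end Q151.XI
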