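import Mathlib
import Pool.Agent.Q151.XI.Cover

/-!
# Truncated distances in a locally tree-like free `G`-graph
-/

set_option autoImplicit false

namespace Q151.XI

open Finset

variable {G : Type} [Group G] {B : Type} {adj : B × G → B × G → Prop}

/-- there is a walk of length `n` -/
def Wk (adj : B × G → B × G → Prop) (n : ℕ) (u v : B × G) : Prop :=
  ∃ z : ℕ → B × G, z 0 = u ∧ z n = v ∧ ∀ i < n, adj (z i) (z (i + 1))

lemma Wk.refl (u : B × G) : Wk adj 0 u u := ⟨fun _ => u, rfl, rfl, fun i hi => absurd hi (by omega)⟩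

lemma Wk.zero {u v : B × G} (h : Wk adj 0 u v) : u = v := by
  obtain ⟨z, h0, h1, -⟩ := h
  rw [← h0, ← h1]

lemma Wk.trans {n m : ℕ} {u v w : B × G} (h : Wk adj n u v) (h' : Wk adj m v w) :
    Wk adj (n + m) u w := by
  obtain ⟨z, hz0, hzn, hz⟩ := h
  obtain ⟨y, hy0, hym, hy⟩ := h'
  refine ⟨fun i => if i ≤ n then z i else y (i - n), ?_, ?_, ?_⟩
  · simp only [Nat.zero_le, if_true, hz0]
  · simp only
    by_cases hm : m = 0
    · subst hm
      rw [if_pos (by omega)]
      rw [Nat.add_zero, hzn, ← hy0, hym]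
    · rw [if_neg (by omega)]
      rw [show n + m - n = m by omega, hym]
  · intro i hi
    simp only
    by_cases h1 : i + 1 ≤ n
    · rw [if_pos (by omega), if_pos h1]
      exact hz i (by omega)
    · by_cases h2 : i ≤ n
      · have : i = n := by omega
        subst this
        rw [if_pos le_rfl, if_neg h1]
        rw [show i + 1 - i = 0 + 1 by omega, hzn, ← hy0]
        exact hy 0 (by omega)
      · rw [if_neg h2, if_neg h1]
        rw [show i + 1 - n = (i - n) + 1 by omega]
        exact hy (i - n) (by omega)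

lemma Wk.symm (hs : ∀ u v, adj u v → adj v u) {n : ℕ} {u v : B × G} (h : Wk adj n u v) :
    Wk adj n v u := by
  obtain ⟨z, hz0, hzn, hz⟩ := h
  refine ⟨fun i => z (n - i), ?_, ?_, ?_⟩
  · simp only [Nat.sub_zero, hzn]
  · simp only [Nat.sub_self, hz0]
  · intro i hi
    have := hz (n - (i + 1)) (by omega)
    rw [show n - (i + 1) + 1 = n - i by omega] at this
    exact hs _ _ this

lemma Wk.step {u v : B × G} (h : adj u v) : Wk adj 1 u v := by
  refine ⟨fun i => if i = 0 then u else v, by simp, by simp, ?_⟩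
  intro i hi
  have : i = 0 := by omega
  subst this
  simpa using h

lemma Wk.gs (hg : ∀ g u v, adj u v → adj (gs g u) (gs g v)) (g : G) {n : ℕ} {u v : B × G}
    (h : Wk adj n u v) : Wk adj n (gs g u) (gs g v) := by
  obtain ⟨z, hz0, hzn, hz⟩ := h
  exact ⟨fun i => Q151.XI.gs g (z i), by simp only [hz0], by simp only [hzn],
    fun i hi => hg g _ _ (hz i hi)⟩

open Classical in
/-- the distance truncated at `R` -/
noncomputable def dd (adj : B × G → B × G → Prop) (R : ℕ) (u v : B × G) : ℕ :=
  Nat.find (p := fun n => Wk adj n u v ∨ n = R) ⟨R, Or.inr rfl⟩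

variable {R : ℕ}

lemma dd_le (u v : B × G) : dd adj R u v ≤ R := by
  classical
  exact Nat.find_min' _ (Or.inr rfl)

lemma dd_le_of_wk {n : ℕ} {u v : B × G} (h : Wk adj n u v) : dd adj R u v ≤ n := by
  classical
  exact Nat.find_min' _ (Or.inl h)

lemma wk_of_dd_lt {u v : B × G} (h : dd adj R u v < R) : Wk adj (dd adj R u v) u v := by
  classical
  rcases Nat.find_spec (p := fun n => Wk adj n u v ∨ n = R) ⟨R, Or.inr rfl⟩ with h1 | h1
  · exact h1
  · exact absurd h1 (ne_of_lt h)

lemma dd_self (u : B × G) : dd adj R u u = 0 := Nat.le_zero.1 (dd_le_of_wk (Wk.refl u))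

lemma eq_of_dd_zero (hR : 0 < R) {u v : B × G} (h : dd adj R u v = 0) : u = v := by
  have := wk_of_dd_lt (adj := adj) (R := R) (u := u) (v := v) (by omega)
  rw [h] at this
  exact this.zero

lemma dd_symm (hs : ∀ u v, adj u v → adj v u) (u v : B × G) : dd adj R u v = dd adj R v u := by
  have key : ∀ u v : B × G, dd adj R u v ≤ dd adj R v u := by
    intro u v
    rcases lt_or_ge (dd adj R v u) R with h | h
    · exact dd_le_of_wk ((wk_of_dd_lt h).symm hs)
    · exact (dd_le u v).trans h
  exact le_antisymm (key u v) (key v u)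

lemma dd_tri (u v w : B × G) : dd adj R u w ≤ dd adj R u v + dd adj R v w := by
  rcases lt_or_ge (dd adj R u v) R with h | h
  · rcases lt_or_ge (dd adj R v w) R with h' | h'
    · exact dd_le_of_wk ((wk_of_dd_lt h).trans (wk_of_dd_lt h'))
    · have := dd_le (adj := adj) (R := R) u w
      omega
  · have := dd_le (adj := adj) (R := R) u w
    omega

lemma dd_gs (hg : ∀ g u v, adj u v → adj (gs g u) (gs g v)) (g : G) (u v : B × G) :
    dd adj R (gs g u) (gs g v) = dd adj R u v := by
  have key : ∀ (g : G) (u v : B × G), dd adj R (gs g u) (gs g v) ≤ dd adj R u v := by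
    intro g u v
    rcases lt_or_ge (dd adj R u v) R with h | h
    · exact dd_le_of_wk ((wk_of_dd_lt h).gs hg g)
    · exact (dd_le _ _).trans h
  refine le_antisymm (key g u v) ?_
  have := key g⁻¹ (gs g u) (gs g v)
  rwa [← gs_mul, ← gs_mul, inv_mul_cancel, gs_one, gs_one] at this

lemma dd_adj {u v : B × G} (h : adj u v) : dd adj R u v ≤ 1 := dd_le_of_wk (Wk.step h)

/-- A shortest walk does not backtrack. -/
lemma shortest_nb {u v : B × G} {z : ℕ → B × G} (hz0 : z 0 = u)
    (hzn : z (dd adj R u v) = v) (hz : ∀ i < dd adj R u v, adj (z i) (z (i + 1))) :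
    ∀ i, i + 2 ≤ dd adj R u v → z i ≠ z (i + 2) := by
  intro i hi h
  have h1 : Wk adj i u (z i) := ⟨z, hz0, rfl, fun j hj => hz j (by omega)⟩
  have h2 : Wk adj (dd adj R u v - (i + 2)) (z i) v := by
    refine ⟨fun j => z (i + 2 + j), ?_, ?_, ?_⟩
    · simp only [Nat.add_zero]
      exact h.symm
    · simp only
      rw [show i + 2 + (dd adj R u v - (i + 2)) = dd adj R u v by omega]
      exact hzn
    · intro j hj
      have := hz (i + 2 + j) (by omega)
      rwa [show i + 2 + j + 1 = i + 2 + (j + 1) by ring] at this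
  have := dd_le_of_wk (R := R) (h1.trans h2)
  omega

/-- Displacement: two points of one orbit at distance less than `R` coincide. -/
lemma eq_of_fst (L : ℕ) (hNB : NB adj L) (hRL : R ≤ L) {u v : B × G} (h : dd adj R u v < R)
    (huv : u.1 = v.1) : u = v := by
  obtain ⟨z, hz0, hzn, hz⟩ := wk_of_dd_lt h
  rcases Nat.eq_zero_or_pos (dd adj R u v) with h0 | h0
  · exact eq_of_dd_zero (by omega) h0
  · exfalso
    refine hNB (dd adj R u v) h0 (by omega) z hz (shortest_nb hz0 hzn hz) ?_
    rw [hzn, hz0, huv]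

/-- The closed walk `x → u → v → u' → x`. -/
lemma no_two_closer (hs : ∀ u v, adj u v → adj v u) (L : ℕ) (hNB : NB adj L)
    (hRL : 2 * R + 2 ≤ L) {x v u u' : B × G}
    (hv : dd adj R x v < R) (hu : adj v u) (hu' : adj v u') (hne : u ≠ u')
    (h : dd adj R x u ≤ dd adj R x v) (h' : dd adj R x u' ≤ dd adj R x v) : False := by
  obtain ⟨p, hp0, hpn, hp⟩ := wk_of_dd_lt (lt_of_le_of_lt h hv)
  obtain ⟨q, hq0, hqn, hq⟩ := wk_of_dd_lt (lt_of_le_of_lt h' hv)
  set k := dd adj R x u with hk
  set l := dd adj R x u' with hl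
  -- the last step of `p` does not come from `v`
  have hpv : ∀ i, i + 1 = k → p i ≠ v := by
    intro i hi hpi
    have : Wk adj i x v := ⟨p, hp0, hpi, fun j hj => hp j (by omega)⟩
    have := dd_le_of_wk (R := R) this
    omega
  have hqv : ∀ i, i + 1 = l → q i ≠ v := by
    intro i hi hqi
    have : Wk adj i x v := ⟨q, hq0, hqi, fun j hj => hq j (by omega)⟩
    have := dd_le_of_wk (R := R) this
    omega
  have hpnb := shortest_nb hp0 hpn hp
  have hqnb := shortest_nb hq0 hqn hq
  let z : ℕ → B × G := fun i => if i ≤ k then p i else if i = k + 1 then v else q (k + l + 2 - i)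
  have z1 : ∀ i, i ≤ k → z i = p i := fun i hi => if_pos hi
  have z2 : z (k + 1) = v := by
    simp only [z]
    rw [if_neg (by omega), if_pos trivial]
  have z3 : ∀ i, k + 2 ≤ i → z i = q (k + l + 2 - i) := by
    intro i hi
    simp only [z]
    rw [if_neg (by omega), if_neg (by omega)]
  refine hNB (k + l + 2) (by omega) (by omega) z ?_ ?_ ?_
  · intro i hi
    rcases lt_trichotomy i k with h1 | h1 | h1
    · rw [z1 i h1.le, z1 (i + 1) (by omega)]
      exact hp i h1
    · subst h1
      rw [z1 _ le_rfl, z2, hpn]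
      exact hs _ _ hu
    · rcases Nat.lt_or_ge i (k + 2) with h2 | h2
      · have : i = k + 1 := by omega
        subst this
        rw [z2, z3 _ (by omega)]
        rw [show k + l + 2 - (k + 1 + 1) = l by omega, hqn]
        exact hu'
      · rw [z3 i h2, z3 (i + 1) (by omega)]
        have := hq (k + l + 2 - (i + 1)) (by omega)
        rw [show k + l + 2 - (i + 1) + 1 = k + l + 2 - i by omega] at this
        exact hs _ _ this
  · intro i hi
    rcases Nat.lt_or_ge (i + 2) (k + 1) with h1 | h1
    · rw [z1 i (by omega), z1 (i + 2) (by omega)]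
      exact hpnb i (by omega)
    · rcases Nat.lt_or_ge (i + 2) (k + 2) with h2 | h2
      · have : i + 2 = k + 1 := by omega
        rw [z1 i (by omega), this, z2]
        exact hpv i (by omega)
      · rcases Nat.lt_or_ge (i + 2) (k + 3) with h3 | h3
        · have : i = k := by omega
          subst this
          rw [z1 _ le_rfl, z3 _ (by omega), hpn, show k + l + 2 - (k + 2) = l by omega, hqn]
          exact hne
        · rcases Nat.lt_or_ge (i + 2) (k + 4) with h4 | h4
          · have : i = k + 1 := by omega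
            subst this
            rw [z2, z3 _ (by omega)]
            intro hv
            exact hqv (k + l + 2 - (k + 1 + 2)) (by omega) hv.symm
          · rw [z3 i (by omega), z3 (i + 2) (by omega)]
            intro hh
            have := hqnb (k + l + 2 - (i + 2)) (by omega)
            rw [show k + l + 2 - (i + 2) + 2 = k + l + 2 - i by omega] at this
            exact this hh.symm
  · rw [z3 (k + l + 2) (by omega), z1 0 (by omega), hp0]
    rw [show k + l + 2 - (k + l + 2) = 0 by omega, hq0]

/-- Adjacent vertices are not at the same distance. -/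
lemma no_equal (hs : ∀ u v, adj u v → adj v u) (L : ℕ) (hNB : NB adj L)
    (hRL : 2 * R + 2 ≤ L) {x v u : B × G}
    (hv : dd adj R x v < R) (hu : adj v u) (h : dd adj R x u = dd adj R x v) : False := by
  obtain ⟨p, hp0, hpn, hp⟩ := wk_of_dd_lt (lt_of_le_of_lt h.le hv)
  obtain ⟨q, hq0, hqn, hq⟩ := wk_of_dd_lt hv
  set k := dd adj R x u with hk
  set l := dd adj R x v with hl
  have hpv : ∀ i, i + 1 = k → p i ≠ v := by
    intro i hi hpi
    have : Wk adj i x v := ⟨p, hp0, hpi, fun j hj => hp j (by omega)⟩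
    have := dd_le_of_wk (R := R) this
    omega
  have hqv : ∀ i, i + 1 = l → q i ≠ u := by
    intro i hi hqi
    have : Wk adj i x u := ⟨q, hq0, hqi, fun j hj => hq j (by omega)⟩
    have := dd_le_of_wk (R := R) this
    omega
  have hpnb := shortest_nb hp0 hpn hp
  have hqnb := shortest_nb hq0 hqn hq
  let z : ℕ → B × G := fun i => if i ≤ k then p i else q (k + l + 1 - i)
  have z1 : ∀ i, i ≤ k → z i = p i := fun i hi => if_pos hi
  have z3 : ∀ i, k + 1 ≤ i → z i = q (k + l + 1 - i) := by
    intro i hi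
    simp only [z]
    rw [if_neg (by omega)]
  refine hNB (k + l + 1) (by omega) (by omega) z ?_ ?_ ?_
  · intro i hi
    rcases lt_trichotomy i k with h1 | h1 | h1
    · rw [z1 i h1.le, z1 (i + 1) (by omega)]
      exact hp i h1
    · subst h1
      rw [z1 _ le_rfl, z3 _ (by omega), hpn, show k + l + 1 - (k + 1) = l by omega, hqn]
      exact hs _ _ hu
    · rw [z3 i h1, z3 (i + 1) (by omega)]
      have := hq (k + l + 1 - (i + 1)) (by omega)
      rw [show k + l + 1 - (i + 1) + 1 = k + l + 1 - i by omega] at this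
      exact hs _ _ this
  · intro i hi
    rcases Nat.lt_or_ge (i + 2) (k + 1) with h1 | h1
    · rw [z1 i (by omega), z1 (i + 2) (by omega)]
      exact hpnb i (by omega)
    · rcases Nat.lt_or_ge (i + 2) (k + 2) with h2 | h2
      · have : i + 2 = k + 1 := by omega
        rw [z1 i (by omega), this, z3 _ le_rfl, show k + l + 1 - (k + 1) = l by omega, hqn]
        exact hpv i (by omega)
      · rcases Nat.lt_or_ge (i + 2) (k + 3) with h3 | h3
        · have : i = k := by omega
          subst this
          rw [z1 _ le_rfl, z3 _ (by omega), hpn]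
          intro hv
          exact hqv (k + l + 1 - (k + 2)) (by omega) hv.symm
        · rw [z3 i (by omega), z3 (i + 2) (by omega)]
          intro hh
          have := hqnb (k + l + 1 - (i + 2)) (by omega)
          rw [show k + l + 1 - (i + 2) + 2 = k + l + 1 - i by omega] at this
          exact this hh.symm
  · rw [z3 (k + l + 1) (by omega), z1 0 (by omega), hp0]
    rw [show k + l + 1 - (k + l + 1) = 0 by omega, hq0]

/-- Discrete convexity of the squared distance. -/
lemma sq_convex (hs : ∀ u v, adj u v → adj v u) (L : ℕ) (hNB : NB adj L)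
    (hRL : 2 * R + 2 ≤ L) {x v u u' : B × G}
    (hv : dd adj R x v + 1 < R) (hu : adj v u) (hu' : adj v u') (hne : u ≠ u') :
    2 * (dd adj R x v : ℝ) ^ 2 + 2 ≤ (dd adj R x u : ℝ) ^ 2 + (dd adj R x u' : ℝ) ^ 2 := by
  have a1 := dd_tri (R := R) x v u (adj := adj)
  have a2 := dd_adj (R := R) hu
  have b1 := dd_tri (R := R) x v u' (adj := adj)
  have b2 := dd_adj (R := R) hu'
  have a3 := dd_tri (R := R) x u v (adj := adj)
  have a4 := dd_adj (R := R) (hs _ _ hu)
  have b3 := dd_tri (R := R) x u' v (adj := adj)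
  have b4 := dd_adj (R := R) (hs _ _ hu')
  have a5 : dd adj R x u ≠ dd adj R x v := fun h =>
    no_equal hs L hNB hRL (by omega) hu h
  have b5 : dd adj R x u' ≠ dd adj R x v := fun h =>
    no_equal hs L hNB hRL (by omega) hu' h
  have c : ¬ (dd adj R x u ≤ dd adj R x v ∧ dd adj R x u' ≤ dd adj R x v) := fun h =>
    no_two_closer hs L hNB hRL (by omega) hu hu' hne h.1 h.2
  have d : (dd adj R x u = dd adj R x v + 1 ∧ dd adj R x u' = dd adj R x v + 1) ∨
      (dd adj R x u + 1 = dd adj R x v ∧ dd adj R x u' = dd adj R x v + 1) ∨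
      (dd adj R x u = dd adj R x v + 1 ∧ dd adj R x u' + 1 = dd adj R x v) := by omega
  rcases d with ⟨d1, d2⟩ | ⟨d1, d2⟩ | ⟨d1, d2⟩
  · rw [d1, d2]
    push_cast
    have : (0 : ℝ) ≤ dd adj R x v := Nat.cast_nonneg _
    nlinarith
  · have e : (dd adj R x v : ℝ) = dd adj R x u + 1 := by rw [← d1]; push_cast; ring
    rw [d2]
    push_cast
    rw [e]
    nlinarith
  · have e : (dd adj R x v : ℝ) = dd adj R x u' + 1 := by rw [← d2]; push_cast; ring
    rw [d1]
    push_cast
    rw [e]
    nlinarith

end Q151.XI
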