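import Mathlib
import Pool.Agent.Q151.XI.Dist

/-!
# Barycentres of concentrated measures on a locally tree-like graph
-/

set_option autoImplicit false

namespace Q151.XI

open Finset

variable {G : Type} [Group G] {B : Type} {adj : B × G → B × G → Prop}

/-- the truncation used for the radius `r` -/
def RR (r : ℕ) : ℕ := 6 * r + 10

section

variable [Fintype B] [Fintype G]

/-- the energy -/
noncomputable def FF (adj : B × G → B × G → Prop) (r : ℕ) (w : B × G → ℝ) (u : B × G) : ℝ :=
  ∑ y, w y * (dd adj (RR r) y u : ℝ) ^ 2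

/-- a probability measure whose support has diameter at most `r` -/
structure PM (adj : B × G → B × G → Prop) (r : ℕ) (w : B × G → ℝ) : Prop where
  nonneg : ∀ u, 0 ≤ w u
  sum_one : ∑ u, w u = 1
  diam : ∀ u v, w u ≠ 0 → w v ≠ 0 → dd adj (RR r) u v ≤ r

/-- the threshold -/
def KK (r : ℕ) : ℝ := ((r : ℝ) + 2) ^ 2

variable {r L : ℕ} {w : B × G → ℝ}

lemma exists_low (hw : PM adj r w) : ∃ u, FF adj r w u ≤ (r : ℝ) ^ 2 := by
  obtain ⟨u, -, hu⟩ : ∃ u ∈ (univ : Finset (B × G)), w u ≠ 0 :=
    exists_ne_zero_of_sum_ne_zero (by rw [hw.sum_one]; exact one_ne_zero)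
  refine ⟨u, ?_⟩
  calc FF adj r w u ≤ ∑ y, w y * (r : ℝ) ^ 2 := by
        unfold FF
        apply sum_le_sum
        intro y _
        by_cases hy : w y = 0
        · rw [hy, zero_mul, zero_mul]
        · apply mul_le_mul_of_nonneg_left _ (hw.nonneg y)
          have := hw.diam y u hy hu
          have h' : (dd adj (RR r) y u : ℝ) ≤ r := by exact_mod_cast this
          gcongr
    _ = (r : ℝ) ^ 2 := by rw [← sum_mul, hw.sum_one, one_mul]

lemma near_of_low (hw : PM adj r w) {u : B × G} (hu : FF adj r w u < KK r) :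
    ∀ y, w y ≠ 0 → dd adj (RR r) y u ≤ 2 * r + 1 := by
  obtain ⟨y0, hy0, hd0⟩ : ∃ y, w y ≠ 0 ∧ dd adj (RR r) y u < r + 2 := by
    by_contra hcon
    push Not at hcon
    have : KK r ≤ FF adj r w u := by
      calc KK r = ∑ y, w y * ((r : ℝ) + 2) ^ 2 := by
            rw [← sum_mul, hw.sum_one, one_mul]
            rfl
        _ ≤ FF adj r w u := by
            unfold FF
            apply sum_le_sum
            intro y _
            by_cases hy : w y = 0
            · rw [hy, zero_mul, zero_mul]
            · apply mul_le_mul_of_nonneg_left _ (hw.nonneg y)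
              have h1 := hcon y hy
              have h' : (r : ℝ) + 2 ≤ dd adj (RR r) y u := by exact_mod_cast h1
              gcongr
    linarith
  intro y hy
  have h1 := dd_tri (adj := adj) (R := RR r) y y0 u
  have h2 := hw.diam y y0 hy hy0
  omega

lemma convex_F (hs : ∀ u v, adj u v → adj v u) (hNB : NB adj L) (hL : 2 * RR r + 2 ≤ L)
    (hw : PM adj r w) {v u u' : B × G} (hnear : ∀ y, w y ≠ 0 → dd adj (RR r) y v + 1 < RR r)
    (hu : adj v u) (hu' : adj v u') (hne : u ≠ u') :
    2 * FF adj r w v + 2 ≤ FF adj r w u + FF adj r w u' := by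
  have h1 : ∑ y, w y * (2 * (dd adj (RR r) y v : ℝ) ^ 2 + 2) ≤
      ∑ y, w y * ((dd adj (RR r) y u : ℝ) ^ 2 + (dd adj (RR r) y u' : ℝ) ^ 2) := by
    apply sum_le_sum
    intro y _
    by_cases hy : w y = 0
    · rw [hy, zero_mul, zero_mul]
    · apply mul_le_mul_of_nonneg_left _ (hw.nonneg y)
      exact sq_convex hs L hNB hL (hnear y hy) hu hu' hne
  have h2 : ∑ y, w y * (2 * (dd adj (RR r) y v : ℝ) ^ 2 + 2) = 2 * FF adj r w v + 2 := by
    calc ∑ y, w y * (2 * (dd adj (RR r) y v : ℝ) ^ 2 + 2)
        = ∑ y, (2 * (w y * (dd adj (RR r) y v : ℝ) ^ 2) + w y * 2) := by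
          apply sum_congr rfl
          intro y _
          ring
      _ = 2 * FF adj r w v + 2 := by
          rw [sum_add_distrib, ← mul_sum, ← sum_mul, hw.sum_one, one_mul]
          rfl
  have h3 : ∑ y, w y * ((dd adj (RR r) y u : ℝ) ^ 2 + (dd adj (RR r) y u' : ℝ) ^ 2) =
      FF adj r w u + FF adj r w u' := by
    unfold FF
    rw [← sum_add_distrib]
    apply sum_congr rfl
    intro y _
    ring
  linarith

/-- convexity along a non-backtracking walk -/
lemma convex_walk (hs : ∀ u v, adj u v → adj v u) (hNB : NB adj L) (hL : 2 * RR r + 2 ≤ L)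
    (hw : PM adj r w) (n : ℕ) (z : ℕ → B × G) (hz : ∀ i < n, adj (z i) (z (i + 1)))
    (hnb : ∀ i, i + 2 ≤ n → z i ≠ z (i + 2))
    (hnear : ∀ i, 1 ≤ i → i < n → ∀ y, w y ≠ 0 → dd adj (RR r) y (z i) + 1 < RR r) :
    ∀ i, i < n → FF adj r w (z 1) - FF adj r w (z 0) + 2 * i ≤
      FF adj r w (z (i + 1)) - FF adj r w (z i) := by
  intro i
  induction i with
  | zero =>
    intro _
    simp
  | succ i ih =>
    intro hi
    have h1 := ih (by omega)
    have h2 := convex_F hs hNB hL hw (v := z (i + 1)) (u := z i) (u' := z (i + 2))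
      (hnear (i + 1) (by omega) hi) (hs _ _ (hz i (by omega))) (hz (i + 1) hi)
      (hnb i (by omega))
    push_cast
    have e : i + 1 + 1 = i + 2 := rfl
    rw [e]
    linarith

lemma dist_low (hs : ∀ u v, adj u v → adj v u) (hw : PM adj r w) {u u' : B × G}
    (hu : FF adj r w u < KK r) (hu' : FF adj r w u' < KK r) :
    dd adj (RR r) u u' ≤ 4 * r + 2 := by
  obtain ⟨y, -, hy⟩ : ∃ y ∈ (univ : Finset (B × G)), w y ≠ 0 :=
    exists_ne_zero_of_sum_ne_zero (by rw [hw.sum_one]; exact one_ne_zero)
  have h1 := near_of_low hw hu y hy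
  have h2 := near_of_low hw hu' y hy
  have h3 := dd_tri (adj := adj) (R := RR r) u y u'
  rw [dd_symm hs u y] at h3
  omega

/-- at most one strict local minimum of low energy -/
lemma min_unique (hs : ∀ u v, adj u v → adj v u) (hNB : NB adj L) (hL : 2 * RR r + 2 ≤ L)
    (hw : PM adj r w) {u u' : B × G} (hu : FF adj r w u < KK r) (hu' : FF adj r w u' < KK r)
    (hm : ∀ v, adj u v → FF adj r w u < FF adj r w v)
    (hm' : ∀ v, adj u' v → FF adj r w u' < FF adj r w v) : u = u' := by
  by_contra hne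
  have hd := dist_low hs hw hu hu'
  have hlt : dd adj (RR r) u u' < RR r := by unfold RR at hd ⊢; omega
  obtain ⟨z, hz0, hzn, hz⟩ := wk_of_dd_lt hlt
  have hnb := shortest_nb hz0 hzn hz
  set n := dd adj (RR r) u u' with hn
  have hn0 : 0 < n := by
    rcases Nat.eq_zero_or_pos n with h | h
    · exact absurd (eq_of_dd_zero (by unfold RR; omega) h) hne
    · exact h
  have hnear : ∀ i, 1 ≤ i → i < n → ∀ y, w y ≠ 0 → dd adj (RR r) y (z i) + 1 < RR r := by
    intro i _ hi y hy
    have h1 := near_of_low hw hu y hy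
    have h2 : dd adj (RR r) u (z i) ≤ i :=
      dd_le_of_wk ⟨z, hz0, rfl, fun j hj => hz j (by omega)⟩
    have h3 := dd_tri (adj := adj) (R := RR r) y u (z i)
    unfold RR at *
    omega
  have h1 := convex_walk hs hNB hL hw n z hz hnb hnear (n - 1) (by omega)
  have h2 := hm (z 1) (by rw [← hz0]; exact hz 0 hn0)
  rw [← hz0] at h2
  have e : n - 1 + 1 = n := by omega
  have h3 := hm' (z (n - 1)) (by
    have := hz (n - 1) (by omega)
    rw [e, hzn] at this
    exact hs _ _ this)
  rw [← hzn] at h3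
  rw [e] at h1
  have h4 : (0 : ℝ) ≤ ((n - 1 : ℕ) : ℝ) := Nat.cast_nonneg _
  linarith

/-- the core of the uniqueness of the flat edge -/
lemma edge_core (hs : ∀ u v, adj u v → adj v u) (hNB : NB adj L) (hL : 2 * RR r + 2 ≤ L)
    (hw : PM adj r w) {a b a' b' : B × G} (hab : adj a b) (hab' : adj a' b')
    (hb : FF adj r w b < KK r) (ha' : FF adj r w a' < KK r)
    (h1 : |FF adj r w a - FF adj r w b| < 1) (h2 : |FF adj r w a' - FF adj r w b'| < 1)
    (hc1 : dd adj (RR r) b a' ≤ dd adj (RR r) a a')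
    (hc2 : dd adj (RR r) b a' ≤ dd adj (RR r) b b')
    (hne : ¬ (b = a' ∧ a = b')) : False := by
  have hd := dist_low hs hw hb ha'
  have hlt : dd adj (RR r) b a' < RR r := by unfold RR at hd ⊢; omega
  obtain ⟨z, hz0, hzn, hz⟩ := wk_of_dd_lt hlt
  have hnb := shortest_nb hz0 hzn hz
  set n := dd adj (RR r) b a' with hn
  let y : ℕ → B × G := fun i => if i = 0 then a else if i ≤ n + 1 then z (i - 1) else b'
  have y0 : y 0 = a := rfl
  have y1 : ∀ i, 1 ≤ i → i ≤ n + 1 → y i = z (i - 1) := by
    intro i h1 h2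
    simp only [y]
    rw [if_neg (by omega), if_pos h2]
  have y2 : y (n + 2) = b' := by
    simp only [y]
    rw [if_neg (by omega), if_neg (by omega)]
  have hy : ∀ i < n + 2, adj (y i) (y (i + 1)) := by
    intro i hi
    rcases Nat.eq_zero_or_pos i with h | h
    · subst h
      rw [y0, y1 1 le_rfl (by omega)]
      rw [hz0]
      exact hab
    · rcases Nat.lt_or_ge i (n + 1) with h' | h'
      · rw [y1 i h (by omega), y1 (i + 1) (by omega) (by omega)]
        have := hz (i - 1) (by omega)
        rwa [show i - 1 + 1 = i + 1 - 1 by omega] at this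
      · have : i = n + 1 := by omega
        subst this
        rw [y1 (n + 1) h le_rfl]
        change adj _ (y (n + 2))
        rw [y2, show n + 1 - 1 = n by omega, hzn]
        exact hab'
  have hynb : ∀ i, i + 2 ≤ n + 2 → y i ≠ y (i + 2) := by
    intro i hi
    rcases Nat.eq_zero_or_pos i with h | h
    · subst h
      rcases Nat.eq_zero_or_pos n with hn0 | hn0
      · have e1 : b = a' := eq_of_dd_zero (by unfold RR; omega) (hn.symm.trans hn0)
        rw [y0]
        intro h3
        apply hne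
        refine ⟨e1, ?_⟩
        rw [h3, ← y2, hn0]
      · rw [y0, y1 (0 + 2) (by omega) (by omega)]
        intro h3
        have h4 : Wk adj (n - 1) a a' := by
          refine ⟨fun j => z (1 + j), ?_, ?_, ?_⟩
          · simp only [Nat.add_zero]
            exact h3.symm
          · simp only
            rw [show 1 + (n - 1) = n by omega, hzn]
          · intro j hj
            have := hz (1 + j) (by omega)
            rwa [show 1 + j + 1 = 1 + (j + 1) by ring] at this
        have h5 := dd_le_of_wk (R := RR r) h4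
        omega
    · rcases Nat.lt_or_ge i n with h' | h'
      · rw [y1 i h (by omega), y1 (i + 2) (by omega) (by omega)]
        have := hnb (i - 1) (by omega)
        rwa [show i - 1 + 2 = i + 2 - 1 by omega] at this
      · have : i = n := by omega
        rw [this] at h ⊢
        rw [y1 n h (by omega), y2]
        intro h3
        have h4 : Wk adj (n - 1) b b' := ⟨z, hz0, h3, fun j hj => hz j (by omega)⟩
        have h5 := dd_le_of_wk (R := RR r) h4
        omega
  have hnear : ∀ i, 1 ≤ i → i < n + 2 → ∀ x, w x ≠ 0 → dd adj (RR r) x (y i) + 1 < RR r := by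
    intro i hi1 hi x hx
    rw [y1 i hi1 (by omega)]
    have h1 := near_of_low hw hb x hx
    have h2 : dd adj (RR r) b (z (i - 1)) ≤ i - 1 :=
      dd_le_of_wk ⟨z, hz0, rfl, fun j hj => hz j (by omega)⟩
    have h3 := dd_tri (adj := adj) (R := RR r) x b (z (i - 1))
    unfold RR at *
    omega
  have h3 := convex_walk hs hNB hL hw (n + 2) y hy hynb hnear (n + 1) (by omega)
  have e1 : y (n + 1 + 1) = b' := y2
  have e2 : y (n + 1) = a' := by rw [y1 (n + 1) (by omega) le_rfl, show n + 1 - 1 = n by omega, hzn]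
  have e3 : y 1 = b := by rw [y1 1 le_rfl (by omega)]; exact hz0
  rw [e1, e2, e3, y0] at h3
  push_cast at h3
  have h4 : (0 : ℝ) ≤ (n : ℝ) := Nat.cast_nonneg _
  rw [abs_lt] at h1 h2
  linarith [h1.1, h1.2, h2.1, h2.2]

/-- at most one flat edge of low energy -/
lemma edge_unique (hs : ∀ u v, adj u v → adj v u) (hNB : NB adj L) (hL : 2 * RR r + 2 ≤ L)
    (hw : PM adj r w) {a b a' b' : B × G} (hab : adj a b) (hab' : adj a' b')
    (ha : FF adj r w a < KK r) (hb : FF adj r w b < KK r)
    (ha' : FF adj r w a' < KK r) (hb' : FF adj r w b' < KK r)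
    (h1 : |FF adj r w a - FF adj r w b| < 1) (h2 : |FF adj r w a' - FF adj r w b'| < 1) :
    (a = a' ∧ b = b') ∨ (a = b' ∧ b = a') := by
  by_contra hcon
  push Not at hcon
  have h1' : |FF adj r w b - FF adj r w a| < 1 := by rw [abs_sub_comm]; exact h1
  have h2' : |FF adj r w b' - FF adj r w a'| < 1 := by rw [abs_sub_comm]; exact h2
  have hba := hs _ _ hab
  have hba' := hs _ _ hab'
  -- the four distances
  rcases le_total (dd adj (RR r) a a') (dd adj (RR r) b a') with k1 | k1 <;>
    rcases le_total (dd adj (RR r) a b') (dd adj (RR r) b b') with k2 | k2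
  · rcases le_total (dd adj (RR r) a a') (dd adj (RR r) a b') with k3 | k3
    · exact edge_core hs hNB hL hw hba hab' ha ha' h1' h2 k1 k3 (fun h => hcon.1 h.1 h.2)
    · exact edge_core hs hNB hL hw hba hba' ha hb' h1' h2' k2 k3 (fun h => hcon.2 h.1 h.2)
  · rcases le_total (dd adj (RR r) a a') (dd adj (RR r) b b') with k3 | k3
    · exact edge_core hs hNB hL hw hba hab' ha ha' h1' h2 k1 (k3.trans k2)
        (fun h => hcon.1 h.1 h.2)
    · exact edge_core hs hNB hL hw hab hba' hb hb' h1 h2' k2 (k3.trans k1)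
        (fun h => hcon.1 h.2 h.1)
  · rcases le_total (dd adj (RR r) b a') (dd adj (RR r) a b') with k3 | k3
    · exact edge_core hs hNB hL hw hab hab' hb ha' h1 h2 k1 (k3.trans k2)
        (fun h => hcon.2 h.2 h.1)
    · exact edge_core hs hNB hL hw hba hba' ha hb' h1' h2' k2 (k3.trans k1)
        (fun h => hcon.2 h.1 h.2)
  · rcases le_total (dd adj (RR r) b a') (dd adj (RR r) b b') with k3 | k3
    · exact edge_core hs hNB hL hw hab hab' hb ha' h1 h2 k1 k3 (fun h => hcon.2 h.2 h.1)
    · exact edge_core hs hNB hL hw hab hba' hb hb' h1 h2' k2 k3 (fun h => hcon.1 h.2 h.1)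

/-- a minimum of the energy gives a strict local minimum or a flat edge -/
lemma exists_min_or_edge (hw : PM adj r w) : ∃ u, FF adj r w u < KK r ∧
    ((∀ v, adj u v → FF adj r w u < FF adj r w v) ∨
      ∃ v, adj u v ∧ FF adj r w v < KK r ∧ FF adj r w u = FF adj r w v) := by
  obtain ⟨u0, hu0⟩ := exists_low hw
  obtain ⟨u, -, hu⟩ := exists_min_image (univ : Finset (B × G)) (FF adj r w) ⟨u0, mem_univ _⟩
  have hK : (r : ℝ) ^ 2 < KK r := by
    unfold KK
    have : (0 : ℝ) ≤ r := Nat.cast_nonneg _
    nlinarith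
  have hlow : FF adj r w u < KK r := lt_of_le_of_lt ((hu u0 (mem_univ _)).trans hu0) hK
  refine ⟨u, hlow, ?_⟩
  by_cases h : ∀ v, adj u v → FF adj r w u < FF adj r w v
  · exact Or.inl h
  · right
    push Not at h
    obtain ⟨v, hv, hle⟩ := h
    have heq : FF adj r w u = FF adj r w v := le_antisymm (hu v (mem_univ _)) hle
    exact ⟨v, hv, heq ▸ hlow, heq⟩

end

end Q151.XI
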