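import Mathlib

/-!
# Free `G`-complexes, `G`-posets, the mapping index, the simplicial index and the cross-index

`G` is a group (finite in all applications).
-/

set_option autoImplicit false

namespace Q151.XI

/-! ### Finite simplicial complexes with a group action -/

/-- A finite abstract simplicial complex (Mathlib's `AbstractSimplicialComplex` on a finite vertex
type) together with a simplicial action of `G`. -/
structure GComplex (G : Type) [Group G] where
  /-- the vertices -/
  V : Type
  [fin : Fintype V]
  [act : MulAction G V]
  /-- the complex -/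
  K : AbstractSimplicialComplex V
  smul_mem : ∀ (g : G) (s : Finset V), s ∈ K.faces →
    s.map (MulAction.toPerm g).toEmbedding ∈ K.faces

attribute [instance] GComplex.fin GComplex.act

variable {G : Type} [Group G]

/-- The geometric realization of a finite complex: barycentric coordinate vectors whose support
lies in a face. -/
@[ext] structure GComplex.Realization (X : GComplex G) : Type where
  /-- barycentric coordinates -/
  val : X.V → ℝ
  nonneg : ∀ v, 0 ≤ val v
  sum_eq : ∑ v, val v = 1
  supp : ∃ s ∈ X.K.faces, ∀ v, val v ≠ 0 → v ∈ s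

/-- The realization carries the subspace topology of `V → ℝ`. -/
instance (X : GComplex G) : TopologicalSpace X.Realization :=
  TopologicalSpace.induced GComplex.Realization.val inferInstance

/-- The induced action of `G` on the realization: `(g • x)(v) = x(g⁻¹ v)`. -/
instance (X : GComplex G) : MulAction G X.Realization where
  smul g x :=
    { val := fun v => x.val (g⁻¹ • v)
      nonneg := fun v => x.nonneg _
      sum_eq := (Fintype.sum_equiv (MulAction.toPerm g⁻¹) _ _ (fun _ => rfl)).trans x.sum_eq
      supp := by
        obtain ⟨s, hs, h⟩ := x.supp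
        refine ⟨_, X.smul_mem g s hs, fun v hv => ?_⟩
        refine Finset.mem_map.2 ⟨g⁻¹ • v, h _ hv, ?_⟩
        simp }
  one_smul x := by
    ext v
    show x.val ((1 : G)⁻¹ • v) = x.val v
    simp
  mul_smul g h x := by
    ext v
    show x.val ((g * h)⁻¹ • v) = x.val (h⁻¹ • g⁻¹ • v)
    rw [mul_inv_rev, mul_smul]

/-- The action of `G` on the realization is free. -/
def GComplex.IsFree (X : GComplex G) : Prop :=
  ∀ (g : G) (x : X.Realization), g • x = x → g = 1

/-- The action of `G` by left multiplication on `k + 1` copies of `G`. -/
@[reducible] def joinAction (G : Type) [Group G] (k : ℕ) : MulAction G (Fin (k + 1) × G) where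
  smul := fun g p => (p.1, g * p.2)
  one_smul := fun _ => Prod.ext rfl (one_mul _)
  mul_smul := fun _ _ _ => Prod.ext rfl (mul_assoc _ _ _)

/-- `E_k G`, the `(k+1)`-fold join `G * ⋯ * G` of the discrete group `G`, as a simplicial complex:
the vertices are the pairs `(i, a)` with `i ≤ k`, `a ∈ G`, and a nonempty set of vertices is a face
if and only if it has at most one vertex in each of the `k + 1` copies of `G`; `G` acts by left
multiplication on all copies. -/
def E (G : Type) [Group G] [Fintype G] (k : ℕ) : GComplex G :=
  letI := joinAction G k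
  { V := Fin (k + 1) × G
    K :=
      { faces := {s | s.Nonempty ∧ ∀ p ∈ s, ∀ q ∈ s, p.1 = q.1 → p = q}
        isRelLowerSet_faces := fun {s} hs => ⟨hs.1, fun t hts ht =>
          ⟨ht, fun p hp q hq => hs.2 p (hts hp) q (hts hq)⟩⟩
        singleton_mem := fun v => ⟨Finset.singleton_nonempty v, fun p hp q hq _ => by
          rw [Finset.mem_singleton] at hp hq
          rw [hp, hq]⟩ }
    smul_mem := by
      rintro g s ⟨hne, h⟩
      refine ⟨hne.map, fun p hp q hq hpq => ?_⟩
      obtain ⟨p', hp', rfl⟩ := Finset.mem_map.1 hp
      obtain ⟨q', hq', rfl⟩ := Finset.mem_map.1 hq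
      have : p' = q' := h p' hp' q' hq' hpq
      rw [this] }

/-- The mapping index of a `G`-space: the least `k` such that there is a continuous equivariant
map to `E_k G` (and `⊤` if there is none). -/
noncomputable def ind (G : Type) [Group G] [Fintype G] (X : Type) [TopologicalSpace X]
    [MulAction G X] : ℕ∞ :=
  sInf {n : ℕ∞ | ∃ k : ℕ, n = k ∧ ∃ f : X → (E G k).Realization,
    Continuous f ∧ ∀ (g : G) (x : X), f (g • x) = g • f x}

/-- A map between the vertex sets is simplicial if the image of every face lies in a face
(equivalently, is a face). -/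
def IsSimplicial (X Y : GComplex G) (f : X.V → Y.V) : Prop :=
  ∀ s ∈ X.K.faces, ∃ t ∈ Y.K.faces, ∀ v ∈ s, f v ∈ t

/-- The simplicial index of a `G`-complex: the least `k` such that there is an equivariant
simplicial map to `E_k G` (and `⊤` if there is none). -/
noncomputable def sind [Fintype G] (X : GComplex G) : ℕ∞ :=
  sInf {n : ℕ∞ | ∃ k : ℕ, n = k ∧ ∃ f : X.V → (E G k).V,
    IsSimplicial X (E G k) f ∧ ∀ (g : G) (v : X.V), f (g • v) = g • f v}

/-! ### Finite posets with a group action -/

/-- A finite poset with an order-preserving action of `G`. -/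
structure GPoset (G : Type) [Group G] where
  /-- the underlying set -/
  P : Type
  [fin : Fintype P]
  [ord : PartialOrder P]
  [act : MulAction G P]
  smul_le : ∀ (g : G) (p q : P), p ≤ q → g • p ≤ g • q

attribute [instance] GPoset.fin GPoset.ord GPoset.act

/-- Only the identity fixes a point of the poset. -/
def GPoset.IsFree (X : GPoset G) : Prop := ∀ (g : G) (p : X.P), g • p = p → g = 1

/-- The order on `G × {0, …, n}` in which `(g, i) < (h, j)` if and only if `i < j`. -/
@[reducible] def levelOrder (G : Type) (n : ℕ) : PartialOrder (G × Fin (n + 1)) where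
  le p q := p = q ∨ p.2 < q.2
  le_refl p := Or.inl rfl
  le_trans p q r hpq hqr := by
    rcases hpq with rfl | hpq
    · exact hqr
    · rcases hqr with rfl | hqr
      · exact Or.inr hpq
      · exact Or.inr (hpq.trans hqr)
  le_antisymm p q hpq hqp := by
    rcases hpq with h | hpq
    · exact h
    · rcases hqp with h | hqp
      · exact h.symm
      · exact absurd (hpq.trans hqp) (lt_irrefl _)

/-- The action of `G` by left multiplication on the first factor of `G × {0, …, n}`. -/
@[reducible] def levelAction (G : Type) [Group G] (n : ℕ) : MulAction G (G × Fin (n + 1)) where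
  smul := fun g p => (g * p.1, p.2)
  one_smul := fun _ => Prod.ext (one_mul _) rfl
  mul_smul := fun _ _ _ => Prod.ext (mul_assoc _ _ _) rfl

/-- The `G`-poset `Q_n G`: the set `G × {0, …, n}` with `g (h, i) = (g h, i)` and
`(g, i) < (h, j)` if and only if `i < j`. -/
def Q (G : Type) [Group G] [Fintype G] (n : ℕ) : GPoset G :=
  letI := levelOrder G n
  letI := levelAction G n
  { P := G × Fin (n + 1)
    smul_le := by
      rintro g p q (rfl | h)
      · exact le_refl _
      · exact Or.inr h }

/-- The cross-index of a `G`-poset: the least `n` such that there is an equivariant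
order-preserving map to `Q_n G` (and `⊤` if there is none). -/
noncomputable def Xind [Fintype G] (X : GPoset G) : ℕ∞ :=
  sInf {n : ℕ∞ | ∃ k : ℕ, n = k ∧ ∃ f : X.P → (Q G k).P,
    (∀ p q, p ≤ q → f p ≤ f q) ∧ ∀ (g : G) (p : X.P), f (g • p) = g • f p}

/-- The order complex of a `G`-poset: the faces are the nonempty chains. -/
def GPoset.orderComplex (X : GPoset G) : GComplex G where
  V := X.P
  K :=
    { faces := {s | s.Nonempty ∧ ∀ p ∈ s, ∀ q ∈ s, p ≤ q ∨ q ≤ p}
      isRelLowerSet_faces := fun {s} hs => ⟨hs.1, fun t hts ht =>
        ⟨ht, fun p hp q hq => hs.2 p (hts hp) q (hts hq)⟩⟩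
      singleton_mem := fun v => ⟨Finset.singleton_nonempty v, fun p hp q hq => by
        rw [Finset.mem_singleton] at hp hq
        rw [hp, hq]
        exact Or.inl le_rfl⟩ }
  smul_mem := by
    rintro g s ⟨hne, h⟩
    refine ⟨hne.map, fun p hp q hq => ?_⟩
    obtain ⟨p', hp', rfl⟩ := Finset.mem_map.1 hp
    obtain ⟨q', hq', rfl⟩ := Finset.mem_map.1 hq
    rcases h p' hp' q' hq' with h | h
    · exact Or.inl (X.smul_le g _ _ h)
    · exact Or.inr (X.smul_le g _ _ h)

/-- The action of `G` on the faces of a `G`-complex. -/
@[reducible] def GComplex.faceAction (X : GComplex G) : MulAction G {s // s ∈ X.K.faces} where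
  smul g s := ⟨s.1.map (MulAction.toPerm g).toEmbedding, X.smul_mem g s.1 s.2⟩
  one_smul s := by
    apply Subtype.ext
    show s.1.map (MulAction.toPerm (1 : G)).toEmbedding = s.1
    ext v
    simp
  mul_smul g h s := by
    apply Subtype.ext
    show s.1.map (MulAction.toPerm (g * h)).toEmbedding =
      (s.1.map (MulAction.toPerm h).toEmbedding).map (MulAction.toPerm g).toEmbedding
    rw [Finset.map_map]
    congr 1
    ext v
    simp [mul_smul]

/-- The face poset of a `G`-complex: its nonempty simplices ordered by inclusion. -/
noncomputable def GComplex.facePoset (X : GComplex G) : GPoset G :=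
  letI := X.faceAction
  { P := {s // s ∈ X.K.faces}
    fin := Fintype.ofFinite _
    ord := inferInstance
    smul_le := fun g _ _ h => Finset.map_subset_map.2 h }

end Q151.XI
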