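import Mathlib
import Pool.Agent.Q151.XI.Defs
import Pool.Agent.Helper954.Hopf.D1c

/-!
# There is no equivariant map `E_m G → E_k G` for `k < m`
-/

set_option autoImplicit false

namespace Q151.XI

open Pool.Agent.Helper954.Hopf.Dold

variable {G : Type} [Group G]

theorem continuous_val (X : GComplex G) :
    Continuous (GComplex.Realization.val : X.Realization → X.V → ℝ) :=
  continuous_induced_dom

theorem continuous_iff_val {A : Type*} [TopologicalSpace A] (X : GComplex G)
    (f : A → X.Realization) : Continuous f ↔ ∀ v, Continuous fun a => (f a).val v := by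
  rw [continuous_induced_rng]
  exact continuous_pi_iff

theorem smul_val (X : GComplex G) (g : G) (x : X.Realization) (v : X.V) :
    (g • x).val v = x.val (g⁻¹ • v) := rfl

/-- the coordinates of a point of `E_k G` -/
def co [Fintype G] {k : ℕ} (x : (E G k).Realization) : Fin (k + 1) × G → ℝ := x.val

theorem co_nonneg [Fintype G] {k : ℕ} (x : (E G k).Realization) (v) : 0 ≤ co x v := x.nonneg v

theorem sum_co [Fintype G] {k : ℕ} (x : (E G k).Realization) : ∑ v, co x v = 1 := x.sum_eq

theorem co_smul [Fintype G] {k : ℕ} (g : G) (x : (E G k).Realization) (i : Fin (k + 1)) (a : G) :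
    co (g • x) (i, a) = co x (i, g⁻¹ * a) := rfl

theorem co_continuous [Fintype G] {k : ℕ} :
    Continuous (co : (E G k).Realization → Fin (k + 1) × G → ℝ) :=
  continuous_val (E G k)

theorem continuous_iff_co [Fintype G] {k : ℕ} {A : Type*} [TopologicalSpace A]
    (f : A → (E G k).Realization) : Continuous f ↔ ∀ v, Continuous fun a => co (f a) v :=
  continuous_iff_val (E G k) f

theorem co_ext [Fintype G] {k : ℕ} {x y : (E G k).Realization} (h : ∀ i a, co x (i, a) = co y (i, a)) :
    x = y := by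
  apply GComplex.Realization.ext
  funext v
  exact h v.1 v.2

/-- the face of `E_k G` property -/
theorem E_rel [Fintype G] {k : ℕ} (x : (E G k).Realization) (i : Fin (k + 1)) (a b : G)
    (ha : co x (i, a) ≠ 0) (hb : co x (i, b) ≠ 0) : a = b := by
  obtain ⟨s, hs, h⟩ := x.supp
  have := hs.2 (i, a) (h _ ha) (i, b) (h _ hb) rfl
  exact congrArg Prod.snd this

/-- making a point of `E_k G` -/
def mkE [Fintype G] {k : ℕ} (x : Fin (k + 1) × G → ℝ) (h0 : ∀ v, 0 ≤ x v) (h1 : ∑ v, x v = 1)
    (h2 : ∀ i a b, x (i, a) ≠ 0 → x (i, b) ≠ 0 → a = b) : (E G k).Realization where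
  val := x
  nonneg := h0
  sum_eq := h1
  supp := by
    classical
    refine ⟨Finset.univ.filter (fun v : Fin (k + 1) × G => x v ≠ 0), ⟨?_, ?_⟩, fun v hv => by
        exact Finset.mem_filter.2 ⟨Finset.mem_univ _, hv⟩⟩
    · obtain ⟨v, hv⟩ : ∃ v, x v ≠ 0 := by
        by_contra hcon
        push Not at hcon
        have : ∑ v, x v = 0 := Finset.sum_eq_zero fun v _ => hcon v
        linarith
      exact ⟨v, Finset.mem_filter.2 ⟨Finset.mem_univ _, hv⟩⟩
    · rintro ⟨i, a⟩ hp ⟨j, b⟩ hq hij
      simp only at hij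
      subst hij
      exact Prod.ext rfl (h2 i a b (Finset.mem_filter.1 hp).2 (Finset.mem_filter.1 hq).2)

section

variable [Fintype G]

/-- an equivariant function to `ZMod p` for an element of order `p` -/
lemma exists_log (p : ℕ) [hp : Fact p.Prime] (a : G) (ha : orderOf a = p) :
    ∃ s : G → ZMod p, ∀ h, s (a * h) = s h + 1 := by
  classical
  -- representatives of the orbits of left multiplication by powers of `a`
  let S : Setoid G :=
    { r := fun g h => ∃ n : ℕ, h = a ^ n * g
      iseqv :=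
        { refl := fun g => ⟨0, by simp⟩
          symm := by
            rintro g h ⟨n, rfl⟩
            refine ⟨(p - 1) * n, ?_⟩
            rw [← mul_assoc, ← pow_add]
            have h1 : (p - 1) * n + n = p * n := by
              have := hp.out.pos
              obtain ⟨q, rfl⟩ : ∃ q, p = q + 1 := ⟨p - 1, by omega⟩
              simp
              ring
            rw [h1, pow_mul, ← ha, pow_orderOf_eq_one, one_pow, one_mul]
          trans := by
            rintro g h k ⟨n, rfl⟩ ⟨m, rfl⟩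
            exact ⟨m + n, by rw [pow_add, mul_assoc]⟩ } }
  have hex : ∀ h : G, ∃ n : ℕ, h = a ^ n * (Quotient.mk S h).out := by
    intro h
    have : S.r (Quotient.mk S h).out h := Quotient.exact (Quotient.out_eq _)
    exact this
  choose n hn using hex
  refine ⟨fun h => (n h : ZMod p), fun h => ?_⟩
  have hq : Quotient.mk S (a * h) = Quotient.mk S h :=
    Quotient.sound (s := S) (S.iseqv.symm ⟨1, by simp⟩)
  have h1 := hn (a * h)
  rw [hq] at h1
  have h2 := hn h
  have h3 : a ^ (n (a * h)) = a ^ (n h + 1) := by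
    have : a ^ (n (a * h)) * (Quotient.mk S h).out = a ^ (n h + 1) * (Quotient.mk S h).out := by
      rw [← h1, pow_succ', mul_assoc, ← h2]
    exact mul_right_cancel this
  have h4 : n (a * h) ≡ n h + 1 [MOD p] := by
    rw [← ha]
    exact pow_eq_pow_iff_modEq.1 h3
  have h5 := (ZMod.natCast_eq_natCast_iff _ _ _).2 h4
  push_cast at h5
  exact h5

/-- the embedding of the join of `m + 1` copies of `ZMod p` in `E_m G` -/
noncomputable def embV (p : ℕ) (a : G) {m : ℕ} (x : VV p (m + 1)) (v : Fin (m + 1) × G) : ℝ := by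
  classical exact ∑ᶠ l : ZMod p, if a ^ l.val = v.2 then x v.1 l else 0

lemma embV_eq (p : ℕ) [Fact p.Prime] (a : G) {m : ℕ} (x : VV p (m + 1)) (v : Fin (m + 1) × G) :
    embV p a x v = by classical exact ∑ l : ZMod p, if a ^ l.val = v.2 then x v.1 l else 0 := by
  classical
  unfold embV
  exact finsum_eq_sum_of_fintype _

lemma pow_val_inj (p : ℕ) [Fact p.Prime] (a : G) (ha : orderOf a = p) {l l' : ZMod p}
    (h : a ^ l.val = a ^ l'.val) : l = l' := by
  have h1 := pow_eq_pow_iff_modEq.1 h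
  rw [ha] at h1
  have h2 : l.val = l'.val := by
    have := h1
    unfold Nat.ModEq at this
    rwa [Nat.mod_eq_of_lt (ZMod.val_lt l), Nat.mod_eq_of_lt (ZMod.val_lt l')] at this
  exact ZMod.val_injective p h2

/-- the embedding as a map to the realization -/
noncomputable def emb (p : ℕ) [Fact p.Prime] (a : G) (ha : orderOf a = p) {m : ℕ}
    (x : VV p (m + 1)) (hx : x ∈ JK p (m + 1)) : (E G m).Realization :=
  mkE (fun v => embV p a x v)
    (fun v => by
      rw [embV_eq]
      refine Finset.sum_nonneg fun l _ => ?_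
      split_ifs
      · exact hx.1 _ _
      · exact le_rfl)
    (by
      classical
      simp only [embV_eq]
      rw [Fintype.sum_prod_type, ← hx.2.1]
      apply Finset.sum_congr rfl
      intro i _
      rw [Finset.sum_comm]
      apply Finset.sum_congr rfl
      intro l _
      simp)
    (by
      classical
      intro i g h hg hh
      rw [embV_eq] at hg hh
      obtain ⟨l, -, hl⟩ := Finset.exists_ne_zero_of_sum_ne_zero hg
      obtain ⟨l', -, hl'⟩ := Finset.exists_ne_zero_of_sum_ne_zero hh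
      simp only [ne_eq, ite_eq_right_iff, Classical.not_imp] at hl hl'
      by_cases hll : l = l'
      · rw [← hl.1, ← hl'.1, hll]
      · rcases hx.2.2 i l l' hll with h1 | h1
        · exact absurd h1 hl.2
        · exact absurd h1 hl'.2)

lemma emb_val (p : ℕ) [Fact p.Prime] (a : G) (ha : orderOf a = p) {m : ℕ}
    (x : VV p (m + 1)) (hx : x ∈ JK p (m + 1)) (v : Fin (m + 1) × G) :
    co (emb p a ha x hx) v = embV p a x v := rfl

lemma emb_sh (p : ℕ) [Fact p.Prime] (a : G) (ha : orderOf a = p) {m : ℕ}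
    (x : VV p (m + 1)) (hx : x ∈ JK p (m + 1)) (hx' : sh x ∈ JK p (m + 1)) :
    emb p a ha (sh x) hx' = a • emb p a ha x hx := by
  classical
  apply co_ext
  intro i h
  rw [co_smul, emb_val, emb_val]
  change embV p a (sh x) (i, h) = embV p a x (i, a⁻¹ * h)
  rw [embV_eq, embV_eq]
  refine Fintype.sum_equiv (Equiv.subRight (1 : ZMod p)) _ _ fun l => ?_
  have h1 : a ^ l.val = h ↔ a ^ (l - 1).val = a⁻¹ * h := by
    have h2 : a ^ l.val = a * a ^ (l - 1).val := by
      have h3 : ((l - 1).val + 1 : ℕ) ≡ l.val [MOD p] := by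
        rw [← ZMod.natCast_eq_natCast_iff]
        push_cast
        rw [ZMod.natCast_zmod_val, ZMod.natCast_zmod_val]
        ring
      rw [← pow_succ']
      apply pow_eq_pow_iff_modEq.2
      rw [ha]
      exact h3.symm
    rw [h2, eq_inv_mul_iff_mul_eq]
  simp only [Equiv.subRight_apply]
  by_cases h4 : a ^ l.val = h
  · rw [if_pos h4, if_pos (h1.1 h4)]
    rfl
  · rw [if_neg h4, if_neg (fun h5 => h4 (h1.2 h5))]

/-- Dold's theorem for joins of `G`. -/
theorem dold (hG : 2 ≤ Fintype.card G) {m k : ℕ} (hk : k < m)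
    (f : (E G m).Realization → (E G k).Realization) (hf : Continuous f)
    (he : ∀ (g : G) x, f (g • x) = g • f x) : False := by
  classical
  obtain ⟨p, hp, hpd⟩ := Nat.exists_prime_and_dvd (n := Fintype.card G) (by omega)
  haveI : Fact p.Prime := ⟨hp⟩
  obtain ⟨a, ha⟩ := exists_prime_orderOf_dvd_card p hpd
  obtain ⟨s0, hs0⟩ := exists_log p a ha
  have hsh : ∀ x ∈ JK p (m + 1), sh x ∈ JK p (m + 1) := fun x hx => D1c.dc_sh_mem p (m + 1) hx
  -- the composed map
  let F : JK p (m + 1) → Fin (k + 1) × G → ℝ := fun x => co (f (emb p a ha x.1 x.2))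
  have hFc : Continuous F := by
    refine co_continuous.comp (hf.comp ?_)
    rw [continuous_iff_co]
    intro v
    simp only [emb_val]
    simp only [embV_eq]
    refine continuous_finsetSum _ fun l _ => ?_
    split_ifs
    · exact (continuous_apply_apply v.1 l).comp continuous_subtype_val
    · exact continuous_const
  haveI : CompactSpace (JK p (m + 1)) := isCompact_iff_compactSpace.1 (D1c.dc_compact p (m + 1))
  have hFu := CompactSpace.uniformContinuous_of_continuous hFc
  rw [Metric.uniformContinuous_iff] at hFu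
  obtain ⟨δ, hδ, hclose⟩ := hFu (1 / ((k + 1 : ℕ) : ℝ)) (by positivity)
  -- the labels
  let big : VV p (m + 1) → ℕ → G → Prop := fun x n g =>
    ∃ (hx : x ∈ JK p (m + 1)) (hn : n < k + 1), 1 / ((k + 1 : ℕ) : ℝ) ≤ F ⟨x, hx⟩ (⟨n, hn⟩, g)
  have hex : ∀ x ∈ JK p (m + 1), ∃ n g, big x n g := by
    intro x hx
    have h1 := sum_co (f (emb p a ha x hx))
    rw [Fintype.sum_prod_type] at h1
    obtain ⟨i, hi⟩ : ∃ i : Fin (k + 1), 1 / ((k + 1 : ℕ) : ℝ) ≤ ∑ g, F ⟨x, hx⟩ (i, g) := by
      by_contra hcon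
      push Not at hcon
      have : ∑ i : Fin (k + 1), ∑ g, F ⟨x, hx⟩ (i, g) < ∑ _i : Fin (k + 1), 1 / ((k + 1 : ℕ) : ℝ) :=
        Finset.sum_lt_sum_of_nonempty ⟨0, Finset.mem_univ _⟩ fun i _ => hcon i
      rw [Finset.sum_const, Finset.card_univ, Fintype.card_fin, nsmul_eq_mul,
        mul_one_div_cancel (by positivity)] at this
      exact absurd h1 (ne_of_lt this)
    have hpos : (0 : ℝ) < ∑ g, F ⟨x, hx⟩ (i, g) := lt_of_lt_of_le (by positivity) hi
    obtain ⟨g, -, hg⟩ := Finset.exists_ne_zero_of_sum_ne_zero hpos.ne'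
    refine ⟨i.1, g, hx, i.2, ?_⟩
    have h2 : ∑ g', F ⟨x, hx⟩ (i, g') = F ⟨x, hx⟩ (i, g) := by
      apply Finset.sum_eq_single g
      · intro b _ hb
        by_contra h3
        exact hb (E_rel _ i b g h3 hg)
      · intro h
        exact absurd (Finset.mem_univ _) h
    rw [h2] at hi
    exact hi
  have hbigsh : ∀ x n g, big x n g → big (sh x) n (a * g) := by
    rintro x n g ⟨hx, hn, h⟩
    refine ⟨hsh x hx, hn, ?_⟩
    change _ ≤ co (f (emb p a ha (sh x) _)) (⟨n, hn⟩, a * g)
    rw [emb_sh p a ha x hx, he, co_smul, inv_mul_cancel_left]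
    exact h
  have hbigsh' : ∀ x ∈ JK p (m + 1), ∀ n g, big (sh x) n g → big x n (a⁻¹ * g) := by
    rintro x hx n g ⟨hx', hn, h⟩
    refine ⟨hx, hn, ?_⟩
    change _ ≤ co (f (emb p a ha (sh x) _)) (⟨n, hn⟩, g) at h
    rw [emb_sh p a ha x hx, he, co_smul] at h
    exact h
  have huniq : ∀ x n g g', big x n g → big x n g' → g = g' := by
    rintro x n g g' ⟨hx, hn, h⟩ ⟨_, _, h'⟩
    have hpos : (0 : ℝ) < 1 / ((k + 1 : ℕ) : ℝ) := by positivity
    exact E_rel _ _ g g' (lt_of_lt_of_le hpos h).ne' (lt_of_lt_of_le hpos h').ne'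
  let lev : VV p (m + 1) → ℕ := fun x => sInf {n | ∃ g, big x n g}
  have hlev : ∀ x ∈ JK p (m + 1), ∃ g, big x (lev x) g := by
    intro x hx
    have hne : {n | ∃ g, big x n g}.Nonempty := by
      obtain ⟨n, g, h⟩ := hex x hx
      exact ⟨n, g, h⟩
    exact Nat.sInf_mem hne
  let lab : VV p (m + 1) → ZMod p := fun x =>
    if h : ∃ g, big x (lev x) g then s0 h.choose else 0
  have hlab : ∀ x g, big x (lev x) g → lab x = s0 g := by
    intro x g h
    have hex' : ∃ g, big x (lev x) g := ⟨g, h⟩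
    have h1 : lab x = s0 hex'.choose := dif_pos hex'
    rw [h1, huniq x _ _ _ hex'.choose_spec h]
  have hlevsh : ∀ x ∈ JK p (m + 1), lev (sh x) = lev x := by
    intro x hx
    change sInf {n | ∃ g, big (sh x) n g} = sInf {n | ∃ g, big x n g}
    congr 1
    ext n
    constructor
    · rintro ⟨g, h⟩
      exact ⟨_, hbigsh' x hx n g h⟩
    · rintro ⟨g, h⟩
      exact ⟨_, hbigsh x n g h⟩
  obtain ⟨c, hc1, hc2, hc3⟩ := D1a.fine_chains p (m + 1) δ hδ
  refine D1b.no_labels p sh (JK p (m + 1)) hsh (fun x y => dist x y < δ) lev lab m ?_ hlevsh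
    ?_ ?_ c ?_ (hc2 (by omega)) ?_
  · intro x hx
    obtain ⟨g, _, hn, _⟩ := hlev x hx
    omega
  · intro x hx
    obtain ⟨g, hg⟩ := hlev x hx
    rw [hlab x g hg, hlab (sh x) (a * g) (by rw [hlevsh x hx]; exact hbigsh x _ g hg), hs0]
  · intro x hx y hy hxy hlxy
    obtain ⟨g, hg⟩ := hlev x hx
    obtain ⟨g', hg'⟩ := hlev y hy
    rw [hlab x g hg, hlab y g' hg']
    congr 1
    rw [← hlxy] at hg'
    obtain ⟨hx1, hn, h1⟩ := hg
    obtain ⟨hy1, _, h2⟩ := hg'
    have hd := hclose (a := ⟨x, hx1⟩) (b := ⟨y, hy1⟩) hxy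
    rw [dist_pi_lt_iff (by positivity)] at hd
    have hd1 := hd (⟨lev x, hn⟩, g)
    rw [Real.dist_eq, abs_lt] at hd1
    have hpos : (0 : ℝ) < 1 / ((k + 1 : ℕ) : ℝ) := by positivity
    have h3 : (0 : ℝ) < F ⟨y, hy1⟩ (⟨lev x, hn⟩, g) := by linarith
    exact E_rel _ _ g g' h3.ne' (lt_of_lt_of_le hpos h2).ne'
  · intro k hk
    exact hc1 k (by omega)
  · intro k hk
    exact hc3 k (by omega)

end

end Q151.XI
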