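import Mathlib
import Pool.Agent.Q151.XI.Bary
import Pool.Agent.Q151.XI.Dold

/-!
# The equivariant map to `E_m G`
-/

set_option autoImplicit false

namespace Q151.XI

open Finset

variable {G : Type} [Group G] {B : Type}

section

variable [Fintype B] [Fintype G] (adj : B × G → B × G → Prop) (r : ℕ) (ord : B → ℕ)

open Classical in
/-- the weight of a vertex -/
noncomputable def al (w : B × G → ℝ) (u : B × G) : ℝ :=
  (∑ y, w y) * (∏ v ∈ univ.filter (fun v => adj u v), max 0 (FF adj r w v - FF adj r w u)) *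
    max 0 (KK r - FF adj r w u)

open Classical in
/-- the weight of an edge -/
noncomputable def be (w : B × G → ℝ) (e : (B × G) × (B × G)) : ℝ :=
  if adj e.1 e.2 ∧ ord e.1.1 < ord e.2.1 then
    (∑ y, w y) * max 0 (1 - |FF adj r w e.1 - FF adj r w e.2|) *
      (max 0 (KK r - FF adj r w e.1) * max 0 (KK r - FF adj r w e.2))
  else 0

open Classical in
/-- the numerators of the coordinates -/
noncomputable def nu {m : ℕ} (w : B × G → ℝ) (c : Fin (m + 1) × G → ℝ) (v : Fin (m + 1) × G) : ℝ :=
  (if v.1.val = 0 then ∑ u ∈ univ.filter (fun u : B × G => u.2 = v.2), al adj r w u else 0) +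
  (if v.1.val = 1 then
    ∑ e ∈ univ.filter (fun e : (B × G) × (B × G) => e.1.2 = v.2), be adj r ord w e else 0) + c v

variable {adj r ord}

lemma al_nonneg {w : B × G → ℝ} (hw : ∀ u, 0 ≤ w u) (u : B × G) : 0 ≤ al adj r w u := by
  unfold al
  refine mul_nonneg (mul_nonneg (sum_nonneg fun y _ => hw y) ?_) (le_max_left _ _)
  exact prod_nonneg fun v _ => le_max_left _ _

lemma be_nonneg {w : B × G → ℝ} (hw : ∀ u, 0 ≤ w u) (e : (B × G) × (B × G)) :
    0 ≤ be adj r ord w e := by
  unfold be
  split_ifs
  · refine mul_nonneg (mul_nonneg (sum_nonneg fun y _ => hw y) (le_max_left _ _)) ?_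
    exact mul_nonneg (le_max_left _ _) (le_max_left _ _)
  · exact le_rfl

lemma nu_nonneg {m : ℕ} {w : B × G → ℝ} (hw : ∀ u, 0 ≤ w u) {c : Fin (m + 1) × G → ℝ}
    (hc : ∀ v, 0 ≤ c v) (v : Fin (m + 1) × G) : 0 ≤ nu adj r ord w c v := by
  unfold nu
  refine add_nonneg (add_nonneg ?_ ?_) (hc v)
  · split_ifs
    · exact sum_nonneg fun u _ => al_nonneg hw u
    · exact le_rfl
  · split_ifs
    · exact sum_nonneg fun u _ => be_nonneg hw u
    · exact le_rfl

lemma al_pos {w : B × G → ℝ} {u : B × G} (h : al adj r w u ≠ 0) :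
    FF adj r w u < KK r ∧ ∀ v, adj u v → FF adj r w u < FF adj r w v := by
  classical
  unfold al at h
  have h1 := right_ne_zero_of_mul h
  have h2 := right_ne_zero_of_mul (left_ne_zero_of_mul h)
  constructor
  · by_contra hcon
    exact h1 (max_eq_left (by linarith))
  · intro v hv
    have h3 := prod_ne_zero_iff.1 h2 v (mem_filter.2 ⟨mem_univ _, hv⟩)
    by_contra hcon
    exact h3 (max_eq_left (by linarith))

lemma be_pos {w : B × G → ℝ} {e : (B × G) × (B × G)} (h : be adj r ord w e ≠ 0) :
    adj e.1 e.2 ∧ ord e.1.1 < ord e.2.1 ∧ FF adj r w e.1 < KK r ∧ FF adj r w e.2 < KK r ∧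
      |FF adj r w e.1 - FF adj r w e.2| < 1 := by
  classical
  unfold be at h
  by_cases hc : adj e.1 e.2 ∧ ord e.1.1 < ord e.2.1
  · rw [if_pos hc] at h
    have h1 := right_ne_zero_of_mul h
    have h2 := right_ne_zero_of_mul (left_ne_zero_of_mul h)
    refine ⟨hc.1, hc.2, ?_, ?_, ?_⟩
    · by_contra hcon
      exact left_ne_zero_of_mul h1 (max_eq_left (by linarith))
    · by_contra hcon
      exact right_ne_zero_of_mul h1 (max_eq_left (by linarith))
    · by_contra hcon
      exact h2 (max_eq_left (by linarith))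
  · rw [if_neg hc] at h
    exact absurd rfl h

/-- the data of a point: either a concentrated measure on the graph, or a point of the join -/
structure Dat (adj : B × G → B × G → Prop) (r : ℕ) {m : ℕ} (w : B × G → ℝ)
    (c : Fin (m + 1) × G → ℝ) : Prop where
  w_nonneg : ∀ u, 0 ≤ w u
  c_nonneg : ∀ v, 0 ≤ c v
  c_rel : ∀ i a b, c (i, a) ≠ 0 → c (i, b) ≠ 0 → a = b
  alt : (PM adj r w ∧ ∀ v, c v = 0) ∨ ((∀ u, w u = 0) ∧ 0 < ∑ v, c v)

lemma nu_c {m : ℕ} {w : B × G → ℝ} {c : Fin (m + 1) × G → ℝ} (hw : ∀ u, w u = 0)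
    (v : Fin (m + 1) × G) : nu adj r ord w c v = c v := by
  have h0 : (∑ y, w y) = 0 := sum_eq_zero fun y _ => hw y
  have h1 : ∀ u, al adj r w u = 0 := by
    intro u
    unfold al
    rw [h0, zero_mul, zero_mul]
  have h2 : ∀ e, be adj r ord w e = 0 := by
    intro e
    unfold be
    split_ifs
    · rw [h0, zero_mul, zero_mul]
    · rfl
  unfold nu
  rw [sum_eq_zero (fun u _ => h1 u), sum_eq_zero (fun e _ => h2 e)]
  simp

variable {L : ℕ}

lemma nu_rel (hs : ∀ u v, adj u v → adj v u) (hNB : NB adj L) (hL : 2 * RR r + 2 ≤ L)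
    {m : ℕ} {w : B × G → ℝ} {c : Fin (m + 1) × G → ℝ} (hd : Dat adj r w c) (i : Fin (m + 1))
    (a b : G) (ha : nu adj r ord w c (i, a) ≠ 0) (hb : nu adj r ord w c (i, b) ≠ 0) : a = b := by
  classical
  rcases hd.alt with ⟨hw, hc⟩ | ⟨hw, -⟩
  · have key : ∀ a, nu adj r ord w c (i, a) ≠ 0 →
        (i.val = 0 ∧ ∃ u : B × G, u.2 = a ∧ al adj r w u ≠ 0) ∨
        (i.val = 1 ∧ ∃ e : (B × G) × (B × G), e.1.2 = a ∧ be adj r ord w e ≠ 0) := by
      intro a ha
      unfold nu at ha
      rw [hc, add_zero] at ha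
      by_cases h0 : i.val = 0
      · left
        refine ⟨h0, ?_⟩
        rw [if_pos h0, if_neg (by simp only; omega), add_zero] at ha
        obtain ⟨u, hu, hu'⟩ := exists_ne_zero_of_sum_ne_zero ha
        exact ⟨u, (mem_filter.1 hu).2, hu'⟩
      · by_cases h1 : i.val = 1
        · right
          refine ⟨h1, ?_⟩
          rw [if_neg h0, if_pos h1, zero_add] at ha
          obtain ⟨u, hu, hu'⟩ := exists_ne_zero_of_sum_ne_zero ha
          exact ⟨u, (mem_filter.1 hu).2, hu'⟩
        · rw [if_neg h0, if_neg h1, zero_add] at ha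
          exact absurd rfl ha
    rcases key a ha with ⟨hi, u, rfl, hu⟩ | ⟨hi, e, rfl, he⟩
    · rcases key b hb with ⟨-, u', rfl, hu'⟩ | ⟨hi', -⟩
      · have p1 := al_pos hu
        have p2 := al_pos hu'
        rw [min_unique hs hNB hL hw p1.1 p2.1 p1.2 p2.2]
      · omega
    · rcases key b hb with ⟨hi', -⟩ | ⟨-, e', rfl, he'⟩
      · omega
      · obtain ⟨p1, p2, p3, p4, p5⟩ := be_pos he
        obtain ⟨q1, q2, q3, q4, q5⟩ := be_pos he'
        rcases edge_unique hs hNB hL hw p1 q1 p3 p4 q3 q4 p5 q5 with ⟨h, -⟩ | ⟨h, h'⟩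
        · rw [h]
        · rw [h, h'] at p2
          omega
  · rw [nu_c hw] at ha hb
    exact hd.c_rel i a b ha hb

lemma nu_pos (hs : ∀ u v, adj u v → adj v u) (hNB : NB adj L) (hL : 2 * RR r + 2 ≤ L)
    (hord : Function.Injective ord)
    {m : ℕ} (hm : 1 ≤ m) {w : B × G → ℝ} {c : Fin (m + 1) × G → ℝ} (hd : Dat adj r w c) :
    0 < ∑ v, nu adj r ord w c v := by
  classical
  have hnn : ∀ v, 0 ≤ nu adj r ord w c v := nu_nonneg hd.w_nonneg hd.c_nonneg
  rcases hd.alt with ⟨hw, hc⟩ | ⟨hw, hpos⟩
  · obtain ⟨u, hu, hcase⟩ := exists_min_or_edge hw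
    have h1 : (∑ y, w y) = 1 := hw.sum_one
    rcases hcase with h | ⟨v, hv, hvK, heq⟩
    · have hpos : 0 < al adj r w u := by
        unfold al
        rw [h1, one_mul]
        refine mul_pos (prod_pos fun v hv => ?_) ?_
        · rw [lt_max_iff]
          right
          have := h v (mem_filter.1 hv).2
          linarith
        · rw [lt_max_iff]
          right
          linarith
      have h2 : 0 < nu adj r ord w c (0, u.2) := by
        unfold nu
        have e : al adj r w u ≤ ∑ u' ∈ univ.filter (fun u' : B × G => u'.2 = u.2), al adj r w u' :=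
          single_le_sum (fun u' _ => al_nonneg hd.w_nonneg u') (mem_filter.2 ⟨mem_univ _, rfl⟩)
        rw [hc]
        have e2 : ((0 : Fin (m + 1))).val = 0 := rfl
        rw [if_pos e2, if_neg (by rw [e2]; omega)]
        linarith
      exact lt_of_lt_of_le h2 (single_le_sum (fun v _ => hnn v) (mem_univ _))
    · have hne : ord u.1 ≠ ord v.1 := by
        intro h
        have h3 := hord h
        refine hNB 1 le_rfl (by omega) (fun i => if i = 0 then u else v) ?_ ?_ ?_
        · intro i hi
          have : i = 0 := by omega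
          subst this
          simpa using hv
        · intro i hi
          omega
        · simp [h3]
      have hlast : (1 : ℕ) < m + 1 := by omega
      have key : ∀ a b : B × G, adj a b → ord a.1 < ord b.1 → FF adj r w a < KK r →
          FF adj r w b < KK r → FF adj r w a = FF adj r w b → 0 < ∑ v, nu adj r ord w c v := by
        intro a b hab hord' ha hb hab'
        have hpos : 0 < be adj r ord w (a, b) := by
          unfold be
          rw [if_pos ⟨hab, hord'⟩, h1, one_mul, hab', sub_self, abs_zero]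
          refine mul_pos ?_ (mul_pos ?_ ?_) <;> rw [lt_max_iff] <;> right <;> linarith
        have h2 : 0 < nu adj r ord w c (⟨1, hlast⟩, a.2) := by
          unfold nu
          have e : be adj r ord w (a, b) ≤
              ∑ e ∈ univ.filter (fun e : (B × G) × (B × G) => e.1.2 = a.2), be adj r ord w e :=
            single_le_sum (fun e _ => be_nonneg hd.w_nonneg e) (mem_filter.2 ⟨mem_univ _, rfl⟩)
          rw [hc]
          rw [if_neg (by simp), if_pos rfl]
          linarith
        exact lt_of_lt_of_le h2 (single_le_sum (fun v _ => hnn v) (mem_univ _))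
      rcases lt_or_gt_of_ne hne with h | h
      · exact key u v hv h hu hvK heq
      · exact key v u (hs _ _ hv) h hvK hu heq.symm
  · have : ∑ v, nu adj r ord w c v = ∑ v, c v := sum_congr rfl fun v _ => nu_c hw v
    rw [this]
    exact hpos

lemma FF_gs (hg : ∀ g u v, adj u v → adj (gs g u) (gs g v)) (g : G) (w : B × G → ℝ) (u : B × G) :
    FF adj r (fun y => w (gs g⁻¹ y)) u = FF adj r w (gs g⁻¹ u) := by
  unfold FF
  refine Fintype.sum_equiv
    ⟨gs g⁻¹, gs g, fun y => by rw [← gs_mul, mul_inv_cancel, gs_one],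
      fun y => by rw [← gs_mul, inv_mul_cancel, gs_one]⟩ _ _ fun y => ?_
  simp only [Equiv.coe_fn_mk]
  rw [dd_gs hg]

/-- the permutation of the vertices given by `g` -/
def gsEquiv (g : G) : B × G ≃ B × G :=
  ⟨gs g, gs g⁻¹, fun y => by rw [← gs_mul, inv_mul_cancel, gs_one],
    fun y => by rw [← gs_mul, mul_inv_cancel, gs_one]⟩

lemma al_gs (hg : ∀ g u v, adj u v → adj (gs g u) (gs g v)) (g : G) (w : B × G → ℝ) (u : B × G) :
    al adj r (fun y => w (gs g⁻¹ y)) u = al adj r w (gs g⁻¹ u) := by
  classical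
  unfold al
  simp only [FF_gs hg]
  congr 2
  · exact Fintype.sum_equiv (gsEquiv g⁻¹) _ _ fun y => rfl
  · refine prod_bij (fun v _ => gs g⁻¹ v) ?_ ?_ ?_ ?_
    · intro v hv
      rw [mem_filter] at hv ⊢
      exact ⟨mem_univ _, hg _ _ _ hv.2⟩
    · intro v _ v' _ h
      exact (gsEquiv g⁻¹).injective h
    · intro v hv
      refine ⟨gs g v, ?_, ?_⟩
      · rw [mem_filter] at hv ⊢
        refine ⟨mem_univ _, ?_⟩
        have := hg g _ _ hv.2
        rwa [← gs_mul, mul_inv_cancel, gs_one] at this
      · rw [← gs_mul, inv_mul_cancel, gs_one]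
    · intro v _
      rfl

lemma be_gs (hg : ∀ g u v, adj u v → adj (gs g u) (gs g v)) (g : G) (w : B × G → ℝ)
    (e : (B × G) × (B × G)) :
    be adj r ord (fun y => w (gs g⁻¹ y)) e = be adj r ord w (gs g⁻¹ e.1, gs g⁻¹ e.2) := by
  classical
  unfold be
  simp only [FF_gs hg]
  have h1 : adj e.1 e.2 ↔ adj (gs g⁻¹ e.1) (gs g⁻¹ e.2) := by
    constructor
    · exact hg _ _ _
    · intro h
      have := hg g _ _ h
      rwa [← gs_mul, ← gs_mul, mul_inv_cancel, gs_one, gs_one] at this
  have h2 : (∑ y, w (gs g⁻¹ y)) = ∑ y, w y :=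
    Fintype.sum_equiv (gsEquiv g⁻¹) _ _ fun y => rfl
  rw [h2]
  by_cases h : adj e.1 e.2 ∧ ord e.1.1 < ord e.2.1
  · rw [if_pos h, if_pos ⟨h1.1 h.1, h.2⟩]
  · rw [if_neg h, if_neg (fun h' => h ⟨h1.2 h'.1, h'.2⟩)]

lemma nu_gs (hg : ∀ g u v, adj u v → adj (gs g u) (gs g v)) (g : G) {m : ℕ} (w : B × G → ℝ)
    (c : Fin (m + 1) × G → ℝ) (i : Fin (m + 1)) (a : G) :
    nu adj r ord (fun y => w (gs g⁻¹ y)) (fun v => c (v.1, g⁻¹ * v.2)) (i, a) =
      nu adj r ord w c (i, g⁻¹ * a) := by
  classical
  unfold nu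
  simp only [al_gs hg, be_gs hg]
  congr 2
  · congr 1
    refine sum_bij (fun v _ => gs g⁻¹ v) ?_ ?_ ?_ ?_
    · intro v hv
      rw [mem_filter] at hv ⊢
      refine ⟨mem_univ _, ?_⟩
      simp only [gs, hv.2]
    · intro v _ v' _ h
      exact (gsEquiv g⁻¹).injective h
    · intro v hv
      refine ⟨gs g v, ?_, ?_⟩
      · rw [mem_filter] at hv ⊢
        refine ⟨mem_univ _, ?_⟩
        simp only [gs, hv.2, mul_inv_cancel_left]
      · rw [← gs_mul, inv_mul_cancel, gs_one]
    · intro v _
      rfl
  · congr 1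
    refine sum_bij (fun e _ => (gs g⁻¹ e.1, gs g⁻¹ e.2)) ?_ ?_ ?_ ?_
    · intro v hv
      rw [mem_filter] at hv ⊢
      refine ⟨mem_univ _, ?_⟩
      simp only [gs, hv.2]
    · intro v _ v' _ h
      simp only [Prod.mk.injEq] at h
      exact Prod.ext ((gsEquiv g⁻¹).injective h.1) ((gsEquiv g⁻¹).injective h.2)
    · intro v hv
      refine ⟨(gs g v.1, gs g v.2), ?_, ?_⟩
      · rw [mem_filter] at hv ⊢
        refine ⟨mem_univ _, ?_⟩
        simp only [gs, hv.2, mul_inv_cancel_left]
      · simp only
        rw [← gs_mul, ← gs_mul, inv_mul_cancel, gs_one, gs_one]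
    · intro v _
      rfl

lemma continuous_FF {A : Type*} [TopologicalSpace A] {w : A → B × G → ℝ}
    (hw : ∀ u, Continuous fun x => w x u) (u : B × G) :
    Continuous fun x => FF adj r (w x) u := by
  unfold FF
  exact continuous_finsetSum _ fun y _ => (hw y).mul continuous_const

lemma continuous_nu {A : Type*} [TopologicalSpace A] {w : A → B × G → ℝ} {m : ℕ}
    {c : A → Fin (m + 1) × G → ℝ} (hw : ∀ u, Continuous fun x => w x u)
    (hc : ∀ v, Continuous fun x => c x v) (v : Fin (m + 1) × G) :
    Continuous fun x => nu adj r ord (w x) (c x) v := by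
  classical
  have hF := fun u => continuous_FF (adj := adj) (r := r) hw u
  have hsum : Continuous fun x => ∑ y, w x y := continuous_finsetSum _ fun y _ => hw y
  have hal : ∀ u, Continuous fun x => al adj r (w x) u := by
    intro u
    unfold al
    refine (hsum.mul (continuous_finsetProd _ fun v _ => ?_)).mul ?_
    · exact continuous_const.max ((hF v).sub (hF u))
    · exact continuous_const.max (continuous_const.sub (hF u))
  have hbe : ∀ e, Continuous fun x => be adj r ord (w x) e := by
    intro e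
    unfold be
    split_ifs
    · refine (hsum.mul ?_).mul (Continuous.mul ?_ ?_)
      · exact continuous_const.max (continuous_const.sub ((hF e.1).sub (hF e.2)).abs)
      · exact continuous_const.max (continuous_const.sub (hF e.1))
      · exact continuous_const.max (continuous_const.sub (hF e.2))
    · exact continuous_const
  unfold nu
  refine (Continuous.add (Continuous.add ?_ ?_) (hc v))
  · split_ifs
    · exact continuous_finsetSum _ fun u _ => hal u
    · exact continuous_const
  · split_ifs
    · exact continuous_finsetSum _ fun e _ => hbe e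
    · exact continuous_const

/-- the relation between the images of two vertices of a face -/
def Near (adj : B × G → B × G → Prop) (r : ℕ) {m : ℕ} :
    (B × G) ⊕ (Fin (m + 1) × G) → (B × G) ⊕ (Fin (m + 1) × G) → Prop
  | Sum.inl a, Sum.inl b => dd adj (RR r) a b ≤ r
  | Sum.inr a, Sum.inr b => a.1 = b.1 → a = b
  | _, _ => False

/-- the action on the union -/
def sg {m : ℕ} (g : G) : (B × G) ⊕ (Fin (m + 1) × G) → (B × G) ⊕ (Fin (m + 1) × G)
  | Sum.inl a => Sum.inl (gs g a)
  | Sum.inr a => Sum.inr (a.1, g * a.2)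

lemma sg_sg {m : ℕ} (g h : G) (v : (B × G) ⊕ (Fin (m + 1) × G)) : sg g (sg h v) = sg (g * h) v := by
  rcases v with v | v
  · simp only [sg, gs_mul]
  · simp only [sg, mul_assoc]

lemma sg_one {m : ℕ} (v : (B × G) ⊕ (Fin (m + 1) × G)) : sg (1 : G) v = v := by
  rcases v with v | v
  · simp only [sg, gs_one]
  · simp only [sg, one_mul]

/-- Main theorem on maps to `E_m G`, `m ≥ 1`. -/
theorem exists_map (hs : ∀ u v, adj u v → adj v u)
    (hg : ∀ g u v, adj u v → adj (gs g u) (gs g v)) (hNB : NB adj L) (hL : 2 * RR r + 2 ≤ L)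
    {m : ℕ} (hm : 1 ≤ m) (X : GComplex G) (π : X.V → (B × G) ⊕ (Fin (m + 1) × G))
    (hπ : ∀ (g : G) v, π (g • v) = sg g (π v))
    (hface : ∀ s ∈ X.K.faces, ∀ p ∈ s, ∀ q ∈ s, Near adj r (π p) (π q)) :
    ∃ f : X.Realization → (E G m).Realization, Continuous f ∧ ∀ (g : G) x, f (g • x) = g • f x := by
  classical
  let ord : B → ℕ := fun b => (Fintype.equivFin B b).val
  have hord : Function.Injective ord := fun a b h => (Fintype.equivFin B).injective (Fin.ext h)
  let w : X.Realization → B × G → ℝ := fun x u => ∑ p, if π p = Sum.inl u then x.val p else 0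
  let c : X.Realization → Fin (m + 1) × G → ℝ := fun x v =>
    ∑ p, if π p = Sum.inr v then x.val p else 0
  have hw0 : ∀ x u, 0 ≤ w x u := fun x u => sum_nonneg fun p _ => by
    split_ifs
    · exact x.nonneg p
    · exact le_rfl
  have hc0 : ∀ x v, 0 ≤ c x v := fun x u => sum_nonneg fun p _ => by
    split_ifs
    · exact x.nonneg p
    · exact le_rfl
  have hw1 : ∀ x u, w x u ≠ 0 → ∃ p, x.val p ≠ 0 ∧ π p = Sum.inl u := by
    intro x u h
    obtain ⟨p, -, hp⟩ := exists_ne_zero_of_sum_ne_zero h
    by_cases h1 : π p = Sum.inl u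
    · rw [if_pos h1] at hp
      exact ⟨p, hp, h1⟩
    · rw [if_neg h1] at hp
      exact absurd rfl hp
  have hc1 : ∀ x v, c x v ≠ 0 → ∃ p, x.val p ≠ 0 ∧ π p = Sum.inr v := by
    intro x u h
    obtain ⟨p, -, hp⟩ := exists_ne_zero_of_sum_ne_zero h
    by_cases h1 : π p = Sum.inr u
    · rw [if_pos h1] at hp
      exact ⟨p, hp, h1⟩
    · rw [if_neg h1] at hp
      exact absurd rfl hp
  have hrel : ∀ (x : X.Realization) p q, x.val p ≠ 0 → x.val q ≠ 0 → Near adj r (π p) (π q) := by
    intro x p q hp hq
    obtain ⟨s, hs, h⟩ := x.supp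
    exact hface s hs p (h p hp) q (h q hq)
  have hsum : ∀ x, ∑ u, w x u + ∑ v, c x v = 1 := by
    intro x
    have e1 : ∑ u, w x u = ∑ p, ∑ u, if π p = Sum.inl u then x.val p else 0 := sum_comm
    have e2 : ∑ v, c x v = ∑ p, ∑ v, if π p = Sum.inr v then x.val p else 0 := sum_comm
    rw [e1, e2, ← sum_add_distrib, ← x.sum_eq]
    apply sum_congr rfl
    intro p _
    rcases hp : π p with a | a
    · have h1 : ∀ u, (if (Sum.inl a : (B × G) ⊕ (Fin (m + 1) × G)) = Sum.inl u then x.val p else 0)
          = if a = u then x.val p else 0 := by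
        intro u
        simp only [Sum.inl.injEq]
      have h2 : ∀ v : Fin (m + 1) × G,
          (if (Sum.inl a : (B × G) ⊕ (Fin (m + 1) × G)) = Sum.inr v then x.val p else 0) = 0 := by
        intro v
        rw [if_neg Sum.inl_ne_inr]
      simp only [h1, h2, sum_ite_eq, mem_univ, if_true, sum_const_zero, add_zero]
    · have h1 : ∀ u : Fin (m + 1) × G,
          (if (Sum.inr a : (B × G) ⊕ (Fin (m + 1) × G)) = Sum.inr u then x.val p else 0)
          = if a = u then x.val p else 0 := by
        intro u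
        simp only [Sum.inr.injEq]
      have h2 : ∀ v : B × G,
          (if (Sum.inr a : (B × G) ⊕ (Fin (m + 1) × G)) = Sum.inl v then x.val p else 0) = 0 := by
        intro v
        rw [if_neg Sum.inr_ne_inl]
      simp only [h1, h2, sum_ite_eq, mem_univ, if_true, sum_const_zero, zero_add]
  have hdat : ∀ x, Dat adj r (w x) (c x) := by
    intro x
    refine ⟨hw0 x, hc0 x, ?_, ?_⟩
    · intro i a b ha hb
      obtain ⟨p, hp, hp'⟩ := hc1 x _ ha
      obtain ⟨q, hq, hq'⟩ := hc1 x _ hb
      have := hrel x p q hp hq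
      rw [hp', hq'] at this
      exact congrArg Prod.snd (this rfl)
    · by_cases hz : ∀ u, w x u = 0
      · right
        refine ⟨hz, ?_⟩
        have := hsum x
        rw [sum_eq_zero (fun u _ => hz u), zero_add] at this
        rw [this]
        exact one_pos
      · left
        push Not at hz
        obtain ⟨u, hu⟩ := hz
        have hcz : ∀ v, c x v = 0 := by
          intro v
          by_contra hv
          obtain ⟨p, hp, hp'⟩ := hw1 x _ hu
          obtain ⟨q, hq, hq'⟩ := hc1 x _ hv
          have := hrel x p q hp hq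
          rw [hp', hq'] at this
          exact this
        refine ⟨⟨hw0 x, ?_, ?_⟩, hcz⟩
        · have := hsum x
          rw [sum_eq_zero (f := fun v => c x v) (fun v _ => hcz v), add_zero] at this
          exact this
        · intro u v hu hv
          obtain ⟨p, hp, hp'⟩ := hw1 x _ hu
          obtain ⟨q, hq, hq'⟩ := hw1 x _ hv
          have := hrel x p q hp hq
          rw [hp', hq'] at this
          exact this
  have hS : ∀ x, 0 < ∑ v, nu adj r ord (w x) (c x) v := fun x =>
    nu_pos hs hNB hL hord hm (hdat x)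
  have hn0 : ∀ x v, 0 ≤ nu adj r ord (w x) (c x) v := fun x => nu_nonneg (hw0 x) (hc0 x)
  let f : X.Realization → (E G m).Realization := fun x =>
    mkE (fun v => nu adj r ord (w x) (c x) v / ∑ v, nu adj r ord (w x) (c x) v)
      (fun v => div_nonneg (hn0 x v) (hS x).le)
      (by rw [← sum_div, div_self (hS x).ne'])
      (fun i a b ha hb => nu_rel hs hNB hL (hdat x) i a b (fun h => ha (by rw [h, zero_div]))
        (fun h => hb (by rw [h, zero_div])))
  have hfco : ∀ x v, co (f x) v = nu adj r ord (w x) (c x) v / ∑ v, nu adj r ord (w x) (c x) v :=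
    fun x v => rfl
  refine ⟨f, ?_, ?_⟩
  · rw [continuous_iff_co]
    intro v
    simp only [hfco]
    have hval : ∀ p, Continuous fun x : X.Realization => x.val p := fun p =>
      (continuous_apply p).comp (continuous_val X)
    have hwc : ∀ u, Continuous fun x => w x u := by
      intro u
      refine continuous_finsetSum _ fun p _ => ?_
      split_ifs
      · exact hval p
      · exact continuous_const
    have hcc : ∀ u, Continuous fun x => c x u := by
      intro u
      refine continuous_finsetSum _ fun p _ => ?_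
      split_ifs
      · exact hval p
      · exact continuous_const
    refine Continuous.div (continuous_nu hwc hcc v) ?_ (fun x => (hS x).ne')
    exact continuous_finsetSum _ fun v _ => continuous_nu hwc hcc v
  · intro g x
    have ew : w (g • x) = fun u => w x (gs g⁻¹ u) := by
      funext u
      refine Fintype.sum_equiv (MulAction.toPerm g⁻¹) _ _ fun p => ?_
      change (if π p = Sum.inl u then x.val (g⁻¹ • p) else 0) =
        if π (g⁻¹ • p) = Sum.inl (gs g⁻¹ u) then x.val (g⁻¹ • p) else 0
      have h1 : π (g⁻¹ • p) = Sum.inl (gs g⁻¹ u) ↔ π p = Sum.inl u := by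
        rw [hπ]
        constructor
        · intro h
          have h2 := congrArg (sg g) h
          rw [sg_sg, mul_inv_cancel, sg_one] at h2
          rw [h2]
          simp only [sg, ← gs_mul, mul_inv_cancel, gs_one]
        · intro h
          rw [h]
          rfl
      by_cases h : π p = Sum.inl u
      · rw [if_pos h, if_pos (h1.2 h)]
      · rw [if_neg h, if_neg (fun h' => h (h1.1 h'))]
    have ec : c (g • x) = fun v => c x (v.1, g⁻¹ * v.2) := by
      funext u
      refine Fintype.sum_equiv (MulAction.toPerm g⁻¹) _ _ fun p => ?_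
      change (if π p = Sum.inr u then x.val (g⁻¹ • p) else 0) =
        if π (g⁻¹ • p) = Sum.inr (u.1, g⁻¹ * u.2) then x.val (g⁻¹ • p) else 0
      have h1 : π (g⁻¹ • p) = Sum.inr (u.1, g⁻¹ * u.2) ↔ π p = Sum.inr u := by
        rw [hπ]
        constructor
        · intro h
          have h2 := congrArg (sg g) h
          rw [sg_sg, mul_inv_cancel, sg_one] at h2
          rw [h2]
          simp only [sg, mul_inv_cancel_left]
        · intro h
          rw [h]
          rfl
      by_cases h : π p = Sum.inr u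
      · rw [if_pos h, if_pos (h1.2 h)]
      · rw [if_neg h, if_neg (fun h' => h (h1.1 h'))]
    have hnug : ∀ i a, nu adj r ord (w (g • x)) (c (g • x)) (i, a) =
        nu adj r ord (w x) (c x) (i, g⁻¹ * a) := by
      intro i a
      rw [ew, ec]
      exact nu_gs hg g (w x) (c x) i a
    have hSg : ∑ v, nu adj r ord (w (g • x)) (c (g • x)) v = ∑ v, nu adj r ord (w x) (c x) v := by
      refine Fintype.sum_equiv
        ⟨fun v => (v.1, g⁻¹ * v.2), fun v => (v.1, g * v.2), fun v => by simp, fun v => by simp⟩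
        _ _ fun v => ?_
      exact hnug v.1 v.2
    apply co_ext
    intro i a
    rw [co_smul, hfco, hfco, hSg, hnug]

end

end Q151.XI
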