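import Mathlib
import Pool.Agent.Q151.XI.Map

/-!
# The posets of balls and the gaps between the indices
-/

set_option autoImplicit false

namespace Q151.XI

open Finset

variable {G : Type} [Group G]

lemma simp_aux (X Y : GComplex G) (f : X.V → Y.V)
    (h : ∀ s ∈ X.K.faces, ∀ t : Finset Y.V, (∀ v, v ∈ t ↔ ∃ u ∈ s, f u = v) → t.Nonempty →
      t ∈ Y.K.faces) : IsSimplicial X Y f := by
  classical
  intro s hs
  have hne : s.Nonempty := (X.K.isRelLowerSet_faces hs).1
  exact ⟨s.image f, h s hs _ (fun v => Finset.mem_image) (hne.image f),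
    fun v hv => Finset.mem_image_of_mem f hv⟩

lemma simp_to_E [Fintype G] (X : GComplex G) {k : ℕ} (f : X.V → Fin (k + 1) × G)
    (h : ∀ s ∈ X.K.faces, ∀ p ∈ s, ∀ q ∈ s, (f p).1 = (f q).1 → f p = f q) :
    IsSimplicial X (E G k) f := by
  refine simp_aux X (E G k) f ?_
  intro s hs t ht hne
  refine ⟨hne, ?_⟩
  intro p hp q hq hpq
  obtain ⟨a, ha, rfl⟩ := (ht p).1 hp
  obtain ⟨b, hb, rfl⟩ := (ht q).1 hq
  exact h s hs a ha b hb hpq

lemma simp_to_order (X : GComplex G) (P : GPoset G) (f : X.V → P.P)
    (h : ∀ s ∈ X.K.faces, ∀ p ∈ s, ∀ q ∈ s, f p ≤ f q ∨ f q ≤ f p) :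
    IsSimplicial X P.orderComplex f := by
  refine simp_aux X P.orderComplex f ?_
  intro s hs t ht hne
  refine ⟨hne, ?_⟩
  intro p hp q hq
  obtain ⟨a, ha, rfl⟩ := (ht p).1 hp
  obtain ⟨b, hb, rfl⟩ := (ht q).1 hq
  exact h s hs a ha b hb

lemma pair_face (P : GPoset G) (p q : P.P) (h : p ≤ q) :
    ∃ s ∈ P.orderComplex.K.faces, p ∈ s ∧ q ∈ s := by
  classical
  refine ⟨({p, q} : Finset P.P), ⟨⟨p, mem_insert_self _ _⟩, ?_⟩, mem_insert_self _ _,
    mem_insert_of_mem (mem_singleton_self _)⟩
  intro a ha b hb
  have ha' := mem_insert.1 ha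
  have hb' := mem_insert.1 hb
  rw [mem_singleton] at ha' hb'
  rcases ha' with rfl | rfl <;> rcases hb' with rfl | rfl
  · exact Or.inl le_rfl
  · exact Or.inl h
  · exact Or.inr h
  · exact Or.inl le_rfl

lemma rel_of_simp [Fintype G] {X : GComplex G} {k : ℕ} {f : X.V → (E G k).V}
    (hf : IsSimplicial X (E G k) f) {p q : X.V} (h : ∃ s ∈ X.K.faces, p ∈ s ∧ q ∈ s)
    (hpq : (f p : Fin (k + 1) × G).1 = (f q : Fin (k + 1) × G).1) : f p = f q := by
  obtain ⟨s, hs, hp, hq⟩ := h
  obtain ⟨t, ht, h'⟩ := hf s hs
  exact ht.2 _ (h' p hp) _ (h' q hq) hpq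

/-- an equivariant simplicial map induces an equivariant continuous map -/
theorem exists_real_map (X Y : GComplex G) (φ : X.V → Y.V)
    (hφ : IsSimplicial X Y φ) (hg : ∀ (g : G) v, φ (g • v) = g • φ v) :
    ∃ f : X.Realization → Y.Realization, Continuous f ∧ ∀ (g : G) x, f (g • x) = g • f x := by
  classical
  let f : X.Realization → Y.Realization := fun x =>
    { val := fun v => ∑ u, if φ u = v then x.val u else 0
      nonneg := fun v => sum_nonneg fun u _ => by
        split_ifs
        · exact x.nonneg u
        · exact le_rfl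
      sum_eq := by
        rw [sum_comm, ← x.sum_eq]
        apply sum_congr rfl
        intro u _
        simp
      supp := by
        obtain ⟨s, hs, h⟩ := x.supp
        obtain ⟨t, ht, h'⟩ := hφ s hs
        refine ⟨t, ht, fun v hv => ?_⟩
        obtain ⟨u, -, hu⟩ := exists_ne_zero_of_sum_ne_zero hv
        by_cases h1 : φ u = v
        · rw [if_pos h1] at hu
          rw [← h1]
          exact h' u (h u hu)
        · rw [if_neg h1] at hu
          exact absurd rfl hu }
  refine ⟨f, ?_, ?_⟩
  · rw [continuous_iff_val]
    intro v
    change Continuous fun x : X.Realization => ∑ u, if φ u = v then x.val u else 0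
    refine continuous_finsetSum _ fun u _ => ?_
    split_ifs
    · exact (continuous_apply u).comp (continuous_val X)
    · exact continuous_const
  · intro g x
    apply GComplex.Realization.ext
    funext v
    change (∑ u, if φ u = v then x.val (g⁻¹ • u) else 0) =
      ∑ u, if φ u = g⁻¹ • v then x.val u else 0
    refine Fintype.sum_equiv (MulAction.toPerm g⁻¹) _ _ fun u => ?_
    change (if φ u = v then x.val (g⁻¹ • u) else 0) =
      if φ (g⁻¹ • u) = g⁻¹ • v then x.val (g⁻¹ • u) else 0
    have h1 : φ (g⁻¹ • u) = g⁻¹ • v ↔ φ u = v := by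
      rw [hg]
      exact smul_left_cancel_iff _
    by_cases h : φ u = v
    · rw [if_pos h, if_pos (h1.2 h)]
    · rw [if_neg h, if_neg (fun h' => h (h1.1 h'))]

/-- lower bound for the index of a complex that receives `E_m G` -/
theorem ind_ge [Fintype G] (hG : 2 ≤ Fintype.card G) {m : ℕ} (Y : GComplex G)
    (φ : (E G m).V → Y.V) (hφ : IsSimplicial (E G m) Y φ)
    (hg : ∀ (g : G) v, φ (g • v) = g • φ v) : (m : ℕ∞) ≤ ind G Y.Realization := by
  refine le_sInf ?_
  rintro n ⟨k, rfl, f, hf, he⟩
  by_contra hlt
  have hk : k < m := by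
    by_contra hk
    push Not at hk
    exact hlt (by exact_mod_cast hk)
  obtain ⟨f', hf', he'⟩ := exists_real_map (E G m) Y φ hφ hg
  exact dold hG hk (f ∘ f') (hf.comp hf') (fun g x => by
    simp only [Function.comp_apply]
    rw [he', he])

section

variable [Fintype G] {B : Type} [Fintype B]

/-- The ground set: pairs (vertex, radius), together with `G × {0, …, m}`. -/
abbrev PT (G B : Type) (n m : ℕ) : Type := ((B × G) × Fin (n + 1)) ⊕ (G × Fin (m + 1))

/-- the order -/
def leP (adj : B × G → B × G → Prop) (n m : ℕ) : PT G B n m → PT G B n m → Prop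
  | Sum.inl p, Sum.inl q => p = q ∨ (p.2 < q.2 ∧ dd adj (RR n) p.1 q.1 + p.2.val ≤ q.2.val)
  | Sum.inr p, Sum.inr q => p = q ∨ p.2 < q.2
  | _, _ => False

/-- the partial order -/
@[reducible] def orderP (adj : B × G → B × G → Prop) (n m : ℕ) : PartialOrder (PT G B n m) where
  le := leP adj n m
  le_refl p := by
    rcases p with p | p
    · exact Or.inl rfl
    · exact Or.inl rfl
  le_trans p q t hpq hqt := by
    rcases p with p | p <;> rcases q with q | q <;> rcases t with t | t <;>
      try exact False.elim hpq
    all_goals try exact False.elim hqt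
    · rcases hpq with rfl | ⟨h1, h2⟩
      · exact hqt
      · rcases hqt with rfl | ⟨h3, h4⟩
        · exact Or.inr ⟨h1, h2⟩
        · right
          refine ⟨h1.trans h3, ?_⟩
          have := dd_tri (adj := adj) (R := RR n) p.1 q.1 t.1
          omega
    · rcases hpq with rfl | h1
      · exact hqt
      · rcases hqt with rfl | h3
        · exact Or.inr h1
        · exact Or.inr (h1.trans h3)
  le_antisymm p q hpq hqp := by
    rcases p with p | p <;> rcases q with q | q <;> try exact False.elim hpq
    · rcases hpq with h | ⟨h1, -⟩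
      · rw [h]
      · rcases hqp with h | ⟨h2, -⟩
        · rw [h]
        · exact absurd (h1.trans h2) (lt_irrefl _)
    · rcases hpq with h | h1
      · rw [h]
      · rcases hqp with h | h2
        · rw [h]
        · exact absurd (h1.trans h2) (lt_irrefl _)

/-- the action -/
def smP {n m : ℕ} (g : G) : PT G B n m → PT G B n m
  | Sum.inl p => Sum.inl (gs g p.1, p.2)
  | Sum.inr p => Sum.inr (g * p.1, p.2)

/-- the action -/
@[reducible] def actP (n m : ℕ) : MulAction G (PT G B n m) where
  smul := smP
  one_smul p := by
    rcases p with p | p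
    · change Sum.inl (gs (1 : G) p.1, p.2) = Sum.inl p
      rw [gs_one]
    · change Sum.inr ((1 : G) * p.1, p.2) = Sum.inr p
      rw [one_mul]
  mul_smul g h p := by
    rcases p with p | p
    · change Sum.inl (gs (g * h) p.1, p.2) = Sum.inl (gs g (gs h p.1), p.2)
      rw [gs_mul]
    · change Sum.inr ((g * h) * p.1, p.2) = Sum.inr (g * (h * p.1), p.2)
      rw [mul_assoc]

/-- the `G`-poset -/
@[reducible] def ballPoset (adj : B × G → B × G → Prop)
    (hg : ∀ g u v, adj u v → adj (gs g u) (gs g v)) (n m : ℕ) : GPoset G :=
  letI := orderP (G := G) adj n m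
  letI := actP (G := G) (B := B) n m
  { P := PT G B n m
    smul_le := by
      intro g p q hpq
      rcases p with p | p <;> rcases q with q | q <;> try exact False.elim hpq
      · rcases hpq with h | ⟨h1, h2⟩
        · rw [h]
        · right
          refine ⟨h1, ?_⟩
          change dd adj (RR n) (gs g p.1) (gs g q.1) + p.2.val ≤ q.2.val
          rw [dd_gs hg]
          exact h2
      · rcases hpq with h | h1
        · rw [h]
        · exact Or.inr h1 }

variable {adj : B × G → B × G → Prop}

/-- Pigeonhole: there is no map to fewer levels. -/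
theorem no_levels {n k : ℕ} (hk : k < n)
    (hlab : NoLab adj (Fintype.card (Fin (n + 1) × Fin (n + 1) × Fin (n + 1))))
    (lev : (B × G) × Fin (n + 1) → Fin (k + 1)) (lab : (B × G) × Fin (n + 1) → G)
    (hlev : ∀ g x i, lev (gs g x, i) = lev (x, i))
    (hlabg : ∀ g x i, lab (gs g x, i) = g * lab (x, i))
    (hcomp : ∀ x y i j, i < j → dd adj (RR n) x y + i.val ≤ j.val →
      lev (x, i) = lev (y, j) → lab (x, i) = lab (y, j)) : False := by
  classical
  have hpig : ∀ F : Fin (n + 1) → Fin (k + 1), ∃ q : Fin (n + 1) × Fin (n + 1),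
      q.1 < q.2 ∧ F q.1 = F q.2 := by
    intro F
    obtain ⟨i, j, hij, h⟩ := Fintype.exists_ne_map_eq_of_card_lt F (by simpa using hk)
    rcases lt_or_gt_of_ne hij with h1 | h1
    · exact ⟨(i, j), h1, h⟩
    · exact ⟨(j, i), h1, h.symm⟩
  choose pick hpick1 hpick2 using hpig
  let F : B × G → Fin (n + 1) → Fin (k + 1) := fun x i => lev (x, i)
  have hF : ∀ g x, F (gs g x) = F x := fun g x => funext fun i => hlev g x i
  let c : B × G → Fin (Fintype.card (Fin (n + 1) × Fin (n + 1) × Fin (n + 1))) := fun x =>
    Fintype.equivFin _ ((pick (F x)).1, (pick (F x)).2, Fin.castLE (by omega) (F x (pick (F x)).1))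
  obtain ⟨u, v, huv, hc, hh⟩ := hlab c (fun x => lab (x, (pick (F x)).1))
    (fun g x => by simp only [c, hF]) (fun g x => by simp only [hF, hlabg])
  apply hh
  have h1 := (Fintype.equivFin _).injective hc
  simp only [Prod.mk.injEq] at h1
  obtain ⟨e1, e2, e3⟩ := h1
  have e3' : F u (pick (F u)).1 = F v (pick (F v)).1 := by
    have := congrArg Fin.val e3
    exact Fin.ext this
  have hd := dd_adj (R := RR n) huv
  -- compare `(u, i)` and `(v, i')`
  have s1 : lab (u, (pick (F u)).1) = lab (v, (pick (F v)).2) := by
    apply hcomp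
    · rw [e1]
      exact hpick1 _
    · have := hpick1 (F v)
      rw [e1]
      have h2 : (pick (F v)).1.val < (pick (F v)).2.val := this
      omega
    · exact e3'.trans (hpick2 (F v))
  have s2 : lab (v, (pick (F v)).1) = lab (v, (pick (F v)).2) := by
    apply hcomp
    · exact hpick1 _
    · have h2 : (pick (F v)).1.val < (pick (F v)).2.val := hpick1 (F v)
      rw [dd_self]
      omega
    · exact hpick2 (F v)
  change lab (u, (pick (F u)).1) = lab (v, (pick (F v)).1)
  rw [s1, s2]

end

/-- The main construction: all three indices of one poset. -/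
theorem exists_poset (G : Type) [Group G] [Fintype G] (hG : 2 ≤ Fintype.card G) (m n : ℕ)
    (hm : 1 ≤ m) (hmn : m < n) : ∃ P : GPoset G, P.IsFree ∧
      ind G P.orderComplex.Realization = m ∧ Xind P = n ∧ sind P.orderComplex = n := by
  classical
  obtain ⟨Δ, hΔ⟩ := exists_cover G (by rwa [Nat.card_eq_fintype_card])
    (Fintype.card (Fin (n + 1) × Fin (n + 1) × Fin (n + 1))) Fintype.card_pos
  obtain ⟨B, hB, adj, hne, hs, hg, hNB, hlab, -⟩ := hΔ (2 * RR n + 2)
  letI : Fintype B := Fintype.ofFinite B
  refine ⟨ballPoset adj hg n m, ?_, ?_, ?_, ?_⟩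
  · -- free
    intro g p hp
    rcases p with p | p
    · have h1 : (Sum.inl (gs g p.1, p.2) : PT G B n m) = Sum.inl p := hp
      have h2 := Sum.inl.inj h1
      have h3 : gs g p.1 = p.1 := congrArg Prod.fst h2
      have h4 : g * p.1.2 = p.1.2 := congrArg Prod.snd h3
      exact mul_eq_right.1 h4
    · have h1 : (Sum.inr (g * p.1, p.2) : PT G B n m) = Sum.inr p := hp
      have h2 := Sum.inr.inj h1
      have h3 : g * p.1 = p.1 := congrArg Prod.fst h2
      exact mul_eq_right.1 h3
  · -- the index
    apply le_antisymm
    · apply sInf_le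
      refine ⟨m, rfl, ?_⟩
      refine exists_map (adj := adj) (r := n) hs hg hNB le_rfl hm _
        (fun p : PT G B n m => match p with
          | Sum.inl p => Sum.inl p.1
          | Sum.inr p => Sum.inr (p.2, p.1)) ?_ ?_
      · intro g p
        rcases p with p | p
        · rfl
        · rfl
      · intro s hs' p hp q hq
        have h := hs'.2 p hp q hq
        rcases p with p | p <;> rcases q with q | q
        · change dd adj (RR n) p.1 q.1 ≤ n
          rcases h with h | h
          · rcases h with h | ⟨_, h⟩
            · rw [h, dd_self]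
              exact Nat.zero_le _
            · have := q.2.2
              omega
          · rcases h with h | ⟨_, h⟩
            · rw [h, dd_self]
              exact Nat.zero_le _
            · have := p.2.2
              rw [dd_symm hs]
              omega
        · rcases h with h | h
          · exact False.elim h
          · exact False.elim h
        · rcases h with h | h
          · exact False.elim h
          · exact False.elim h
        · change p.2 = q.2 → (p.2, p.1) = (q.2, q.1)
          intro hpq
          rcases h with h | h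
          · rcases h with h | h
            · rw [h]
            · rw [hpq] at h
              exact absurd h (lt_irrefl _)
          · rcases h with h | h
            · rw [h]
            · rw [hpq] at h
              exact absurd h (lt_irrefl _)
    · refine ind_ge hG _ (fun v : Fin (m + 1) × G => (Sum.inr (v.2, v.1) : PT G B n m)) ?_ ?_
      · refine simp_to_order (E G m) (ballPoset adj hg n m)
          (fun v : Fin (m + 1) × G => (Sum.inr (v.2, v.1) : PT G B n m)) ?_
        rintro s ⟨hs1, hs2⟩ a ha b hb
        rcases lt_trichotomy a.1 b.1 with h | h | h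
        · exact Or.inl (Or.inr h)
        · rw [hs2 a ha b hb h]
          exact Or.inl (Or.inl rfl)
        · exact Or.inr (Or.inr h)
      · intro g v
        rfl
  · -- the cross-index
    apply le_antisymm
    · apply sInf_le
      refine ⟨n, rfl, (fun p : PT G B n m => match p with
          | Sum.inl p => (p.1.2, p.2)
          | Sum.inr p => (p.1, Fin.castLE (by omega) p.2)), ?_, ?_⟩
      · intro p q h
        rcases p with p | p <;> rcases q with q | q <;> try exact False.elim h
        · rcases h with h | ⟨h, _⟩
          · rw [h]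
          · exact Or.inr h
        · rcases h with h | h
          · rw [h]
          · exact Or.inr h
      · intro g p
        rcases p with p | p
        · rfl
        · rfl
    · refine le_sInf ?_
      rintro _ ⟨k, rfl, f, hf, he⟩
      by_contra hlt
      have hk : k < n := by
        by_contra hk
        push Not at hk
        exact hlt (by exact_mod_cast hk)
      let f' : PT G B n m → G × Fin (k + 1) := f
      refine no_levels hk hlab (fun p => (f' (Sum.inl p)).2) (fun p => (f' (Sum.inl p)).1) ?_ ?_ ?_
      · intro g x i
        have : f' (Sum.inl (gs g x, i)) = (g * (f' (Sum.inl (x, i))).1, (f' (Sum.inl (x, i))).2) :=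
          he g (Sum.inl (x, i))
        simp only [this]
      · intro g x i
        have : f' (Sum.inl (gs g x, i)) = (g * (f' (Sum.inl (x, i))).1, (f' (Sum.inl (x, i))).2) :=
          he g (Sum.inl (x, i))
        simp only [this]
      · intro x y i j hij hd hl
        have h1 := hf (Sum.inl (x, i)) (Sum.inl (y, j)) (Or.inr ⟨hij, hd⟩)
        rcases h1 with h1 | h1
        · exact congrArg Prod.fst (show f' (Sum.inl (x, i)) = f' (Sum.inl (y, j)) from h1)
        · exact absurd hl (ne_of_lt h1)
  · -- the simplicial index
    apply le_antisymm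
    · apply sInf_le
      let φ : PT G B n m → Fin (n + 1) × G := fun p => match p with
          | Sum.inl p => (p.2, p.1.2)
          | Sum.inr p => (Fin.castLE (by omega) p.2, p.1)
      refine ⟨n, rfl, φ, ?_, ?_⟩
      · refine simp_to_E (ballPoset adj hg n m).orderComplex φ ?_
        intro s hs' a ha b hb hpq
        have key : ∀ a b : PT G B n m, leP adj n m a b → (φ a).1 = (φ b).1 → a = b := by
          intro a b h hl
          rcases a with p | p <;> rcases b with q | q <;> try exact False.elim h
          · rcases h with h | ⟨h, _⟩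
            · rw [h]
            · exact absurd hl (ne_of_lt h)
          · rcases h with h | h
            · rw [h]
            · exact absurd (congrArg Fin.val hl) (ne_of_lt (show p.2.val < q.2.val from h))
        rcases hs'.2 a ha b hb with h | h
        · rw [key a b h hpq]
        · rw [key b a h hpq.symm]
      · intro g p
        rcases p with p | p
        · rfl
        · rfl
    · refine le_sInf ?_
      rintro _ ⟨k, rfl, f, hf, he⟩
      by_contra hlt
      have hk : k < n := by
        by_contra hk
        push Not at hk
        exact hlt (by exact_mod_cast hk)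
      let f' : PT G B n m → Fin (k + 1) × G := f
      refine no_levels hk hlab (fun p => (f' (Sum.inl p)).1) (fun p => (f' (Sum.inl p)).2) ?_ ?_ ?_
      · intro g x i
        have : f' (Sum.inl (gs g x, i)) = ((f' (Sum.inl (x, i))).1, g * (f' (Sum.inl (x, i))).2) :=
          he g (Sum.inl (x, i))
        simp only [this]
      · intro g x i
        have : f' (Sum.inl (gs g x, i)) = ((f' (Sum.inl (x, i))).1, g * (f' (Sum.inl (x, i))).2) :=
          he g (Sum.inl (x, i))
        simp only [this]
      · intro x y i j hij hd hl
        have h2 := rel_of_simp (X := (ballPoset adj hg n m).orderComplex) hf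
          (pair_face (ballPoset adj hg n m) (Sum.inl (x, i)) (Sum.inl (y, j)) (Or.inr ⟨hij, hd⟩)) hl
        exact congrArg Prod.snd h2

end Q151.XI
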