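import Mathlib
import Pool.Agent.Q151.XI.Poset

/-!
# Complexes of balls and the cross-index of face posets
-/

set_option autoImplicit false

namespace Q151.XI

open Finset

variable {G : Type} [Group G]

section

variable [Fintype G] {B : Type} [Fintype B]

/-- the action on finite sets of vertices -/
def gsF (g : G) (s : Finset (B × G)) : Finset (B × G) := s.map (gsEquiv g).toEmbedding

lemma mem_gsF {g : G} {s : Finset (B × G)} {p : B × G} : p ∈ gsF g s ↔ gs g⁻¹ p ∈ s := by
  unfold gsF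
  rw [mem_map]
  constructor
  · rintro ⟨q, hq, rfl⟩
    change gs g⁻¹ (gs g q) ∈ s
    rw [← gs_mul, inv_mul_cancel, gs_one]
    exact hq
  · intro h
    refine ⟨gs g⁻¹ p, h, ?_⟩
    change gs g (gs g⁻¹ p) = p
    rw [← gs_mul, mul_inv_cancel, gs_one]

lemma gsF_one (s : Finset (B × G)) : gsF (1 : G) s = s := by
  ext p
  rw [mem_gsF, inv_one, gs_one]

lemma gsF_mul (g h : G) (s : Finset (B × G)) : gsF (g * h) s = gsF g (gsF h s) := by
  ext p
  rw [mem_gsF, mem_gsF, mem_gsF, ← gs_mul, mul_inv_rev]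

lemma gsF_mono {g : G} {s t : Finset (B × G)} (h : s ⊆ t) : gsF g s ⊆ gsF g t := by
  intro p hp
  rw [mem_gsF] at hp ⊢
  exact h hp

lemma card_gsF (g : G) (s : Finset (B × G)) : (gsF g s).card = s.card := card_map _

lemma gsF_nonempty {g : G} {s : Finset (B × G)} (h : s.Nonempty) : (gsF g s).Nonempty := h.map

variable (adj : B × G → B × G → Prop) (n : ℕ)

/-- the nonempty subsets of balls of radius `n` -/
def BF (s : Finset (B × G)) : Prop :=
  s.Nonempty ∧ ∃ c, ∀ p ∈ s, dd adj (RR (2 * n)) c p ≤ n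

/-- invariant families of faces -/
structure Fam (Φ : Finset (B × G) → Prop) : Prop where
  ball : ∀ s, Φ s → BF adj n s
  down : ∀ s t, Φ s → t ⊆ s → t.Nonempty → Φ t
  sing : ∀ v, Φ {v}
  inv : ∀ g s, Φ s → Φ (gsF g s)

omit [Fintype G] [Fintype B] in
/-- a consistent labelling of the faces with `k + 1` levels -/
def GoodL (Φ : Finset (B × G) → Prop) (k : ℕ) : Prop :=
  ∃ (lev : Finset (B × G) → ℕ) (lab : Finset (B × G) → G), (∀ s, Φ s → lev s ≤ k) ∧
    (∀ g s, Φ s → lev (gsF g s) = lev s ∧ lab (gsF g s) = g * lab s) ∧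
    ∀ s t, Φ s → Φ t → s ⊆ t → (lev s = lev t ∧ lab s = lab t) ∨ lev s < lev t

variable {adj n}

lemma BF_fam (hs : ∀ u v, adj u v → adj v u)
    (hg : ∀ g u v, adj u v → adj (gs g u) (gs g v)) : Fam adj n (BF adj n) := by
  refine ⟨fun s h => h, ?_, ?_, ?_⟩
  · rintro s t ⟨-, c, hc⟩ hts ht
    exact ⟨ht, c, fun p hp => hc p (hts hp)⟩
  · intro v
    refine ⟨singleton_nonempty v, v, ?_⟩
    intro p hp
    rw [mem_singleton] at hp
    rw [hp, dd_self]
    exact Nat.zero_le _
  · rintro g s ⟨hne, c, hc⟩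
    refine ⟨gsF_nonempty hne, gs g c, ?_⟩
    intro p hp
    rw [mem_gsF] at hp
    have h1 := hc _ hp
    have h2 := dd_gs (R := RR (2 * n)) hg g c (gs g⁻¹ p)
    rw [← gs_mul, mul_inv_cancel, gs_one] at h2
    rw [h2]
    exact h1

lemma BF_diam (hs : ∀ u v, adj u v → adj v u) {s : Finset (B × G)} (h : BF adj n s)
    {p q : B × G} (hp : p ∈ s) (hq : q ∈ s) : dd adj (RR (2 * n)) p q ≤ 2 * n := by
  obtain ⟨-, c, hc⟩ := h
  have h1 := hc p hp
  have h2 := hc q hq
  have h3 := dd_tri (adj := adj) (R := RR (2 * n)) p c q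
  rw [dd_symm hs p c] at h3
  omega

/-- two vertices of a face over the same base point coincide -/
lemma BF_inj (hs : ∀ u v, adj u v → adj v u) {L : ℕ} (hNB : NB adj L)
    (hL : 2 * RR (2 * n) + 2 ≤ L) {s : Finset (B × G)} (h : BF adj n s)
    {p q : B × G} (hp : p ∈ s) (hq : q ∈ s) (hpq : p.1 = q.1) : p = q := by
  refine eq_of_fst (R := RR (2 * n)) L hNB (by omega) ?_ hpq
  have := BF_diam hs h hp hq
  unfold RR at *
  omega

/-- the label of the vertex with the smallest base point -/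
lemma exists_lab0 (hs : ∀ u v, adj u v → adj v u) {L : ℕ}
    (hNB : NB adj L) (hL : 2 * RR (2 * n) + 2 ≤ L)
    (hg : ∀ g u v, adj u v → adj (gs g u) (gs g v)) :
    ∃ lab0 : Finset (B × G) → G, ∀ g s, BF adj n s → lab0 (gsF g s) = g * lab0 s := by
  classical
  let ord : B → ℕ := fun b => (Fintype.equivFin B b).val
  have hord : Function.Injective ord := fun a b h => (Fintype.equivFin B).injective (Fin.ext h)
  have hex : ∀ s : Finset (B × G), s.Nonempty → ∃ p ∈ s, ∀ q ∈ s, ord p.1 ≤ ord q.1 :=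
    fun s hs => exists_min_image s (fun p => ord p.1) hs
  refine ⟨fun s => if h : ∃ p ∈ s, ∀ q ∈ s, ord p.1 ≤ ord q.1 then h.choose.2 else 1, ?_⟩
  intro g s hsB
  have h1 := hex s hsB.1
  have hsB' : BF adj n (gsF g s) := (BF_fam hs hg).inv g s hsB
  have h2 := hex (gsF g s) hsB'.1
  simp only [dif_pos h1, dif_pos h2]
  obtain ⟨a1, a2⟩ := h1.choose_spec
  obtain ⟨b1, b2⟩ := h2.choose_spec
  have c1 : gs g h1.choose ∈ gsF g s := by
    rw [mem_gsF, ← gs_mul, inv_mul_cancel, gs_one]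
    exact a1
  have c2 : ord h2.choose.1 ≤ ord (gs g h1.choose).1 := b2 _ c1
  have c3 : ord h1.choose.1 ≤ ord (gs g⁻¹ h2.choose).1 := a2 _ (mem_gsF.1 b1)
  have c4 : h2.choose = gs g h1.choose :=
    BF_inj hs hNB hL hsB' b1 c1 (hord (le_antisymm c2 c3))
  rw [c4]
  rfl

/-- the ball -/
noncomputable def bal (adj : B × G → B × G → Prop) (n : ℕ) (x : B × G) (i : ℕ) :
    Finset (B × G) := by
  classical exact univ.filter fun p => dd adj (RR (2 * n)) x p ≤ i

lemma mem_bal {x p : B × G} {i : ℕ} : p ∈ bal adj n x i ↔ dd adj (RR (2 * n)) x p ≤ i := by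
  classical
  simp [bal]

lemma bal_BF (x : B × G) {i : ℕ} (hi : i ≤ n) : BF adj n (bal adj n x i) := by
  refine ⟨⟨x, ?_⟩, x, fun p hp => ?_⟩
  · rw [mem_bal, dd_self]
    exact Nat.zero_le _
  · rw [mem_bal] at hp
    omega

lemma gsF_bal (hg : ∀ g u v, adj u v → adj (gs g u) (gs g v)) (g : G) (x : B × G) (i : ℕ) :
    gsF g (bal adj n x i) = bal adj n (gs g x) i := by
  ext p
  rw [mem_gsF, mem_bal, mem_bal]
  have h2 := dd_gs (R := RR (2 * n)) hg g x (gs g⁻¹ p)
  rw [← gs_mul, mul_inv_cancel, gs_one] at h2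
  rw [h2]

/-- the faces of the full complex have no labelling with few levels -/
lemma full_not_good (hs : ∀ u v, adj u v → adj v u)
    (hg : ∀ g u v, adj u v → adj (gs g u) (gs g v))
    (hlab : NoLab adj (Fintype.card (Fin (n + 1) × Fin (n + 1) × Fin (n + 1)))) {k : ℕ}
    (hk : k < n) : ¬ GoodL (BF adj n) k := by
  rintro ⟨lev, lab, hk', h1, h2⟩
  have hb : ∀ (x : B × G) (i : Fin (n + 1)), BF adj n (bal adj n x i.val) := fun x i =>
    bal_BF x (by omega)
  refine no_levels hk hlab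
    (fun p => ⟨lev (bal adj n p.1 p.2.val), Nat.lt_succ_of_le (hk' _ (hb _ _))⟩)
    (fun p => lab (bal adj n p.1 p.2.val)) ?_ ?_ ?_
  · intro g x i
    apply Fin.ext
    simp only
    rw [← gsF_bal hg]
    exact (h1 g _ (hb x i)).1
  · intro g x i
    simp only
    rw [← gsF_bal hg]
    exact (h1 g _ (hb x i)).2
  · intro x y i j hij hd hl
    have hl' : lev (bal adj n x i.val) = lev (bal adj n y j.val) := congrArg Fin.val hl
    have hd' : dd adj (RR (2 * n)) x y ≤ dd adj (RR n) x y := by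
      apply dd_le_of_wk
      apply wk_of_dd_lt
      have := j.2
      unfold RR
      unfold RR at hd
      omega
    have hsub : bal adj n x i.val ⊆ bal adj n y j.val := by
      intro p hp
      rw [mem_bal] at hp ⊢
      have h3 := dd_tri (adj := adj) (R := RR (2 * n)) y x p
      rw [dd_symm hs y x] at h3
      omega
    rcases h2 _ _ (hb x i) (hb y j) hsub with h | h
    · exact h.2
    · omega

/-- the number of faces -/
noncomputable def cnt (Φ : Finset (B × G) → Prop) : ℕ := by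
  classical exact (univ.filter fun s : Finset (B × G) => Φ s).card

lemma cnt_lt {Φ Ψ : Finset (B × G) → Prop} (h : ∀ s, Ψ s → Φ s) {σ : Finset (B × G)}
    (h1 : Φ σ) (h2 : ¬ Ψ σ) : cnt Ψ < cnt Φ := by
  classical
  unfold cnt
  apply card_lt_card
  rw [ssubset_iff_of_subset]
  · refine ⟨σ, mem_filter.2 ⟨mem_univ _, h1⟩, ?_⟩
    rw [mem_filter]
    rintro ⟨-, h⟩
    exact h2 h
  · intro s hs
    rw [mem_filter] at hs ⊢
    exact ⟨hs.1, h s hs.2⟩

/-- An invariant family of faces whose cross-index is exactly `n`. -/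
theorem exists_fam (hs : ∀ u v, adj u v → adj v u)
    (hg : ∀ g u v, adj u v → adj (gs g u) (gs g v)) {L : ℕ}
    (hNB : NB adj L) (hL : 2 * RR (2 * n) + 2 ≤ L)
    (hlab : NoLab adj (Fintype.card (Fin (n + 1) × Fin (n + 1) × Fin (n + 1)))) (hn : 1 ≤ n) :
    ∃ Φ : Finset (B × G) → Prop, Fam adj n Φ ∧ GoodL Φ n ∧ ∀ k < n, ¬ GoodL Φ k := by
  classical
  obtain ⟨lab0, hlab0⟩ := exists_lab0 (n := n) hs hNB hL hg
  -- minimal number of faces
  have hex : ∃ N : ℕ, ∃ Φ : Finset (B × G) → Prop, Fam adj n Φ ∧ ¬ GoodL Φ (n - 1) ∧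
      cnt Φ = N :=
    ⟨_, BF adj n, BF_fam hs hg, full_not_good hs hg hlab (by omega), rfl⟩
  obtain ⟨Φ, hΦ, hbad, hcard⟩ := Nat.find_spec hex
  have hmin : ∀ Ψ : Finset (B × G) → Prop, Fam adj n Ψ →
      cnt Ψ < cnt Φ → GoodL Ψ (n - 1) := by
    intro Ψ hΨ hlt
    by_contra hcon
    rw [hcard] at hlt
    exact Nat.find_min hex hlt ⟨Ψ, hΨ, hcon, rfl⟩
  have hmono : ∀ k < n, ¬ GoodL Φ k := by
    rintro k hk ⟨lev, lab, h1, h2, h3⟩
    exact hbad ⟨lev, lab, fun s hs => (h1 s hs).trans (by omega), h2, h3⟩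
  refine ⟨Φ, hΦ, ?_, hmono⟩
  -- a face of maximal cardinality
  obtain ⟨b0⟩ : Nonempty (B × G) := by
    by_contra hcon
    rw [not_nonempty_iff] at hcon
    apply hbad
    refine ⟨fun _ => 0, lab0, fun _ _ => Nat.zero_le _, fun g s h => ⟨rfl, hlab0 g s (hΦ.ball s h)⟩,
      fun s t hs ht hst => ?_⟩
    obtain ⟨p, _⟩ := (hΦ.ball s hs).1
    exact (IsEmpty.false p).elim
  obtain ⟨σ, hσ, hmax⟩ := exists_max_image (univ.filter fun s : Finset (B × G) => Φ s)
    (fun s => s.card) ⟨{b0}, mem_filter.2 ⟨mem_univ _, hΦ.sing b0⟩⟩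
  have hσΦ : Φ σ := (mem_filter.1 hσ).2
  have hmax' : ∀ s, Φ s → s.card ≤ σ.card := fun s hs => hmax s (mem_filter.2 ⟨mem_univ _, hs⟩)
  -- the maximal cardinality is at least two
  have h2 : 2 ≤ σ.card := by
    by_contra hcon
    push Not at hcon
    apply hbad
    refine ⟨fun _ => 0, lab0, fun _ _ => Nat.zero_le _, fun g s h => ⟨rfl, hlab0 g s (hΦ.ball s h)⟩,
      fun s t hs ht hst => ?_⟩
    left
    refine ⟨rfl, ?_⟩
    have h3 := hmax' t ht
    have h4 : 0 < s.card := card_pos.2 (hΦ.ball s hs).1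
    rw [eq_of_subset_of_card_le hst (by omega)]
  -- remove the orbit of `σ`
  let Ψ : Finset (B × G) → Prop := fun s => Φ s ∧ ∀ g, s ≠ gsF g σ
  have hΨ : Fam adj n Ψ := by
    refine ⟨fun s h => hΦ.ball s h.1, ?_, ?_, ?_⟩
    · rintro s t ⟨h, h'⟩ hts ht
      refine ⟨hΦ.down s t h hts ht, fun g hg' => ?_⟩
      apply h' g
      rw [← hg']
      symm
      apply eq_of_subset_of_card_le hts
      rw [hg', card_gsF]
      exact hmax' s h
    · intro v
      refine ⟨hΦ.sing v, fun g h => ?_⟩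
      have := congrArg card h
      rw [card_gsF, card_singleton] at this
      omega
    · rintro g s ⟨h, h'⟩
      refine ⟨hΦ.inv g s h, fun g' hg' => ?_⟩
      apply h' (g⁻¹ * g')
      rw [gsF_mul, ← hg', ← gsF_mul, inv_mul_cancel, gsF_one]
  obtain ⟨lev, lab, g1, g2, g3⟩ := hmin Ψ hΨ
    (cnt_lt (fun s h => h.1) hσΦ fun h => h.2 1 (gsF_one σ).symm)
  -- extend the labelling
  refine ⟨fun s => if Ψ s then lev s else n, fun s => if Ψ s then lab s else lab0 s, ?_, ?_, ?_⟩
  · intro s hs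
    simp only
    split_ifs with h
    · exact (g1 s h).trans (by omega)
    · exact le_rfl
  · intro g s hs
    simp only
    by_cases h : Ψ s
    · rw [if_pos h, if_pos (hΨ.inv g s h), if_pos h, if_pos (hΨ.inv g s h)]
      exact g2 g s h
    · have h' : ¬ Ψ (gsF g s) := by
        intro h'
        apply h
        have := hΨ.inv g⁻¹ _ h'
        rwa [← gsF_mul, inv_mul_cancel, gsF_one] at this
      rw [if_neg h, if_neg h', if_neg h, if_neg h']
      exact ⟨rfl, hlab0 g s (hΦ.ball s hs)⟩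
  · intro s t hs ht hst
    simp only
    by_cases h : Ψ s
    · by_cases h' : Ψ t
      · rw [if_pos h, if_pos h', if_pos h, if_pos h']
        exact g3 s t h h' hst
      · right
        rw [if_pos h, if_neg h']
        have := g1 s h
        omega
    · have hsσ : ∃ g, s = gsF g σ := by
        by_contra hcon
        push Not at hcon
        exact h ⟨hs, hcon⟩
      obtain ⟨g, hg'⟩ := hsσ
      have hst' : s = t := by
        apply eq_of_subset_of_card_le hst
        rw [hg', card_gsF]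
        exact hmax' t ht
      left
      rw [hst']
      exact ⟨rfl, rfl⟩

end

end Q151.XI
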