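import Mathlib
import Pool.Agent.Q151.XI.Balls

/-!
# The cross-index of face posets
-/

set_option autoImplicit false

namespace Q151.XI

open Finset

variable {G : Type} [Group G] [Fintype G] {B : Type} [Fintype B]

/-- faces of the disjoint union -/
def CF (Φ : Finset (B × G) → Prop) (m : ℕ) (s : Finset ((B × G) ⊕ (Fin (m + 1) × G))) : Prop :=
  (s.toRight = ∅ ∧ Φ s.toLeft) ∨
  (s.toLeft = ∅ ∧ s.toRight.Nonempty ∧ ∀ p ∈ s.toRight, ∀ q ∈ s.toRight, p.1 = q.1 → p = q)

/-- the action -/
@[reducible] def sgAction (G B : Type) [Group G] [Fintype G] [Fintype B] (m : ℕ) :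
    MulAction G ((B × G) ⊕ (Fin (m + 1) × G)) where
  smul := sg
  one_smul := sg_one
  mul_smul := fun g h v => (sg_sg g h v).symm

lemma CF_down {Φ : Finset (B × G) → Prop} (hd : ∀ s t, Φ s → t ⊆ s → t.Nonempty → Φ t) {m : ℕ}
    {s t : Finset ((B × G) ⊕ (Fin (m + 1) × G))} (hs : CF Φ m s) (hts : t ⊆ s)
    (ht : t.Nonempty) : CF Φ m t := by
  rcases hs with ⟨h1, h2⟩ | ⟨h1, h2, h3⟩
  · left
    have h4 : t.toRight = ∅ := by
      rw [← subset_empty, ← h1]
      exact toRight_subset_toRight hts
    refine ⟨h4, hd _ _ h2 (toLeft_subset_toLeft hts) ?_⟩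
    obtain ⟨p, hp⟩ := ht
    rcases p with p | p
    · exact ⟨p, mem_toLeft.2 hp⟩
    · have : p ∈ t.toRight := mem_toRight.2 hp
      rw [h4] at this
      exact absurd this (notMem_empty _)
  · right
    have h4 : t.toLeft = ∅ := by
      rw [← subset_empty, ← h1]
      exact toLeft_subset_toLeft hts
    refine ⟨h4, ?_, fun p hp q hq => h3 p (toRight_subset_toRight hts hp) q
      (toRight_subset_toRight hts hq)⟩
    obtain ⟨p, hp⟩ := ht
    rcases p with p | p
    · have : p ∈ t.toLeft := mem_toLeft.2 hp
      rw [h4] at this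
      exact absurd this (notMem_empty _)
    · exact ⟨p, mem_toRight.2 hp⟩

lemma sgMap_toLeft {m : ℕ} (e : (B × G) ⊕ (Fin (m + 1) × G) ↪ (B × G) ⊕ (Fin (m + 1) × G)) (g : G)
    (he : ∀ v, e v = sg g v) (s : Finset ((B × G) ⊕ (Fin (m + 1) × G))) :
    (s.map e).toLeft = gsF g s.toLeft := by
  ext p
  rw [mem_toLeft, mem_gsF, mem_toLeft, mem_map]
  constructor
  · rintro ⟨q, hq, h'⟩
    rw [he] at h'
    rcases q with q | q
    · have h : gs g q = p := Sum.inl.inj h'
      rw [← h, ← gs_mul, inv_mul_cancel, gs_one]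
      exact hq
    · have h : (Sum.inr (gs g q) : (B × G) ⊕ (Fin (m + 1) × G)) = Sum.inl p := h'
      exact absurd h Sum.inr_ne_inl
  · intro h
    refine ⟨_, h, ?_⟩
    rw [he]
    change (Sum.inl (gs g (gs g⁻¹ p)) : (B × G) ⊕ (Fin (m + 1) × G)) = Sum.inl p
    rw [← gs_mul, mul_inv_cancel, gs_one]

lemma sgMap_toRight {m : ℕ} (e : (B × G) ⊕ (Fin (m + 1) × G) ↪ (B × G) ⊕ (Fin (m + 1) × G))
    (g : G) (he : ∀ v, e v = sg g v) (s : Finset ((B × G) ⊕ (Fin (m + 1) × G))) :
    (s.map e).toRight = gsF g s.toRight := by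
  ext p
  rw [mem_toRight, mem_gsF, mem_toRight, mem_map]
  constructor
  · rintro ⟨q, hq, h'⟩
    rw [he] at h'
    rcases q with q | q
    · have h : (Sum.inl (gs g q) : (B × G) ⊕ (Fin (m + 1) × G)) = Sum.inr p := h'
      exact absurd h Sum.inl_ne_inr
    · have h : gs g q = p := Sum.inr.inj h'
      rw [← h, ← gs_mul, inv_mul_cancel, gs_one]
      exact hq
  · intro h
    refine ⟨_, h, ?_⟩
    rw [he]
    change (Sum.inr (gs g (gs g⁻¹ p)) : (B × G) ⊕ (Fin (m + 1) × G)) = Sum.inr p
    rw [← gs_mul, mul_inv_cancel, gs_one]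

lemma sgMap_inl {m : ℕ} (e : (B × G) ⊕ (Fin (m + 1) × G) ↪ (B × G) ⊕ (Fin (m + 1) × G)) (g : G)
    (he : ∀ v, e v = sg g v) (s : Finset (B × G)) :
    (s.map (Function.Embedding.inl : B × G ↪ (B × G) ⊕ (Fin (m + 1) × G))).map e =
      (gsF g s).map (Function.Embedding.inl : B × G ↪ (B × G) ⊕ (Fin (m + 1) × G)) := by
  unfold gsF
  rw [map_map, map_map]
  congr 1
  ext v
  change e (Sum.inl v) = _
  rw [he]
  rfl

/-- the complex: a family of faces on `B × G` together with a disjoint copy of `E_m G` -/
@[reducible] def ballCx (Φ : Finset (B × G) → Prop) (h0 : ∀ s, Φ s → s.Nonempty)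
    (h1 : ∀ s t, Φ s → t ⊆ s → t.Nonempty → Φ t) (h2 : ∀ v, Φ {v})
    (h3 : ∀ (g : G) s, Φ s → Φ (gsF g s)) (m : ℕ) : GComplex G :=
  letI := sgAction G B m
  { V := (B × G) ⊕ (Fin (m + 1) × G)
    K :=
      { faces := {s | CF Φ m s}
        isRelLowerSet_faces := fun {s} hs => by
          refine ⟨?_, fun t hts ht => CF_down h1 hs hts ht⟩
          rcases hs with ⟨_, h⟩ | ⟨_, h, _⟩
          · obtain ⟨p, hp⟩ := h0 _ h
            exact ⟨_, mem_toLeft.1 hp⟩
          · obtain ⟨p, hp⟩ := h
            exact ⟨_, mem_toRight.1 hp⟩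
        singleton_mem := fun v => by
          rcases v with v | v
          · left
            have e1 : ({Sum.inl v} : Finset ((B × G) ⊕ (Fin (m + 1) × G))).toRight = ∅ := by
              ext x
              simp
            have e2 : ({Sum.inl v} : Finset ((B × G) ⊕ (Fin (m + 1) × G))).toLeft = {v} := by
              ext x
              simp
            rw [e1, e2]
            exact ⟨rfl, h2 v⟩
          · right
            have e1 : ({Sum.inr v} : Finset ((B × G) ⊕ (Fin (m + 1) × G))).toRight = {v} := by
              ext x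
              simp
            have e2 : ({Sum.inr v} : Finset ((B × G) ⊕ (Fin (m + 1) × G))).toLeft = ∅ := by
              ext x
              simp
            rw [e1, e2]
            refine ⟨rfl, singleton_nonempty v, fun p hp q hq _ => ?_⟩
            rw [mem_singleton] at hp hq
            rw [hp, hq] }
    smul_mem := by
      intro g s hs
      have e1 : (s.map (MulAction.toPerm g).toEmbedding).toLeft = gsF g s.toLeft :=
        sgMap_toLeft _ g (fun _ => rfl) s
      have e2 : (s.map (MulAction.toPerm g).toEmbedding).toRight = gsF g s.toRight :=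
        sgMap_toRight _ g (fun _ => rfl) s
      change CF Φ m _
      unfold CF
      rw [e1, e2]
      rcases hs with ⟨a1, a2⟩ | ⟨a1, a2, a3⟩
      · left
        rw [a1]
        exact ⟨rfl, h3 g _ a2⟩
      · right
        rw [a1]
        refine ⟨rfl, gsF_nonempty a2, fun p hp q hq hpq => ?_⟩
        have := a3 _ (mem_gsF.1 hp) _ (mem_gsF.1 hq) hpq
        have h' := congrArg (gs g) this
        rw [← gs_mul, ← gs_mul, mul_inv_cancel, gs_one, gs_one] at h'
        exact h' }

/-- the vertex of highest level of a face of `E_m G` -/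
lemma exists_top (G : Type) [Group G] [Fintype G] (m : ℕ) :
    ∃ top : Finset (Fin (m + 1) × G) → Fin (m + 1) × G,
      (∀ s, s.Nonempty → top s ∈ s ∧ ∀ q ∈ s, q.1 ≤ (top s).1) := by
  classical
  have hex : ∀ s : Finset (Fin (m + 1) × G), ∃ p, s.Nonempty → p ∈ s ∧ ∀ q ∈ s, q.1 ≤ p.1 := by
    intro s
    by_cases h : s.Nonempty
    · obtain ⟨p, h1, h2⟩ := exists_max_image s (fun p => p.1) h
      exact ⟨p, fun _ => ⟨h1, h2⟩⟩
    · exact ⟨(0, 1), fun h' => absurd h' h⟩
  choose top htop using hex
  exact ⟨top, htop⟩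

variable {adj : B × G → B × G → Prop} {n L : ℕ}

/-- The complex built from an invariant family `Φ` with cross-index `n`. -/
theorem exists_complex (G : Type) [Group G] [Fintype G] (hG : 2 ≤ Fintype.card G) (m n : ℕ)
    (hm : 1 ≤ m) (hmn : m < n) : ∃ K : GComplex G, K.IsFree ∧
      ind G K.Realization = m ∧ Xind K.facePoset = n := by
  classical
  obtain ⟨Δ, hΔ⟩ := exists_cover G (by rwa [Nat.card_eq_fintype_card])
    (Fintype.card (Fin (n + 1) × Fin (n + 1) × Fin (n + 1))) Fintype.card_pos
  obtain ⟨B, hB, adj, hne, hs, hg, hNB, hlab, -⟩ := hΔ (2 * RR (2 * n) + 2)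
  let : Fintype B := Fintype.ofFinite B
  obtain ⟨Φ, hΦ, ⟨lev, lab, hl1, hl2, hl3⟩, hbad⟩ :=
    exists_fam (n := n) hs hg hNB le_rfl hlab (by omega)
  have hΦ0 : ∀ s, Φ s → s.Nonempty := fun s h => (hΦ.ball s h).1
  let K : GComplex G := ballCx Φ hΦ0 hΦ.down hΦ.sing hΦ.inv m
  have hface : ∀ s ∈ K.K.faces, CF Φ m s := fun s h => h
  refine ⟨ballCx Φ hΦ0 hΦ.down hΦ.sing hΦ.inv m, ?_, ?_, ?_⟩
  · -- free
    intro g x hx
    obtain ⟨s, hs', h⟩ := x.supp
    have hne : ∃ v, x.val v ≠ 0 := by
      by_contra hcon
      push Not at hcon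
      have h1 := x.sum_eq
      rw [sum_eq_zero fun v _ => hcon v] at h1
      exact zero_ne_one h1
    obtain ⟨v, hv⟩ := hne
    have hv' : x.val (sg (m := m) g⁻¹ v) ≠ 0 := by
      have h1 : (g • x).val v = x.val v := by rw [hx]
      have h2 : (g • x).val v = x.val (sg (m := m) g⁻¹ v) := rfl
      rw [← h2, h1]
      exact hv
    have m1 := h v hv
    have m2 := h _ hv'
    have hc : CF Φ m s := hs'
    rcases v with v | v
    · have m1' : v ∈ s.toLeft := mem_toLeft.2 m1
      have m2' : gs g⁻¹ v ∈ s.toLeft := mem_toLeft.2 m2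
      rcases hc with ⟨_, hc⟩ | ⟨hc, _⟩
      · have h3 : gs g⁻¹ v = v := BF_inj hs hNB le_rfl (hΦ.ball _ hc) m2' m1' rfl
        have h4 : g⁻¹ * v.2 = v.2 := congrArg Prod.snd h3
        exact inv_eq_one.1 (mul_eq_right.1 h4)
      · rw [hc] at m1'
        exact absurd m1' (notMem_empty _)
    · have m1' : v ∈ s.toRight := mem_toRight.2 m1
      have m2' : gs g⁻¹ v ∈ s.toRight := mem_toRight.2 m2
      rcases hc with ⟨hc, _⟩ | ⟨_, _, hc⟩
      · rw [hc] at m1'
        exact absurd m1' (notMem_empty _)
      · have h3 : gs g⁻¹ v = v := hc _ m2' _ m1' rfl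
        have h4 : g⁻¹ * v.2 = v.2 := congrArg Prod.snd h3
        exact inv_eq_one.1 (mul_eq_right.1 h4)
  · -- the index
    apply le_antisymm
    · apply sInf_le
      refine ⟨m, rfl, ?_⟩
      refine exists_map (adj := adj) (r := 2 * n) hs hg hNB le_rfl hm _
        (fun p : (B × G) ⊕ (Fin (m + 1) × G) => p) ?_ ?_
      · intro g p
        rfl
      · intro s hs' p hp q hq
        have hc : CF Φ m s := hs'
        rcases p with p | p <;> rcases q with q | q
        · rcases hc with ⟨_, hc⟩ | ⟨hc, _⟩
          · exact BF_diam hs (hΦ.ball _ hc) (mem_toLeft.2 hp) (mem_toLeft.2 hq)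
          · have := mem_toLeft.2 hp
            rw [hc] at this
            exact absurd this (notMem_empty _)
        · rcases hc with ⟨hc, _⟩ | ⟨hc, _⟩
          · have := mem_toRight.2 hq
            rw [hc] at this
            exact absurd this (notMem_empty _)
          · have := mem_toLeft.2 hp
            rw [hc] at this
            exact absurd this (notMem_empty _)
        · rcases hc with ⟨hc, _⟩ | ⟨hc, _⟩
          · have := mem_toRight.2 hp
            rw [hc] at this
            exact absurd this (notMem_empty _)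
          · have := mem_toLeft.2 hq
            rw [hc] at this
            exact absurd this (notMem_empty _)
        · rcases hc with ⟨hc, _⟩ | ⟨_, _, hc⟩
          · have := mem_toRight.2 hp
            rw [hc] at this
            exact absurd this (notMem_empty _)
          · exact hc _ (mem_toRight.2 hp) _ (mem_toRight.2 hq)
    · refine ind_ge hG _ (fun v : Fin (m + 1) × G =>
        (Sum.inr v : (B × G) ⊕ (Fin (m + 1) × G))) ?_ ?_
      · refine simp_aux (E G m) K _ ?_
        intro s hs' t ht hne
        right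
        obtain ⟨h1, h2⟩ := hs'
        refine ⟨?_, ?_, ?_⟩
        · rw [eq_empty_iff_forall_notMem]
          intro p hp
          rw [mem_toLeft] at hp
          obtain ⟨u, _, hu⟩ := (ht _).1 hp
          exact Sum.inr_ne_inl hu
        · obtain ⟨p, hp⟩ := hne
          obtain ⟨u, _, hu⟩ := (ht _).1 hp
          rw [← hu] at hp
          exact ⟨u, mem_toRight.2 hp⟩
        · intro p hp q hq hpq
          rw [mem_toRight] at hp hq
          obtain ⟨u, hu1, hu⟩ := (ht _).1 hp
          obtain ⟨v, hv1, hv⟩ := (ht _).1 hq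
          have e1 : u = p := Sum.inr.inj hu
          have e2 : v = q := Sum.inr.inj hv
          rw [← e1, ← e2]
          rw [← e1, ← e2] at hpq
          exact h2 u hu1 v hv1 hpq
      · intro g v
        rfl
  · -- the cross-index
    obtain ⟨top, htop⟩ := exists_top G m
    apply le_antisymm
    · apply sInf_le
      refine ⟨n, rfl, ?_⟩
      let f : {s : Finset ((B × G) ⊕ (Fin (m + 1) × G)) // CF Φ m s} → G × Fin (n + 1) := fun s =>
        if s.1.toRight = ∅ then (lab s.1.toLeft, ⟨min (lev s.1.toLeft) n, by omega⟩)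
        else ((top s.1.toRight).2, Fin.castLE (by omega) (top s.1.toRight).1)
      refine ⟨f, ?_, ?_⟩
      · intro s t hst
        have hst' : s.1 ⊆ t.1 := hst
        have hs' : CF Φ m s.1 := s.2
        have ht' : CF Φ m t.1 := t.2
        rcases hs' with ⟨a1, a2⟩ | ⟨a1, a2, a3⟩
        · have b1 : t.1.toRight = ∅ ∧ Φ t.1.toLeft := by
            rcases ht' with h | ⟨b1, b2, b3⟩
            · exact h
            · obtain ⟨p, hp⟩ := hΦ0 _ a2
              have := toLeft_subset_toLeft hst' hp
              rw [b1] at this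
              exact absurd this (notMem_empty _)
          have f1 : f s = (lab s.1.toLeft, ⟨min (lev s.1.toLeft) n, by omega⟩) := if_pos a1
          have f2 : f t = (lab t.1.toLeft, ⟨min (lev t.1.toLeft) n, by omega⟩) := if_pos b1.1
          change f s = f t ∨ (f s).2 < (f t).2
          rw [f1, f2]
          rcases hl3 _ _ a2 b1.2 (toLeft_subset_toLeft hst') with ⟨h1, h2⟩ | h1
          · left
            rw [h2]
            simp only [h1]
          · right
            have := hl1 _ b1.2
            change min (lev s.1.toLeft) n < min (lev t.1.toLeft) n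
            omega
        · have b1 : t.1.toRight.Nonempty ∧ ∀ p ∈ t.1.toRight, ∀ q ∈ t.1.toRight,
              p.1 = q.1 → p = q := by
            obtain ⟨p, hp⟩ := a2
            have hp' := toRight_subset_toRight hst' hp
            rcases ht' with ⟨b1, _⟩ | ⟨b1, b2, b3⟩
            · rw [b1] at hp'
              exact absurd hp' (notMem_empty _)
            · exact ⟨b2, b3⟩
          have f1 : f s = ((top s.1.toRight).2, Fin.castLE (by omega) (top s.1.toRight).1) :=
            if_neg a2.ne_empty
          have f2 : f t = ((top t.1.toRight).2, Fin.castLE (by omega) (top t.1.toRight).1) :=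
            if_neg b1.1.ne_empty
          change f s = f t ∨ (f s).2 < (f t).2
          rw [f1, f2]
          have c1 := htop _ a2
          have c2 := htop _ b1.1
          have c3 := toRight_subset_toRight hst' c1.1
          have c4 := c2.2 _ c3
          rcases eq_or_lt_of_le c4 with h | h
          · left
            rw [b1.2 _ c3 _ c2.1 h]
          · right
            exact h
      · intro g s
        have hs' : CF Φ m s.1 := s.2
        have e1 : ((g • s : K.facePoset.P)).1.toLeft = gsF g s.1.toLeft :=
          sgMap_toLeft _ g (fun _ => rfl) s.1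
        have e2 : ((g • s : K.facePoset.P)).1.toRight = gsF g s.1.toRight :=
          sgMap_toRight _ g (fun _ => rfl) s.1
        rcases hs' with ⟨a1, a2⟩ | ⟨a1, a2, a3⟩
        · have f1 : f s = (lab s.1.toLeft, ⟨min (lev s.1.toLeft) n, by omega⟩) := if_pos a1
          have a1' : ((g • s : K.facePoset.P)).1.toRight = ∅ := by
            rw [e2, a1]
            rfl
          have f2 : f (g • s : K.facePoset.P) = (lab ((g • s : K.facePoset.P)).1.toLeft,
              ⟨min (lev ((g • s : K.facePoset.P)).1.toLeft) n, by omega⟩) := if_pos a1'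
          change f (g • s : K.facePoset.P) = (g * (f s).1, (f s).2)
          rw [f1, f2]
          have h2 := hl2 g _ a2
          rw [← e1] at h2
          simp only [h2.1, h2.2]
        · have f1 : f s = ((top s.1.toRight).2, Fin.castLE (by omega) (top s.1.toRight).1) :=
            if_neg a2.ne_empty
          have a2' : ((g • s : K.facePoset.P)).1.toRight.Nonempty := by
            rw [e2]
            exact gsF_nonempty a2
          have f2 : f (g • s : K.facePoset.P) = ((top ((g • s : K.facePoset.P)).1.toRight).2,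
              Fin.castLE (by omega) (top ((g • s : K.facePoset.P)).1.toRight).1) :=
            if_neg a2'.ne_empty
          change f (g • s : K.facePoset.P) = (g * (f s).1, (f s).2)
          rw [f1, f2]
          have c1 := htop _ a2
          have c2 := htop _ a2'
          rw [e2] at c2 ⊢
          have d1 := c1.2 _ (mem_gsF.1 c2.1)
          have d2 : gs g (top s.1.toRight) ∈ gsF g s.1.toRight := by
            rw [mem_gsF, ← gs_mul, inv_mul_cancel, gs_one]
            exact c1.1
          have d3 := c2.2 _ d2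
          have d4 : gs g⁻¹ (top (gsF g s.1.toRight)) = top s.1.toRight :=
            a3 _ (mem_gsF.1 c2.1) _ c1.1 (le_antisymm d1 d3)
          have d5 : top (gsF g s.1.toRight) = gs g (top s.1.toRight) := by
            rw [← d4, ← gs_mul, mul_inv_cancel, gs_one]
          rw [d5]
          rfl
    · refine le_sInf ?_
      rintro _ ⟨k, rfl, f, hf, he⟩
      by_contra hlt
      have hk : k < n := by
        by_contra hk
        push Not at hk
        exact hlt (by exact_mod_cast hk)
      apply hbad k hk
      have hmk : ∀ s : Finset (B × G), Φ s →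
          CF Φ m (s.map (Function.Embedding.inl : B × G ↪ (B × G) ⊕ (Fin (m + 1) × G))) := by
        intro s hs'
        left
        constructor
        · ext x
          simp
        · have : (s.map (Function.Embedding.inl :
              B × G ↪ (B × G) ⊕ (Fin (m + 1) × G))).toLeft = s := by
            ext x
            simp
          rw [this]
          exact hs'
      let f' : {s : Finset ((B × G) ⊕ (Fin (m + 1) × G)) // CF Φ m s} → G × Fin (k + 1) := f
      refine ⟨fun s => if h : Φ s then (f' ⟨_, hmk s h⟩).2.val else 0,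
        fun s => if h : Φ s then (f' ⟨_, hmk s h⟩).1 else 1, ?_, ?_, ?_⟩
      · intro s hs'
        simp only [dif_pos hs']
        have := (f' ⟨_, hmk s hs'⟩).2.2
        omega
      · intro g s hs'
        simp only [dif_pos hs', dif_pos (hΦ.inv g s hs')]
        let P : GPoset G := K.facePoset
        let x : P.P := (⟨_, hmk s hs'⟩ : {s : Finset ((B × G) ⊕ (Fin (m + 1) × G)) // CF Φ m s})
        have e : g • x = (⟨_, hmk _ (hΦ.inv g s hs')⟩ :
            {s : Finset ((B × G) ⊕ (Fin (m + 1) × G)) // CF Φ m s}) := by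
          apply Subtype.ext
          exact sgMap_inl (m := m) _ g (fun _ => rfl) s
        have h1 := he g x
        rw [e] at h1
        have h2 : f' ⟨_, hmk _ (hΦ.inv g s hs')⟩ =
            (g * (f' ⟨_, hmk s hs'⟩).1, (f' ⟨_, hmk s hs'⟩).2) := h1
        rw [h2]
        exact ⟨rfl, rfl⟩
      · intro s t hs' ht' hst
        simp only [dif_pos hs', dif_pos ht']
        have h1 := hf ⟨_, hmk s hs'⟩ ⟨_, hmk t ht'⟩ (map_subset_map.2 hst)
        have h2 : f' ⟨_, hmk s hs'⟩ = f' ⟨_, hmk t ht'⟩ ∨
          (f' ⟨_, hmk s hs'⟩).2 < (f' ⟨_, hmk t ht'⟩).2 := h1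
        rcases h2 with h2 | h2
        · left
          rw [h2]
          exact ⟨rfl, rfl⟩
        · right
          exact h2

end Q151.XI
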