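import Mathlib
import Pool.Agent.Q151.XI.Cx

/-!
# Barycentric subdivision and the cross-index
-/

set_option autoImplicit false

namespace Q151.XI

open Finset

variable {G : Type} [Group G]

/-- The barycentric subdivision of a finite `G`-complex: the order complex of its face poset. -/
noncomputable def GComplex.sd (K : GComplex G) : GComplex G := K.facePoset.orderComplex

/-- there is an equivariant simplicial map -/
def Maps (K K' : GComplex G) : Prop :=
  ∃ f : K.V → K'.V, IsSimplicial K K' f ∧ ∀ (g : G) v, f (g • v) = g • f v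

/-- there is an equivariant order-preserving map -/
def PMaps (P P' : GPoset G) : Prop :=
  ∃ f : P.P → P'.P, (∀ p q, p ≤ q → f p ≤ f q) ∧ ∀ (g : G) p, f (g • p) = g • f p

lemma Maps.refl (K : GComplex G) : Maps K K :=
  ⟨id, fun s hs => ⟨s, hs, fun _ h => h⟩, fun _ _ => rfl⟩

lemma Maps.trans {K K' K'' : GComplex G} (h : Maps K K') (h' : Maps K' K'') : Maps K K'' := by
  obtain ⟨f, f1, f2⟩ := h
  obtain ⟨f', f1', f2'⟩ := h'
  refine ⟨f' ∘ f, fun s hs => ?_, fun g v => ?_⟩
  · obtain ⟨t, ht, h1⟩ := f1 s hs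
    obtain ⟨t', ht', h1'⟩ := f1' t ht
    exact ⟨t', ht', fun v hv => h1' _ (h1 v hv)⟩
  · simp only [Function.comp_apply, f2, f2']

lemma PMaps.trans {P P' P'' : GPoset G} (h : PMaps P P') (h' : PMaps P' P'') : PMaps P P'' := by
  obtain ⟨f, f1, f2⟩ := h
  obtain ⟨f', f1', f2'⟩ := h'
  exact ⟨f' ∘ f, fun p q hpq => f1' _ _ (f1 _ _ hpq), fun g v => by
    simp only [Function.comp_apply, f2, f2']⟩

lemma PMaps.xind_le [Fintype G] {P P' : GPoset G} (h : PMaps P P') : Xind P ≤ Xind P' := by
  obtain ⟨f, f1, f2⟩ := h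
  unfold Xind
  apply sInf_le_sInf
  rintro n ⟨k, rfl, f', f1', f2'⟩
  exact ⟨k, rfl, f' ∘ f, fun p q hpq => f1' _ _ (f1 _ _ hpq), fun g v => by
    simp only [Function.comp_apply, f2, f2']⟩

/-- a simplicial map induces a map of face posets -/
lemma Maps.face {K K' : GComplex G} (h : Maps K K') : PMaps K.facePoset K'.facePoset := by
  classical
  obtain ⟨f, f1, f2⟩ := h
  have key : ∀ s : {s // s ∈ K.K.faces}, s.1.image f ∈ K'.K.faces := by
    intro s
    obtain ⟨t, ht, h1⟩ := f1 s.1 s.2
    refine (K'.K.isRelLowerSet_faces ht).2 ?_ ?_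
    · intro v hv
      obtain ⟨u, hu, rfl⟩ := mem_image.1 hv
      exact h1 u hu
    · exact (K.K.isRelLowerSet_faces s.2).1.image f
  refine ⟨fun s : {s // s ∈ K.K.faces} => (⟨s.1.image f, key s⟩ : {s // s ∈ K'.K.faces}), ?_, ?_⟩
  · intro s t hst
    exact image_subset_image (show s.1 ⊆ t.1 from hst)
  · intro g s
    apply Subtype.ext
    change (s.1.map (MulAction.toPerm g).toEmbedding).image f =
      (s.1.image f).map (MulAction.toPerm g).toEmbedding
    ext v
    simp only [mem_image, mem_map]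
    constructor
    · rintro ⟨_, ⟨u, hu, rfl⟩, rfl⟩
      exact ⟨f u, ⟨u, hu, rfl⟩, (f2 g u).symm⟩
    · rintro ⟨_, ⟨u, hu, rfl⟩, rfl⟩
      exact ⟨g • u, ⟨u, hu, rfl⟩, f2 g u⟩

/-- a map of posets induces a simplicial map of order complexes -/
lemma PMaps.order {P P' : GPoset G} (h : PMaps P P') : Maps P.orderComplex P'.orderComplex := by
  obtain ⟨f, f1, f2⟩ := h
  refine ⟨f, simp_to_order _ _ _ ?_, f2⟩
  intro s hs p hp q hq
  rcases hs.2 p hp q hq with h | h
  · exact Or.inl (f1 _ _ h)
  · exact Or.inr (f1 _ _ h)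

lemma Maps.sd {K K' : GComplex G} (h : Maps K K') : Maps K.sd K'.sd := h.face.order

lemma Maps.sd_iter {K K' : GComplex G} (h : Maps K K') (r : ℕ) :
    Maps (GComplex.sd^[r] K) (GComplex.sd^[r] K') := by
  induction r generalizing K K' with
  | zero => exact h
  | succ r ih => exact ih h.sd

/-! ### Greedy colouring -/

lemma greedy {V : Type} [Fintype V] (rel : V → V → Prop) (hsym : ∀ u v, rel u v → rel v u) (D : ℕ)
    (hD : ∀ v, ∃ S : Finset V, S.card ≤ D ∧ ∀ u, rel v u → u ∈ S) :
    ∃ c : V → Fin (D + 1), ∀ u v, rel u v → u ≠ v → c u ≠ c v := by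
  classical
  have key : ∀ T : Finset V, ∃ c : V → Fin (D + 1), ∀ u ∈ T, ∀ v ∈ T, rel u v → u ≠ v →
      c u ≠ c v := by
    intro T
    induction T using Finset.induction_on with
    | empty => exact ⟨fun _ => 0, fun u hu => absurd hu (notMem_empty _)⟩
    | insert a T ha ih =>
      obtain ⟨c, hc⟩ := ih
      obtain ⟨S, hS, hS'⟩ := hD a
      obtain ⟨x, hx⟩ : ∃ x : Fin (D + 1), x ∉ S.image c := by
        by_contra hcon
        push Not at hcon
        have h1 : (univ : Finset (Fin (D + 1))) ⊆ S.image c := fun x _ => hcon x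
        have h2 := card_le_card h1
        rw [card_univ, Fintype.card_fin] at h2
        have h3 : (S.image c).card ≤ S.card := card_image_le
        omega
      refine ⟨Function.update c a x, ?_⟩
      intro u hu v hv huv hne
      rcases mem_insert.1 hu with rfl | hu'
      · rcases mem_insert.1 hv with rfl | hv'
        · exact absurd rfl hne
        · rw [Function.update_self, Function.update_of_ne hne.symm]
          intro h
          exact hx (h ▸ mem_image_of_mem c (hS' v huv))
      · rcases mem_insert.1 hv with rfl | hv'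
        · rw [Function.update_self, Function.update_of_ne hne]
          intro h
          exact hx (h ▸ mem_image_of_mem c (hS' u (hsym _ _ huv)))
        · have h1 : u ≠ a := fun h => ha (h ▸ hu')
          have h2 : v ≠ a := fun h => ha (h ▸ hv')
          rw [Function.update_of_ne h1, Function.update_of_ne h2]
          exact hc u hu' v hv' huv hne
  obtain ⟨c, hc⟩ := key univ
  exact ⟨c, fun u v => hc u (mem_univ _) v (mem_univ _)⟩

section

variable {B : Type} {adj : B × G → B × G → Prop}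

/-- the number of points of a ball is bounded in terms of the degree and the radius -/
lemma card_ball {Δ : ℕ} (hdeg : ∀ u, ∃ S : Finset (B × G), S.card ≤ Δ ∧ ∀ v, adj u v → v ∈ S)
    {R : ℕ} (u : B × G) (k : ℕ) (hk : k < R) :
    ∃ S : Finset (B × G), S.card ≤ (Δ + 1) ^ k ∧ ∀ v, dd adj R u v ≤ k → v ∈ S := by
  classical
  choose N hN1 hN2 using hdeg
  induction k with
  | zero =>
    refine ⟨{u}, by simp, ?_⟩
    intro v hv
    rw [mem_singleton]
    exact (eq_of_dd_zero (by omega) (Nat.le_zero.1 hv)).symm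
  | succ k ih =>
    obtain ⟨S, hS1, hS2⟩ := ih (by omega)
    refine ⟨S.biUnion fun w => insert w (N w), ?_, ?_⟩
    · refine card_biUnion_le.trans ?_
      calc ∑ w ∈ S, (insert w (N w)).card ≤ ∑ w ∈ S, (Δ + 1) :=
            sum_le_sum fun w _ => (card_insert_le _ _).trans (by have := hN1 w; omega)
        _ = S.card * (Δ + 1) := by rw [sum_const, smul_eq_mul]
        _ ≤ (Δ + 1) ^ k * (Δ + 1) := Nat.mul_le_mul_right _ hS1
        _ = (Δ + 1) ^ (k + 1) := (pow_succ _ _).symm
    · intro v hv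
      rw [mem_biUnion]
      rcases Nat.lt_or_ge k (dd adj R u v) with h | h
      · have h1 : dd adj R u v = k + 1 := by omega
        have h2 : Wk adj (k + 1) u v := by
          have := wk_of_dd_lt (adj := adj) (R := R) (u := u) (v := v) (by omega)
          rwa [h1] at this
        obtain ⟨z, hz0, hz1, hz⟩ := h2
        have h3 : Wk adj k u (z k) := ⟨z, hz0, rfl, fun i hi => hz i (by omega)⟩
        refine ⟨z k, hS2 _ (dd_le_of_wk h3), ?_⟩
        rw [← hz1]
        exact mem_insert_of_mem (hN2 _ _ (hz k (by omega)))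
      · exact ⟨v, hS2 v h, mem_insert_self _ _⟩

variable [Fintype G] [Fintype B]

/-- an invariant colouring of the vertices such that different vertices at distance at most `k`
have different colours -/
lemma exists_colouring (hs : ∀ u v, adj u v → adj v u)
    (hg : ∀ g u v, adj u v → adj (gs g u) (gs g v)) {L R Δ : ℕ} (hNB : NB adj L) (hRL : R ≤ L)
    (hdeg : ∀ u, ∃ S : Finset (B × G), S.card ≤ Δ ∧ ∀ v, adj u v → v ∈ S) (k : ℕ) (hk : k < R) :
    ∃ c : B → Fin ((Δ + 1) ^ k + 1), ∀ u v : B × G, dd adj R u v ≤ k → u ≠ v → c u.1 ≠ c v.1 := by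
  classical
  have h1 : ∀ a b : B, (∃ g h : G, dd adj R (a, g) (b, h) ≤ k) →
      ∃ g h : G, dd adj R (b, g) (a, h) ≤ k := by
    rintro a b ⟨g, h, h1⟩
    refine ⟨h, g, ?_⟩
    rw [dd_symm hs]
    exact h1
  have h2 : ∀ a : B, ∃ S : Finset B, S.card ≤ (Δ + 1) ^ k ∧
      ∀ b, (∃ g h : G, dd adj R (a, g) (b, h) ≤ k) → b ∈ S := by
    intro a
    obtain ⟨S, hS1, hS2⟩ := card_ball hdeg (R := R) (a, 1) k hk
    refine ⟨S.image Prod.fst, card_image_le.trans hS1, ?_⟩
    rintro b ⟨g, h, h1⟩
    rw [mem_image]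
    refine ⟨(b, g⁻¹ * h), hS2 _ ?_, rfl⟩
    have h2 := dd_gs (R := R) hg g⁻¹ (a, g) (b, h)
    rw [← h2] at h1
    simp only [gs, inv_mul_cancel] at h1
    exact h1
  obtain ⟨c, hc⟩ := greedy (V := B) (fun a b => ∃ g h : G, dd adj R (a, g) (b, h) ≤ k) h1
    ((Δ + 1) ^ k) h2
  refine ⟨c, fun u v huv hne => hc u.1 v.1 ⟨u.2, v.2, huv⟩ fun h => hne ?_⟩
  exact eq_of_fst (R := R) L hNB hRL (by omega) h

end

end Q151.XI
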