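import Mathlib
import Pool.Agent.Q151.XI.Sd

/-!
# Many barycentric subdivisions do not lower the cross-index
-/

set_option autoImplicit false

namespace Q151.XI

open Finset

variable {G : Type} [Group G] [Fintype G] {B : Type} [Fintype B]

/-- the nonempty sets of points of a ball of radius `ρ`; distances are truncated at `R` -/
def BR (adj : B × G → B × G → Prop) (R ρ : ℕ) (s : Finset (B × G)) : Prop :=
  s.Nonempty ∧ ∃ c, ∀ p ∈ s, dd adj R c p ≤ ρ

section

variable {adj : B × G → B × G → Prop} {R ρ : ℕ}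

lemma BR_down (s t : Finset (B × G)) (hs : BR adj R ρ s) (hts : t ⊆ s) (ht : t.Nonempty) :
    BR adj R ρ t := by
  obtain ⟨-, c, hc⟩ := hs
  exact ⟨ht, c, fun p hp => hc p (hts hp)⟩

lemma BR_sing (v : B × G) : BR adj R ρ {v} := by
  refine ⟨singleton_nonempty v, v, fun p hp => ?_⟩
  rw [mem_singleton] at hp
  rw [hp, dd_self]
  exact Nat.zero_le _

lemma BR_inv (hg : ∀ g u v, adj u v → adj (gs g u) (gs g v)) (g : G) (s : Finset (B × G))
    (hs : BR adj R ρ s) : BR adj R ρ (gsF g s) := by
  obtain ⟨hne, c, hc⟩ := hs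
  refine ⟨gsF_nonempty hne, gs g c, fun p hp => ?_⟩
  rw [mem_gsF] at hp
  have h1 := hc _ hp
  have h2 := dd_gs (R := R) hg g c (gs g⁻¹ p)
  rw [← gs_mul, mul_inv_cancel, gs_one] at h2
  rw [h2]
  exact h1

lemma BR_diam (hs : ∀ u v, adj u v → adj v u) {s : Finset (B × G)} (h : BR adj R ρ s)
    {p q : B × G} (hp : p ∈ s) (hq : q ∈ s) : dd adj R p q ≤ 2 * ρ := by
  obtain ⟨-, c, hc⟩ := h
  have h1 := hc p hp
  have h2 := hc q hq
  have h3 := dd_tri (adj := adj) (R := R) p c q
  rw [dd_symm hs p c] at h3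
  omega

end

/-- the action on `B × G` -/
@[reducible] def gsAction (G B : Type) [Group G] : MulAction G (B × G) where
  smul := gs
  one_smul := gs_one
  mul_smul := gs_mul

/-- the complex of subsets of balls of radius `ρ` -/
def bcx (adj : B × G → B × G → Prop) (hg : ∀ g u v, adj u v → adj (gs g u) (gs g v))
    (R ρ : ℕ) : GComplex G :=
  letI := gsAction G B
  { V := B × G
    K :=
      { faces := {s | BR adj R ρ s}
        isRelLowerSet_faces := fun {s} hs => ⟨hs.1, fun t hts ht => BR_down s t hs hts ht⟩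
        singleton_mem := fun v => BR_sing v }
    smul_mem := fun g s hs => BR_inv hg g s hs }

section

variable {adj : B × G → B × G → Prop} {R ρ : ℕ}

/-- the ball -/
noncomputable def balR (adj : B × G → B × G → Prop) (R : ℕ) (x : B × G) (i : ℕ) :
    Finset (B × G) := by
  classical exact univ.filter fun p => dd adj R x p ≤ i

lemma mem_balR {x p : B × G} {i : ℕ} : p ∈ balR adj R x i ↔ dd adj R x p ≤ i := by
  classical
  simp [balR]

lemma balR_BR (x : B × G) {i : ℕ} (hi : i ≤ ρ) : BR adj R ρ (balR adj R x i) := by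
  refine ⟨⟨x, ?_⟩, x, fun p hp => ?_⟩
  · rw [mem_balR, dd_self]
    exact Nat.zero_le _
  · rw [mem_balR] at hp
    omega

lemma gsF_balR (hg : ∀ g u v, adj u v → adj (gs g u) (gs g v)) (g : G) (x : B × G) (i : ℕ) :
    gsF g (balR adj R x i) = balR adj R (gs g x) i := by
  ext p
  rw [mem_gsF, mem_balR, mem_balR]
  have h2 := dd_gs (R := R) hg g x (gs g⁻¹ p)
  rw [← gs_mul, mul_inv_cancel, gs_one] at h2
  rw [h2]

lemma balR_sub (hs : ∀ u v, adj u v → adj v u) {x y : B × G} {i j : ℕ}
    (h : dd adj R x y + i ≤ j) : balR adj R x i ⊆ balR adj R y j := by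
  intro p hp
  rw [mem_balR] at hp ⊢
  have h3 := dd_tri (adj := adj) (R := R) y x p
  rw [dd_symm hs y x] at h3
  omega

/-- one step: balls of radius `ρ` map to the subdivision of balls of a larger radius -/
lemma step (hs : ∀ u v, adj u v → adj v u)
    (hg : ∀ g u v, adj u v → adj (gs g u) (gs g v)) {L R Δ : ℕ} (hNB : NB adj L) (hRL : R ≤ L)
    (hdeg : ∀ u, ∃ S : Finset (B × G), S.card ≤ Δ ∧ ∀ v, adj u v → v ∈ S) (ρ ρ' : ℕ)
    (hρ : 2 * ρ < R) (hρ' : ρ' = 2 * ρ * ((Δ + 1) ^ (2 * ρ) + 1)) :
    Maps (bcx adj hg R ρ) (bcx adj hg R ρ').sd := by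
  obtain ⟨c, hc⟩ := exists_colouring hs hg hNB hRL hdeg (2 * ρ) hρ
  have hle : ∀ v : B × G, 2 * ρ * (c v.1).val ≤ ρ' := by
    intro v
    rw [hρ']
    exact Nat.mul_le_mul_left _ (c v.1).2.le
  let f : B × G → {s : Finset (B × G) // BR adj R ρ' s} := fun v =>
    ⟨balR adj R v (2 * ρ * (c v.1).val), balR_BR v (hle v)⟩
  refine ⟨f, ?_, ?_⟩
  · refine simp_to_order (bcx adj hg R ρ) (bcx adj hg R ρ').facePoset f ?_
    intro s hs' p hp q hq
    have hs'' : BR adj R ρ s := hs'
    have hd := BR_diam hs hs'' hp hq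
    by_cases hpq : p = q
    · rw [hpq]
      exact Or.inl le_rfl
    · have hne := hc p q hd hpq
      have key : ∀ p q : B × G, dd adj R p q ≤ 2 * ρ → (c p.1).val < (c q.1).val →
          balR adj R p (2 * ρ * (c p.1).val) ⊆ balR adj R q (2 * ρ * (c q.1).val) := by
        intro p q hd hlt
        apply balR_sub hs
        have : 2 * ρ * ((c p.1).val + 1) ≤ 2 * ρ * (c q.1).val := Nat.mul_le_mul_left _ hlt
        rw [Nat.mul_add] at this
        omega
      rcases Nat.lt_trichotomy (c p.1).val (c q.1).val with h | h | h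
      · exact Or.inl (key p q hd h)
      · exact absurd (Fin.ext h) hne
      · exact Or.inr (key q p ((dd_symm (R := R) hs (q : B × G) (p : B × G)).trans_le hd) h)
  · intro g v
    apply Subtype.ext
    exact (gsF_balR hg g (v : B × G) _).symm

/-- lower bound for the cross-index of the face poset of the complex of balls -/
lemma bcx_ge (hs : ∀ u v, adj u v → adj v u)
    (hg : ∀ g u v, adj u v → adj (gs g u) (gs g v)) (n : ℕ)
    (hlab : NoLab adj (Fintype.card (Fin (n + 1) × Fin (n + 1) × Fin (n + 1)))) (R : ℕ) :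
    (n : ℕ∞) ≤ Xind (bcx adj hg R n).facePoset := by
  refine le_sInf ?_
  rintro _ ⟨k, rfl, f, hf, he⟩
  by_contra hlt
  have hk : k < n := by
    by_contra hk
    push Not at hk
    exact hlt (by exact_mod_cast hk)
  let f' : {s : Finset (B × G) // BR adj R n s} → G × Fin (k + 1) := f
  have hb : ∀ (x : B × G) (i : Fin (n + 1)), BR adj R n (balR adj R x i.val) := fun x i =>
    balR_BR x (by omega)
  have he' : ∀ (g : G) (x : B × G) (i : Fin (n + 1)), f' ⟨_, hb (gs g x) i⟩ =
      (g * (f' ⟨_, hb x i⟩).1, (f' ⟨_, hb x i⟩).2) := by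
    intro g x i
    let P : GPoset G := (bcx adj hg R n).facePoset
    let y : P.P := (⟨_, hb x i⟩ : {s : Finset (B × G) // BR adj R n s})
    have h1 := he g y
    have h2 : g • y = (⟨_, hb (gs g x) i⟩ : {s : Finset (B × G) // BR adj R n s}) := by
      apply Subtype.ext
      change gsF g (balR adj R x i.val) = _
      rw [gsF_balR hg]
    rw [h2] at h1
    exact h1
  refine no_levels hk hlab (fun p => (f' ⟨_, hb p.1 p.2⟩).2) (fun p => (f' ⟨_, hb p.1 p.2⟩).1)
    ?_ ?_ ?_
  · intro g x i
    simp only [he' g x i]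
  · intro g x i
    simp only [he' g x i]
  · intro x y i j hij hd hl
    have hd' : dd adj R x y ≤ dd adj (RR n) x y := by
      apply dd_le_of_wk
      apply wk_of_dd_lt
      have := j.2
      unfold RR
      unfold RR at hd
      omega
    have hsub : balR adj R x i.val ⊆ balR adj R y j.val := balR_sub hs (by omega)
    have h1 := hf (⟨_, hb x i⟩ : {s : Finset (B × G) // BR adj R n s})
      (⟨_, hb y j⟩ : {s : Finset (B × G) // BR adj R n s}) hsub
    have h2 : f' ⟨_, hb x i⟩ = f' ⟨_, hb y j⟩ ∨ (f' ⟨_, hb x i⟩).2 < (f' ⟨_, hb y j⟩).2 := h1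
    rcases h2 with h2 | h2
    · exact congrArg Prod.fst h2
    · exact absurd hl (ne_of_lt h2)

end

lemma CF_inl {Φ : Finset (B × G) → Prop} {m : ℕ} (s : Finset (B × G)) (hs : Φ s) :
    CF Φ m (s.map (Function.Embedding.inl : B × G ↪ (B × G) ⊕ (Fin (m + 1) × G))) := by
  left
  constructor
  · ext x
    simp
  · have : (s.map (Function.Embedding.inl :
        B × G ↪ (B × G) ⊕ (Fin (m + 1) × G))).toLeft = s := by
      ext x
      simp
    rw [this]
    exact hs

/-- the radii -/
def rad (Δ n : ℕ) : ℕ → ℕ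
  | 0 => n
  | r + 1 => 2 * rad Δ n r * ((Δ + 1) ^ (2 * rad Δ n r) + 1)

lemma rad_le (Δ n : ℕ) (r : ℕ) : rad Δ n r ≤ rad Δ n (r + 1) := by
  rw [rad]
  have : 1 ≤ (Δ + 1) ^ (2 * rad Δ n r) + 1 := Nat.le_add_left _ _
  calc rad Δ n r ≤ 2 * rad Δ n r * 1 := by omega
    _ ≤ _ := Nat.mul_le_mul_left _ this

lemma rad_mono (Δ n : ℕ) {i j : ℕ} (h : i ≤ j) : rad Δ n i ≤ rad Δ n j :=
  monotone_nat_of_le_succ (rad_le Δ n) h

/-- The complexes whose `r`-th subdivision still has large cross-index. -/
theorem exists_sd (G : Type) [Group G] [Fintype G] (hG : 2 ≤ Fintype.card G) (r m n : ℕ)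
    (hm : 1 ≤ m) : ∃ K : GComplex G, K.IsFree ∧ ind G K.Realization = m ∧
      (n : ℕ∞) ≤ Xind (GComplex.sd^[r] K).facePoset := by
  classical
  obtain ⟨Δ, hΔ⟩ := exists_cover G (by rwa [Nat.card_eq_fintype_card])
    (Fintype.card (Fin (n + 1) × Fin (n + 1) × Fin (n + 1))) Fintype.card_pos
  set ρ := rad Δ n r with hρ
  obtain ⟨B, hB, adj, hne, hs, hg, hNB, hlab, hdeg⟩ := hΔ (2 * RR (2 * ρ) + 2)
  let : Fintype B := Fintype.ofFinite B
  set R := RR (2 * ρ) with hR
  have h0 : ∀ s, BR adj R ρ s → s.Nonempty := fun s h => h.1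
  have hface : ∀ s ∈ (ballCx (BR adj R ρ) h0 BR_down BR_sing (BR_inv hg) m).K.faces,
    CF (BR adj R ρ) m s := fun s h => h
  have hRb : 2 * ρ < R := by
    rw [hR]
    unfold RR
    omega
  refine ⟨ballCx (BR adj R ρ) h0 BR_down BR_sing (BR_inv hg) m, ?_, ?_, ?_⟩
  · -- free
    intro g x hx
    obtain ⟨s, hs', h⟩ := x.supp
    have hne : ∃ v, x.val v ≠ 0 := by
      by_contra hcon
      push Not at hcon
      have h1 := x.sum_eq
      rw [sum_eq_zero fun v _ => hcon v] at h1
      exact zero_ne_one h1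
    obtain ⟨v, hv⟩ := hne
    have hv' : x.val (sg (m := m) g⁻¹ v) ≠ 0 := by
      have h1 : (g • x).val v = x.val v := by rw [hx]
      have h2 : (g • x).val v = x.val (sg (m := m) g⁻¹ v) := rfl
      rw [← h2, h1]
      exact hv
    have m1 := h v hv
    have m2 := h _ hv'
    have hc : CF (BR adj R ρ) m s := hs'
    rcases v with v | v
    · have m1' : v ∈ s.toLeft := mem_toLeft.2 m1
      have m2' : gs g⁻¹ v ∈ s.toLeft := mem_toLeft.2 m2
      rcases hc with ⟨_, hc⟩ | ⟨hc, _⟩
      · have h3 : gs g⁻¹ v = v := eq_of_fst (R := R) _ hNB (by omega)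
          (lt_of_le_of_lt (BR_diam hs hc m2' m1') hRb) rfl
        have h4 : g⁻¹ * v.2 = v.2 := congrArg Prod.snd h3
        exact inv_eq_one.1 (mul_eq_right.1 h4)
      · rw [hc] at m1'
        exact absurd m1' (notMem_empty _)
    · have m1' : v ∈ s.toRight := mem_toRight.2 m1
      have m2' : gs g⁻¹ v ∈ s.toRight := mem_toRight.2 m2
      rcases hc with ⟨hc, _⟩ | ⟨_, _, hc⟩
      · rw [hc] at m1'
        exact absurd m1' (notMem_empty _)
      · have h3 : gs g⁻¹ v = v := hc _ m2' _ m1' rfl
        have h4 : g⁻¹ * v.2 = v.2 := congrArg Prod.snd h3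
        exact inv_eq_one.1 (mul_eq_right.1 h4)
  · -- the index
    apply le_antisymm
    · apply sInf_le
      refine ⟨m, rfl, ?_⟩
      refine exists_map (adj := adj) (r := 2 * ρ) hs hg hNB le_rfl hm _
        (fun p : (B × G) ⊕ (Fin (m + 1) × G) => p) ?_ ?_
      · intro g p
        rfl
      · intro s hs' p hp q hq
        have hc : CF (BR adj R ρ) m s := hs'
        rcases p with p | p <;> rcases q with q | q
        · rcases hc with ⟨_, hc⟩ | ⟨hc, _⟩
          · exact BR_diam hs hc (mem_toLeft.2 hp) (mem_toLeft.2 hq)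
          · have := mem_toLeft.2 hp
            rw [hc] at this
            exact absurd this (notMem_empty _)
        · rcases hc with ⟨hc, _⟩ | ⟨hc, _⟩
          · have := mem_toRight.2 hq
            rw [hc] at this
            exact absurd this (notMem_empty _)
          · have := mem_toLeft.2 hp
            rw [hc] at this
            exact absurd this (notMem_empty _)
        · rcases hc with ⟨hc, _⟩ | ⟨hc, _⟩
          · have := mem_toRight.2 hp
            rw [hc] at this
            exact absurd this (notMem_empty _)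
          · have := mem_toLeft.2 hq
            rw [hc] at this
            exact absurd this (notMem_empty _)
        · rcases hc with ⟨hc, _⟩ | ⟨_, _, hc⟩
          · have := mem_toRight.2 hp
            rw [hc] at this
            exact absurd this (notMem_empty _)
          · exact hc _ (mem_toRight.2 hp) _ (mem_toRight.2 hq)
    · refine ind_ge hG _ (fun v : Fin (m + 1) × G =>
        (Sum.inr v : (B × G) ⊕ (Fin (m + 1) × G))) ?_ ?_
      · refine simp_aux (E G m) _ _ ?_
        intro s hs' t ht hne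
        right
        obtain ⟨h1, h2⟩ := hs'
        refine ⟨?_, ?_, ?_⟩
        · rw [eq_empty_iff_forall_notMem]
          intro p hp
          rw [mem_toLeft] at hp
          obtain ⟨u, _, hu⟩ := (ht _).1 hp
          exact Sum.inr_ne_inl hu
        · obtain ⟨p, hp⟩ := hne
          obtain ⟨u, _, hu⟩ := (ht _).1 hp
          rw [← hu] at hp
          exact ⟨u, mem_toRight.2 hp⟩
        · intro p hp q hq hpq
          rw [mem_toRight] at hp hq
          obtain ⟨u, hu1, hu⟩ := (ht _).1 hp
          obtain ⟨v, hv1, hv⟩ := (ht _).1 hq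
          have e1 : u = p := Sum.inr.inj hu
          have e2 : v = q := Sum.inr.inj hv
          rw [← e1, ← e2]
          rw [← e1, ← e2] at hpq
          exact h2 u hu1 v hv1 hpq
      · intro g v
        rfl
  · -- the cross-index
    have h1 : ∀ i, i ≤ r → Maps (bcx adj hg R n) (GComplex.sd^[i] (bcx adj hg R (rad Δ n i))) := by
      intro i
      induction i with
      | zero => exact fun _ => Maps.refl _
      | succ i ih =>
        intro hi
        refine (ih (by omega)).trans ?_
        have hle : rad Δ n i ≤ ρ := rad_mono Δ n (by omega)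
        exact (step hs hg hNB (by omega) hdeg (rad Δ n i) (rad Δ n (i + 1)) (by omega)
          rfl).sd_iter i
    have h2 : Maps (bcx adj hg R ρ) (ballCx (BR adj R ρ) h0 BR_down BR_sing (BR_inv hg) m) := by
      refine ⟨fun v : B × G => (Sum.inl v : (B × G) ⊕ (Fin (m + 1) × G)), ?_, ?_⟩
      · intro s hs'
        refine ⟨s.map (Function.Embedding.inl : B × G ↪ (B × G) ⊕ (Fin (m + 1) × G)), ?_, ?_⟩
        · exact CF_inl s hs'
        · intro v hv
          exact mem_map.2 ⟨v, hv, rfl⟩
      · intro g v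
        rfl
    exact (bcx_ge hs hg n hlab R).trans
      (((h1 r le_rfl).trans (h2.sd_iter r)).face.xind_le)

end Q151.XI
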